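import Pool.Agent.P.MP_832dec_an.Iso

set_option autoImplicit false

open MeasureTheory Set Metric Filter Topology ComplexConjugate Real

namespace Pool.Agent.P.MP_832dec_an

/-- the normalised data: area `π`, barycentre of the boundary at the origin -/
structure Core (Ω : Set ℂ) (μ : Measure ℂ) (ν : ℂ → ℂ) (ε : ℝ) : Prop where
  gg : GG Ω μ ν
  vol : volume Ω = ENNReal.ofReal π
  bary : ∫ z, z ∂μ = 0
  per : μ.real univ ≤ 2 * π + ε
  ng : ∀ e : ℂ, ‖e‖ = 1 → ∀ s t : ℝ, ∀ z ∈ Ω, ∀ w ∈ Ω, (conj e * z).re ≤ s →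
    t ≤ (conj e * w).re → t - s ≤ μ.real {x | s ≤ (conj e * x).re ∧ (conj e * x).re ≤ t}
  mom : ∀ k : ℕ, 1 ≤ k → ∀ L : ℝ, 1 ≤ L → Ω ⊆ ball 0 L →
    ‖(∫ z in Ω, z ^ k) - (1 / 2) * ∫ z, z ^ k ∂μ‖ ≤ ε * k * L ^ k

variable {Ω : Set ℂ} {μ : Measure ℂ} {ν : ℂ → ℂ} {ε : ℝ}

theorem Core.mono (h : Core Ω μ ν ε) {η : ℝ} (hη : ε ≤ η) : Core Ω μ ν η where
  gg := h.gg
  vol := h.vol
  bary := h.bary
  per := h.per.trans (by linarith)
  ng := h.ng
  mom := fun k hk L hL hs => (h.mom k hk L hL hs).trans (by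
    have : (0 : ℝ) ≤ L := by linarith
    gcongr)

theorem Core.volR (h : Core Ω μ ν ε) : (volume Ω).toReal = π := by
  rw [h.vol, ENNReal.toReal_ofReal pi_pos.le]

theorem Core.per_ge (h : Core Ω μ ν ε) : 2 * π ≤ μ.real univ := by
  have h1 := iso h.gg
  rw [h.volR] at h1
  have h2 : (2 * π) ^ 2 ≤ μ.real univ ^ 2 := by nlinarith
  exact le_of_sq_le_sq h2 measureReal_nonneg

theorem re_conj_dir {z : ℂ} (hz : z ≠ 0) : (conj (z / (‖z‖ : ℂ)) * z).re = ‖z‖ := by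
  have h : (‖z‖ : ℂ) ≠ 0 := by simpa using hz
  rw [map_div₀, Complex.conj_ofReal, div_mul_eq_mul_div, Complex.conj_mul', sq,
    mul_div_cancel_right₀ _ h, Complex.ofReal_re]

theorem norm_dir {z : ℂ} (hz : z ≠ 0) : ‖z / (‖z‖ : ℂ)‖ = 1 := by
  rw [norm_div, Complex.norm_real, norm_norm, div_self (by simpa using hz)]

theorem re_conj_mul_le {e : ℂ} (he : ‖e‖ = 1) (z : ℂ) : (conj e * z).re ≤ ‖z‖ := by
  refine (Complex.re_le_norm _).trans ?_
  rw [norm_mul, Complex.norm_conj, he, one_mul]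

theorem Core.diam (h : Core Ω μ ν ε) : ∀ z ∈ Ω, ∀ w ∈ Ω, ‖z - w‖ ≤ μ.real univ := by
  intro z hz w hw
  have := h.gg.fin
  by_cases hzw : z - w = 0
  · rw [hzw, norm_zero]; exact measureReal_nonneg
  have h1 := h.ng _ (norm_dir hzw) _ _ w hw z hz le_rfl le_rfl
  rw [← Complex.sub_re, ← mul_sub, re_conj_dir hzw] at h1
  exact h1.trans (measureReal_mono (subset_univ _))

theorem Core.intE (h : Core Ω μ ν ε) : Integrable (fun z => ‖z - ν z‖ ^ 2) μ :=
  h.gg.integrable₂ (F := fun p => ‖p.1 - p.2‖ ^ 2) (by fun_prop)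

/-- the boundary is close to the unit circle, with normal close to the radial direction -/
theorem Core.delta (h : Core Ω μ ν ε) (h0 : 0 ≤ ε) (h1 : ε ≤ 1 / 2) :
    ∫ z, ‖z - ν z‖ ^ 2 ∂μ ≤ 400 * ε := by
  have := h.gg.fin
  have hs := iso_strong h.gg h.diam
  rw [h.volR, h.bary] at hs
  set P := μ.real univ with hP
  have hP1 : 2 * π ≤ P := h.per_ge
  have hP2 : P ≤ 2 * π + ε := h.per
  have hpi := pi_gt_three
  have hpi' := pi_lt_d2
  have hP6 : 6 ≤ P := by linarith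
  have hP7 : P ≤ 7 := by linarith
  have hi : Integrable (fun z => ‖(P : ℂ) * z - 0 - 2 * (π : ℂ) * ν z‖ ^ 2) μ :=
    h.gg.integrable₂ (F := fun p => ‖(P : ℂ) * p.1 - 0 - 2 * (π : ℂ) * p.2‖ ^ 2) (by fun_prop)
  have hpt : ∀ z, P ^ 2 * ‖z - ν z‖ ^ 2 ≤
      2 * ‖(P : ℂ) * z - 0 - 2 * (π : ℂ) * ν z‖ ^ 2 + 2 * ε ^ 2 := by
    intro z
    have e1 : (P : ℂ) * (z - ν z) =
        ((P : ℂ) * z - 0 - 2 * (π : ℂ) * ν z) - ((P - 2 * π : ℝ) : ℂ) * ν z := by
      push_cast; ring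
    have e2 : P * ‖z - ν z‖ ≤ ‖(P : ℂ) * z - 0 - 2 * (π : ℂ) * ν z‖ + ε := by
      have : P * ‖z - ν z‖ = ‖(P : ℂ) * (z - ν z)‖ := by
        rw [norm_mul, Complex.norm_real, Real.norm_of_nonneg (by linarith)]
      rw [this, e1]
      refine (norm_sub_le _ _).trans ?_
      rw [norm_mul, h.gg.unit, mul_one, Complex.norm_real, Real.norm_of_nonneg (by linarith)]
      linarith
    have e3 : (P * ‖z - ν z‖) ^ 2 ≤ (‖(P : ℂ) * z - 0 - 2 * (π : ℂ) * ν z‖ + ε) ^ 2 := by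
      gcongr
    nlinarith [sq_nonneg (‖(P : ℂ) * z - 0 - 2 * (π : ℂ) * ν z‖ - ε)]
  have hI := integral_mono (h.intE.const_mul (P ^ 2))
    ((hi.const_mul 2).add (integrable_const (2 * ε ^ 2))) hpt
  rw [integral_const_mul, integral_add' (hi.const_mul 2) (integrable_const _), integral_const_mul,
    integral_const, smul_eq_mul, ← hP] at hI
  have hdef : P ^ 2 - 4 * π * π ≤ 14 * ε := by nlinarith
  have h3 : 2 * P * P ^ 2 * (P ^ 2 - 4 * π * π) ≤ 2 * P * P ^ 2 * (14 * ε) := by gcongr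
  have h4 : P ^ 2 * ∫ z, ‖z - ν z‖ ^ 2 ∂μ ≤ P ^ 2 * (400 * ε) := by
    have h5 : P * (2 * ε ^ 2) ≤ P ^ 2 * ε := by
      have : 0 ≤ P * ε * (P - 2 * ε) := by
        have : 0 ≤ P - 2 * ε := by linarith
        positivity
      nlinarith
    have h6 : 2 * (2 * P * P ^ 2 * (14 * ε)) ≤ P ^ 2 * (392 * ε) := by
      have : 0 ≤ P ^ 2 * ε := by positivity
      nlinarith
    nlinarith
  exact le_of_mul_le_mul_left h4 (by positivity)

/-- the domain lies in a disc slightly larger than the unit disc -/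
theorem Core.sub_ball (h : Core Ω μ ν ε) (hΔ : ∫ z, ‖z - ν z‖ ^ 2 ∂μ ≤ ε) {t : ℝ} (ht : 0 < t)
    (hε : ε < t ^ 3) : Ω ⊆ ball 0 (1 + 2 * t) := by
  have := h.gg.fin
  intro z hz
  rw [mem_ball_zero_iff]
  by_contra hc
  push Not at hc
  have hz0 : z ≠ 0 := by
    intro e
    rw [e, norm_zero] at hc
    linarith
  set e := z / (‖z‖ : ℂ) with he
  have he1 : ‖e‖ = 1 := norm_dir hz0
  have hP : 0 < μ.real univ := lt_of_lt_of_le (by positivity) h.per_ge
  obtain ⟨w, hw, hw'⟩ : ∃ w ∈ Ω, (conj e * w).re ≤ 1 + t := by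
    by_contra hn
    push Not at hn
    have hcl : closure Ω ⊆ {x | 1 + t ≤ (conj e * x).re} :=
      closure_minimal (fun x hx => (hn x hx).le) (isClosed_le (by fun_prop) (by fun_prop))
    have hi : Integrable (fun x => conj e * x) μ := h.gg.integrable (by fun_prop)
    have h1 : ∫ _, (1 + t) ∂μ ≤ ∫ x, (conj e * x).re ∂μ := by
      refine integral_mono_ae (integrable_const _) hi.re ?_
      filter_upwards [h.gg.supp] with x hx using hcl hx
    have h2 : ∫ x, (conj e * x).re ∂μ = 0 := by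
      have := integral_re hi
      simp only [RCLike.re_to_complex] at this
      rw [this, integral_const_mul, h.bary]
      simp
    rw [h2, integral_const, smul_eq_mul] at h1
    nlinarith
  have h1 := h.ng e he1 (1 + t) (1 + 2 * t) w hw z hz hw' (by rw [he, re_conj_dir hz0]; exact hc)
  have h2 := mul_meas_ge_le_integral_of_nonneg (μ := μ) (f := fun z => ‖z - ν z‖ ^ 2)
    (Eventually.of_forall fun z => by positivity) h.intE (t ^ 2)
  have h3 : μ.real {x | 1 + t ≤ (conj e * x).re ∧ (conj e * x).re ≤ 1 + 2 * t} ≤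
      μ.real {x | t ^ 2 ≤ ‖x - ν x‖ ^ 2} := by
    refine measureReal_mono fun x hx => ?_
    have h4 := re_conj_mul_le he1 x
    have h5 := norm_sub_norm_le x (ν x)
    rw [h.gg.unit] at h5
    have h6 : t ≤ ‖x - ν x‖ := by linarith [hx.1]
    exact pow_le_pow_left₀ ht.le h6 2
  have h7 : t ^ 2 * t ≤ t ^ 2 * μ.real {x | t ^ 2 ≤ ‖x - ν x‖ ^ 2} := by
    gcongr
    linarith
  nlinarith

theorem GG.ae_norm_le (h : GG Ω μ ν) {L : ℝ} (hs : Ω ⊆ ball 0 L) : ∀ᵐ z ∂μ, ‖z‖ ≤ L := by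
  filter_upwards [h.supp] with z hz
  have := (closure_mono hs).trans closure_ball_subset_closedBall hz
  simpa using this

theorem GG.int_pow_nu (h : GG Ω μ ν) (j : ℕ) : ∫ z, z ^ j * ν z ∂μ = 0 := by
  rw [← h.gg (fun z => z ^ j) (by fun_prop)]
  have : ∀ z, dbar (fun z => z ^ j) z = 0 := fun z => dbar_holo (by fun_prop)
  simp [this]

theorem contDiff_conj : ContDiff ℝ 1 (fun z : ℂ => conj z) := Complex.conjCLE.contDiff

theorem GG.int_pow_conj_nu (h : GG Ω μ ν) (k : ℕ) :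
    ∫ z, z ^ (k + 1) * conj (ν z) ∂μ = 2 * (k + 1) * ∫ z in Ω, z ^ k := by
  have h1 := h.gg (fun z => conj z ^ (k + 1)) (contDiff_conj.pow _)
  have h2 : ∀ z, dbar (fun z => conj z ^ (k + 1)) z = conj (2 * (k + 1) * z ^ k) := by
    intro z
    rw [dbar_comp_holo (h := fun w => w ^ (k + 1)) (f := fun z => conj z) (hasDerivAt_pow _ _)
      (contDiff_conj.differentiable one_ne_zero z), dbar_conj]
    simp [map_ofNat]
    ring
  have h3 : ∀ z, conj z ^ (k + 1) * ν z = conj (z ^ (k + 1) * conj (ν z)) := by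
    intro z; simp
  simp only [h2, h3, integral_conj] at h1
  rw [← star_injective h1, integral_const_mul]

/-- the holomorphic moments are small -/
theorem Core.moment (h : Core Ω μ ν ε) (hΔ : ∫ z, ‖z - ν z‖ ^ 2 ∂μ ≤ ε) {L : ℝ} (hL : 1 ≤ L)
    (hs : Ω ⊆ ball 0 L) {k : ℕ} (hk : 1 ≤ k) : ‖∫ z in Ω, z ^ k‖ ≤ 6 * ε * L ^ k := by
  have h0 : 0 ≤ ε := le_trans (integral_nonneg fun z => by positivity) hΔ
  have hm := h.mom k hk L hL hs
  have hLk : 0 < L ^ k := by positivity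
  obtain ⟨j, rfl⟩ : ∃ j, k = j + 1 := ⟨k - 1, by omega⟩
  rcases Nat.eq_zero_or_pos j with rfl | hj
  · simp only [zero_add, pow_one, h.bary, mul_zero, sub_zero, Nat.cast_one, mul_one] at hm ⊢
    nlinarith
  have hpt : ∀ z, z ^ j * (z - ν z) ^ 2 * conj (ν z) =
      z ^ (j + 1 + 1) * conj (ν z) - 2 * z ^ (j + 1) + z ^ j * ν z := by
    intro z
    have : ν z * conj (ν z) = 1 := by
      rw [Complex.mul_conj', h.gg.unit]; simp
    linear_combination (z ^ j * ν z - 2 * z ^ (j + 1)) * this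
  have i1 : Integrable (fun z => z ^ (j + 1 + 1) * conj (ν z)) μ :=
    h.gg.integrable₂ (F := fun p => p.1 ^ (j + 1 + 1) * conj p.2) (by fun_prop)
  have i2 : Integrable (fun z : ℂ => 2 * z ^ (j + 1)) μ := h.gg.integrable (by fun_prop)
  have i3 : Integrable (fun z => z ^ j * ν z) μ :=
    h.gg.integrable₂ (F := fun p => p.1 ^ j * p.2) (by fun_prop)
  have hI : ∫ z, z ^ j * (z - ν z) ^ 2 * conj (ν z) ∂μ =
      2 * ((j + 1 : ℕ) + 1) * (∫ z in Ω, z ^ (j + 1)) - 2 * ∫ z, z ^ (j + 1) ∂μ := by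
    simp only [hpt]
    have i4 : Integrable (fun z => z ^ (j + 1 + 1) * conj (ν z) - 2 * z ^ (j + 1)) μ := i1.sub i2
    rw [integral_add i4 i3, integral_sub i1 i2, h.gg.int_pow_nu, h.gg.int_pow_conj_nu,
      integral_const_mul, add_zero]
  have hb : ‖∫ z, z ^ j * (z - ν z) ^ 2 * conj (ν z) ∂μ‖ ≤ L ^ (j + 1) * ε := by
    refine (norm_integral_le_of_norm_le (h.intE.const_mul (L ^ (j + 1))) ?_).trans ?_
    · filter_upwards [h.gg.ae_norm_le hs] with z hz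
      rw [norm_mul, norm_mul, Complex.norm_conj, h.gg.unit, mul_one, norm_pow, norm_pow]
      gcongr
      exact (pow_le_pow_left₀ (norm_nonneg _) hz j).trans (pow_le_pow_right₀ hL (by omega))
    · rw [integral_const_mul]
      gcongr
  rw [hI] at hb
  set M := ∫ z in Ω, z ^ (j + 1)
  set N := ∫ z, z ^ (j + 1) ∂μ
  have e : (2 * j : ℝ) * ‖M‖ = ‖(2 * ((j + 1 : ℕ) + 1) * M - 2 * N) - 4 * (M - 1 / 2 * N)‖ := by
    have : (2 * ((j + 1 : ℕ) + 1) * M - 2 * N) - 4 * (M - 1 / 2 * N) = ((2 * j : ℝ) : ℂ) * M := by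
      push_cast; ring
    rw [this, norm_mul, Complex.norm_real, Real.norm_of_nonneg (by positivity)]
  have e2 := norm_sub_le (2 * ((j + 1 : ℕ) + 1) * M - 2 * N) (4 * (M - 1 / 2 * N))
  rw [← e, norm_mul, Complex.norm_ofNat] at e2
  have hj' : (1 : ℝ) ≤ j := by exact_mod_cast hj
  push_cast at hm
  have e3 : (2 * j : ℝ) * ‖M‖ ≤ (2 * j) * (6 * ε * L ^ (j + 1)) := by
    have : 0 ≤ ε * L ^ (j + 1) := by positivity
    nlinarith
  exact le_of_mul_le_mul_left e3 (by positivity)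

end Pool.Agent.P.MP_832dec_an
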