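import Pool.Agent.P.MP_832dec_an.Core1

set_option autoImplicit false

open MeasureTheory Set Metric Filter Topology ComplexConjugate Real

namespace Pool.Agent.P.MP_832dec_an

variable {Ω : Set ℂ} {μ : Measure ℂ} {ν : ℂ → ℂ} {ε : ℝ}

theorem normsq_sub_unit {n : ℂ} (hn : ‖n‖ = 1) (z : ℂ) :
    ‖z - n‖ ^ 2 = ‖z‖ ^ 2 - 2 * (conj z * n).re + 1 := by
  have h1 : n.re ^ 2 + n.im ^ 2 = 1 := by
    have := Complex.sq_norm n
    rw [hn, Complex.normSq_apply] at this
    nlinarith
  rw [Complex.sq_norm, Complex.sq_norm, Complex.normSq_apply, Complex.normSq_apply]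
  simp only [Complex.sub_re, Complex.sub_im, Complex.mul_re, Complex.conj_re, Complex.conj_im]
  nlinarith

theorem re_sub_one_sq_le {n : ℂ} (hn : ‖n‖ = 1) (z : ℂ) :
    ((conj z * n).re - 1) ^ 2 ≤ ‖z - n‖ ^ 2 := by
  have h1 : conj n * n = 1 := by rw [Complex.conj_mul', hn]; simp
  have h2 : (conj z * n).re - 1 = (conj (z - n) * n).re := by
    rw [map_sub, sub_mul, h1]; simp
  have h3 : |(conj (z - n) * n).re| ≤ ‖z - n‖ := by
    refine (Complex.abs_re_le_norm _).trans ?_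
    rw [norm_mul, hn, mul_one, Complex.norm_conj]
  rw [h2]
  exact sq_le_sq' (abs_le.mp h3).1 (abs_le.mp h3).2

theorem abs_im_le {n : ℂ} (hn : ‖n‖ = 1) (z : ℂ) : |(conj z * n).im| ≤ ‖z - n‖ := by
  have h1 : conj n * n = 1 := by rw [Complex.conj_mul', hn]; simp
  have h2 : (conj z * n).im = (conj (z - n) * n).im := by
    rw [map_sub, sub_mul, h1]; simp
  rw [h2]
  refine (Complex.abs_im_le_norm _).trans ?_
  rw [norm_mul, hn, mul_one, Complex.norm_conj]

theorem GG.int_re_conj (h : GG Ω μ ν) :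
    ∫ z, (conj z * ν z).re ∂μ = 2 * (volume Ω).toReal := by
  have h1 := h.gg (fun z => conj z) contDiff_conj
  have hi : Integrable (fun z => conj z * ν z) μ :=
    h.integrable₂ (F := fun p => conj p.1 * p.2) (by fun_prop)
  have h2 := integral_re hi
  simp only [RCLike.re_to_complex] at h2
  rw [h2, ← h1]
  simp [dbar_conj, Measure.real, mul_comm]

theorem GG.int_normsq (h : GG Ω μ ν) :
    4 * ∫ z in Ω, ‖z‖ ^ 2 = ∫ z, ‖z‖ ^ 2 * (conj z * ν z).re ∂μ := by
  have h1 := h.gg (fun z => z * conj z ^ 2) (contDiff_id.mul (contDiff_conj.pow _))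
  have hc : ∀ z, DifferentiableAt ℝ (fun z : ℂ => conj z) z :=
    contDiff_conj.differentiable one_ne_zero
  have h2 : ∀ z, dbar (fun z => z * conj z ^ 2) z = ((4 * ‖z‖ ^ 2 : ℝ) : ℂ) := by
    intro z
    rw [dbar_mul (f := fun z => z) (g := fun z => conj z ^ 2) differentiableAt_id ((hc z).pow 2),
      dbar_holo (f := fun z => z) differentiableAt_id,
      dbar_comp_holo (h := fun w => w ^ 2) (f := fun z => conj z) (hasDerivAt_pow _ _) (hc z),
      dbar_conj]
    push_cast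
    rw [← Complex.mul_conj']
    ring
  have hi : Integrable (fun z => z * conj z ^ 2 * ν z) μ :=
    h.integrable₂ (F := fun p => p.1 * conj p.1 ^ 2 * p.2) (by fun_prop)
  have h3 := integral_re hi
  simp only [RCLike.re_to_complex] at h3
  simp only [h2, integral_complex_ofReal] at h1
  rw [← h1, Complex.ofReal_re, integral_const_mul] at h3
  rw [← h3]
  refine integral_congr_ae (Eventually.of_forall fun z => ?_)
  have : z * conj z ^ 2 * ν z = ((‖z‖ ^ 2 : ℝ) : ℂ) * (conj z * ν z) := by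
    push_cast
    rw [← Complex.mul_conj']
    ring
  simp only [this, Complex.re_ofReal_mul]

theorem Core.second_moment (h : Core Ω μ ν ε) (hΔ : ∫ z, ‖z - ν z‖ ^ 2 ∂μ ≤ ε)
    (hs : Ω ⊆ ball 0 2) : ∫ z in Ω, ‖z‖ ^ 2 ≤ π / 2 + ε := by
  have := h.gg.fin
  have h1 := h.gg.int_normsq
  have h2 := h.gg.int_re_conj
  rw [h.volR] at h2
  have i1 : Integrable (fun z => (conj z * ν z).re) μ :=
    h.gg.integrable₂ (F := fun p => (conj p.1 * p.2).re) (by fun_prop)
  have i2 : Integrable (fun z => ‖z‖ ^ 2 * (conj z * ν z).re) μ :=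
    h.gg.integrable₂ (F := fun p => ‖p.1‖ ^ 2 * (conj p.1 * p.2).re) (by fun_prop)
  have i3 : Integrable (fun z => 4 * ‖z - ν z‖ ^ 2 + 3 * (conj z * ν z).re) μ :=
    (h.intE.const_mul 4).add (i1.const_mul 3)
  have h3 : ∫ z, ‖z‖ ^ 2 * (conj z * ν z).re ∂μ ≤
      ∫ z, (4 * ‖z - ν z‖ ^ 2 + 3 * (conj z * ν z).re - 2) ∂μ := by
    refine integral_mono_ae i2 (i3.sub (integrable_const _)) ?_
    filter_upwards [h.gg.ae_norm_le hs] with z hz
    have a1 := normsq_sub_unit (h.gg.unit z) z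
    have a2 := re_sub_one_sq_le (h.gg.unit z) z
    have a3 : (conj z * ν z).re ≤ 2 := by
      refine (Complex.re_le_norm _).trans ?_
      rw [norm_mul, h.gg.unit, mul_one, Complex.norm_conj]
      exact hz
    have a4 : ‖z - ν z‖ ^ 2 * (conj z * ν z).re ≤ ‖z - ν z‖ ^ 2 * 2 := by gcongr
    have a5 : ‖z‖ ^ 2 = ‖z - ν z‖ ^ 2 + 2 * (conj z * ν z).re - 1 := by linarith
    rw [a5]
    nlinarith
  rw [integral_sub i3 (integrable_const _), integral_add (h.intE.const_mul 4) (i1.const_mul 3),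
    integral_const_mul, integral_const_mul, integral_const, smul_eq_mul, h2] at h3
  have := h.per_ge
  linarith

theorem ball_second_moment : ∫ z in ball (0 : ℂ) 1, ‖z‖ ^ 2 = π / 2 := by
  have h := integral_fun_norm_addHaar (volume : Measure ℂ)
    (fun r : ℝ => (Iio (1 : ℝ)).indicator (fun r => r ^ 2) r)
  have h1 : ∫ z in ball (0 : ℂ) 1, ‖z‖ ^ 2 =
      ∫ z : ℂ, (Iio (1 : ℝ)).indicator (fun r => r ^ 2) ‖z‖ := by
    rw [← integral_indicator measurableSet_ball]
    refine integral_congr_ae (Eventually.of_forall fun z => ?_)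
    simp only [indicator, mem_ball_zero_iff, mem_Iio]
  rw [h1, h]
  have h2 : ∫ y in Ioi (0 : ℝ), y ^ (Module.finrank ℝ ℂ - 1) •
      (Iio (1 : ℝ)).indicator (fun r => r ^ 2) y = 1 / 4 := by
    have h3 : ∀ y : ℝ, y ^ (Module.finrank ℝ ℂ - 1) • (Iio (1 : ℝ)).indicator (fun r => r ^ 2) y =
        (Iio (1 : ℝ)).indicator (fun r => r ^ 3) y := by
      intro y
      simp only [indicator, Complex.finrank_real_complex]
      split_ifs
      · simp; ring
      · simp
    simp only [h3]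
    rw [setIntegral_indicator measurableSet_Iio, Ioi_inter_Iio, ← integral_Ioc_eq_integral_Ioo,
      ← intervalIntegral.integral_of_le zero_le_one, integral_pow]
    norm_num
  rw [h2]
  simp [Measure.real, Complex.volume_ball]
  ring

theorem vol_unit_ball : volume (ball (0 : ℂ) 1) = ENNReal.ofReal π := by
  simp [Complex.volume_ball, ← NNReal.coe_real_pi]

/-- splitting the difference of two integrals -/
theorem int_sub_split {E : Type*} [NormedAddCommGroup E] [NormedSpace ℝ E] {A B : Set ℂ}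
    (hA : MeasurableSet A) (hB : MeasurableSet B) {f : ℂ → E} (h1 : IntegrableOn f A)
    (h2 : IntegrableOn f B) :
    (∫ z in A, f z) - ∫ z in B, f z = (∫ z in A \ B, f z) - ∫ z in B \ A, f z := by
  rw [← integral_inter_add_sdiff hB h1, ← integral_inter_add_sdiff hA h2, inter_comm B A]
  abel

theorem intOn_ball {E : Type*} [NormedAddCommGroup E] {f : ℂ → E} (hf : Continuous f) (r : ℝ) :
    IntegrableOn f (ball 0 r) volume :=
  (hf.continuousOn.integrableOn_compact (isCompact_closedBall 0 r)).mono_set ball_subset_closedBall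

/-- the weighted area of the symmetric difference with the unit disc -/
theorem Core.weighted (h : Core Ω μ ν ε) (hΔ : ∫ z, ‖z - ν z‖ ^ 2 ∂μ ≤ ε) (hs : Ω ⊆ ball 0 2) :
    (∫ z in Ω \ ball 0 1, |‖z‖ ^ 2 - 1|) + ∫ z in ball 0 1 \ Ω, |‖z‖ ^ 2 - 1| ≤ ε := by
  have hm := h.gg.isOpen.measurableSet
  have c1 : Continuous fun z : ℂ => ‖z‖ ^ 2 - 1 := by fun_prop
  have c2 : Continuous fun z : ℂ => ‖z‖ ^ 2 := by fun_prop
  have h1 := int_sub_split hm measurableSet_ball (h.gg.integrableOn c1) (intOn_ball c1 1)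
  rw [integral_sub (h.gg.integrableOn c2) (h.gg.integrableOn continuous_const),
    integral_sub (intOn_ball c2 1) (intOn_ball continuous_const 1), ball_second_moment] at h1
  simp only [integral_const, MeasurableSet.univ, univ_inter,
    smul_eq_mul, mul_one, Measure.real, Measure.restrict_apply, h.vol, vol_unit_ball] at h1
  have h2 : ∫ z in Ω \ ball 0 1, |‖z‖ ^ 2 - 1| = ∫ z in Ω \ ball 0 1, (‖z‖ ^ 2 - 1) := by
    refine setIntegral_congr_fun (hm.diff measurableSet_ball) fun z hz => abs_of_nonneg ?_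
    have : 1 ≤ ‖z‖ := by simpa using hz.2
    nlinarith
  have h3 : ∫ z in ball 0 1 \ Ω, |‖z‖ ^ 2 - 1| = -∫ z in ball 0 1 \ Ω, (‖z‖ ^ 2 - 1) := by
    rw [← integral_neg]
    refine setIntegral_congr_fun (measurableSet_ball.diff hm) fun z hz => abs_of_nonpos ?_
    have : ‖z‖ < 1 := by simpa using hz.1
    nlinarith [norm_nonneg z]
  have h4 := h.second_moment hΔ hs
  rw [h2, h3]
  linarith

theorem Core.inner (h : Core Ω μ ν ε) (hΔ : ∫ z, ‖z - ν z‖ ^ 2 ∂μ ≤ ε) (hs : Ω ⊆ ball 0 2)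
    {t : ℝ} (ht : 0 < t) : (volume (ball (0 : ℂ) (1 - t) \ Ω)).toReal ≤ ε / t := by
  have hm := h.gg.isOpen.measurableSet
  have h1 := h.weighted hΔ hs
  have c1 : Continuous fun z : ℂ => |‖z‖ ^ 2 - 1| := by fun_prop
  have h2 : 0 ≤ ∫ z in Ω \ ball 0 1, |‖z‖ ^ 2 - 1| := integral_nonneg fun z => abs_nonneg _
  have hsub : ball (0 : ℂ) (1 - t) \ Ω ⊆ ball 0 1 \ Ω :=
    sdiff_subset_sdiff_left (ball_subset_ball (by linarith))
  have i1 : IntegrableOn (fun z : ℂ => |‖z‖ ^ 2 - 1|) (ball 0 1 \ Ω) :=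
    (intOn_ball c1 1).mono_set sdiff_subset
  have h3 : ∫ z in ball (0 : ℂ) (1 - t) \ Ω, |‖z‖ ^ 2 - 1| ≤ ∫ z in ball 0 1 \ Ω, |‖z‖ ^ 2 - 1| :=
    setIntegral_mono_set i1 (Eventually.of_forall fun z => abs_nonneg _) hsub.eventuallyLE
  have h4 : ∫ _ in ball (0 : ℂ) (1 - t) \ Ω, t ≤ ∫ z in ball (0 : ℂ) (1 - t) \ Ω, |‖z‖ ^ 2 - 1| := by
    refine setIntegral_mono_on ((intOn_ball continuous_const _).mono_set sdiff_subset)
      (i1.mono_set hsub) (measurableSet_ball.diff hm) fun z hz => ?_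
    have : ‖z‖ < 1 - t := by simpa using hz.1
    refine le_trans ?_ (neg_le_abs _)
    nlinarith [norm_nonneg z]
  rw [setIntegral_const, smul_eq_mul] at h4
  rw [le_div_iff₀ ht]
  exact h4.trans (by linarith)

end Pool.Agent.P.MP_832dec_an
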