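import Pool.Agent.P.MP_832dec_an.GG

set_option autoImplicit false

open MeasureTheory Set Metric Filter Topology ComplexConjugate
open scoped Manifold

namespace Pool.Agent.P.MP_832dec_an

theorem e4_det (e : ℂ) : (ContinuousLinearMap.mul ℝ ℂ e).det = Complex.normSq e := by
  rw [← Algebra.norm_complex_apply, Algebra.norm_apply]
  rfl

theorem e4_change {Ω : Set ℂ} (hΩ : MeasurableSet Ω) {e : ℂ} (he : e ≠ 0) (f : ℂ → ℝ) :
    ∫ x in (fun z => e * z) '' Ω, f x = ∫ x in Ω, Complex.normSq e * f (e * x) := by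
  rw [integral_image_eq_integral_abs_det_fderiv_smul volume hΩ (f := fun z => e * z)
    (f' := fun _ => ContinuousLinearMap.mul ℝ ℂ e)
    (fun x _ => (ContinuousLinearMap.mul ℝ ℂ e).hasFDerivAt.hasFDerivWithinAt)
    (fun x _ y _ hxy => mul_left_cancel₀ he hxy)]
  simp only [e4_det, abs_of_nonneg (Complex.normSq_nonneg e), smul_eq_mul]

/-- the derivative in `s` of the flowed function -/
noncomputable def e4_D (f : ℂ → ℝ) (ζ : ℂ) (s : ℝ) (x : ℂ) : ℝ :=
  Real.exp (2 * s * ζ.re) * (2 * ζ.re * f (Complex.exp (s * ζ) * x) +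
    fderiv ℝ f (Complex.exp (s * ζ) * x) (ζ * (Complex.exp (s * ζ) * x)))

theorem e4_hasDerivAt {f : ℂ → ℝ} (hf : ContDiff ℝ 1 f) (ζ x : ℂ) (s : ℝ) :
    HasDerivAt (fun s : ℝ => Real.exp (2 * s * ζ.re) * f (Complex.exp (s * ζ) * x))
      (e4_D f ζ s x) s := by
  have h1 : HasDerivAt (fun s : ℝ => Real.exp (2 * s * ζ.re))
      (Real.exp (2 * s * ζ.re) * (2 * ζ.re)) s := by
    have : HasDerivAt (fun s : ℝ => 2 * s * ζ.re) (2 * ζ.re) s := by
      simpa using ((hasDerivAt_id s).const_mul 2).mul_const ζ.re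
    exact this.exp
  have h2 : HasDerivAt (fun s : ℝ => Complex.exp (s * ζ) * x)
      (ζ * (Complex.exp (s * ζ) * x)) s := by
    have h3 : HasDerivAt (fun w : ℂ => Complex.exp (w * ζ) * x)
        (ζ * (Complex.exp (s * ζ) * x)) (s : ℂ) := by
      have h4 : HasDerivAt (fun w : ℂ => w * ζ) ζ (s : ℂ) := by
        simpa using (hasDerivAt_id (s : ℂ)).mul_const ζ
      exact (h4.cexp.mul_const x).congr_deriv (by ring)
    exact h3.comp_ofReal
  have h5 : HasDerivAt (fun s : ℝ => f (Complex.exp (s * ζ) * x))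
      (fderiv ℝ f (Complex.exp (s * ζ) * x) (ζ * (Complex.exp (s * ζ) * x))) s :=
    ((hf.differentiable one_ne_zero) _).hasFDerivAt.comp_hasDerivAt s h2
  refine (h1.mul h5).congr_deriv ?_
  unfold e4_D
  ring

theorem e4_cont {f : ℂ → ℝ} (hf : ContDiff ℝ 1 f) (ζ : ℂ) :
    Continuous (Function.uncurry (e4_D f ζ)) := by
  have h := hf.continuous_fderiv one_ne_zero
  have h' := hf.continuous
  unfold e4_D Function.uncurry
  fun_prop

theorem e4_dbar {f : ℂ → ℝ} (hf : ContDiff ℝ 1 f) (ζ e x : ℂ) :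
    (dbar (fun x => (f (e * x) : ℂ) * conj (ζ * x)) x).re =
      2 * ζ.re * f (e * x) + fderiv ℝ f (e * x) (ζ * (e * x)) := by
  have h1 : HasFDerivAt (fun w : ℂ => (f (e * w) : ℂ))
      (Complex.ofRealCLM.comp ((fderiv ℝ f (e * x)).comp (ContinuousLinearMap.mul ℝ ℂ e))) x :=
    Complex.ofRealCLM.hasFDerivAt.comp x
      (((hf.differentiable one_ne_zero) _).hasFDerivAt.comp x
        (ContinuousLinearMap.mul ℝ ℂ e).hasFDerivAt)
  have h2 : HasFDerivAt (fun w : ℂ => conj (ζ * w))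
      ((Complex.conjCLE : ℂ →L[ℝ] ℂ).comp (ContinuousLinearMap.mul ℝ ℂ ζ)) x :=
    Complex.conjCLE.hasFDerivAt.comp x (ContinuousLinearMap.mul ℝ ℂ ζ).hasFDerivAt
  rw [dbar_mul h1.differentiableAt h2.differentiableAt, dbar_of_hasFDerivAt h1,
    dbar_of_hasFDerivAt h2]
  have h3 : fderiv ℝ f (e * x) (ζ * (e * x)) =
      (ζ * x).re * fderiv ℝ f (e * x) e + (ζ * x).im * fderiv ℝ f (e * x) (e * Complex.I) := by
    have : ζ * (e * x) = (ζ * x).re • e + (ζ * x).im • (e * Complex.I) := by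
      conv_lhs => rw [show ζ * (e * x) = (ζ * x) * e by ring, ← Complex.re_add_im (ζ * x)]
      simp only [Complex.real_smul]
      ring
    rw [this, map_add, map_smul, map_smul]
    simp
  rw [h3]
  simp only [ContinuousLinearMap.coe_comp, Function.comp_apply, Complex.ofRealCLM_apply,
    ContinuousLinearMap.mul_apply', mul_one, ContinuousLinearEquiv.coe_coe,
    Complex.conjCLE_apply, Complex.add_re, Complex.mul_re, Complex.ofReal_re, Complex.I_re,
    Complex.ofReal_im, Complex.I_im, Complex.conj_re, Complex.conj_im, Complex.add_im,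
    Complex.mul_im]
  ring

theorem e4_slice {Ω : Set ℂ} {μ : Measure ℂ} {ν : ℂ → ℂ} (h : GG Ω μ ν) {ζ : ℂ} (hζ : ζ.re ≤ 0)
    {f : ℂ → ℝ} (hf : ContDiff ℝ 1 f) (h01 : ∀ x, f x ∈ Icc (0 : ℝ) 1) {s : ℝ} (hs : 0 ≤ s) :
    ∫ x in Ω, e4_D f ζ s x ≤ ∫ z, max (conj (ζ * z) * ν z).re 0 ∂μ := by
  set e := Complex.exp (s * ζ) with he
  have hF : ContDiff ℝ 1 (fun x : ℂ => (f (e * x) : ℂ) * conj (ζ * x)) := by
    refine ContDiff.mul ?_ ?_
    · exact Complex.ofRealCLM.contDiff.comp (hf.comp (ContinuousLinearMap.mul ℝ ℂ e).contDiff)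
    · exact Complex.conjCLE.contDiff.comp (ContinuousLinearMap.mul ℝ ℂ ζ).contDiff
  have hM : Integrable (fun z => max (conj (ζ * z) * ν z).re 0) μ :=
    h.integrable₂ (F := fun p => max (conj (ζ * p.1) * p.2).re 0) (by fun_prop)
  have hI : Integrable (fun z => (f (e * z) : ℂ) * conj (ζ * z) * ν z) μ :=
    h.integrable₂ (F := fun p => (f (e * p.1) : ℂ) * conj (ζ * p.1) * p.2)
      ((hF.continuous.comp continuous_fst).mul continuous_snd)
  have h1 : ∫ x in Ω, e4_D f ζ s x = Real.exp (2 * s * ζ.re) *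
      (∫ x in Ω, dbar (fun x => (f (e * x) : ℂ) * conj (ζ * x)) x).re := by
    have := integral_re (h.integrableOn (continuous_dbar hF))
    simp only [RCLike.re_to_complex] at this
    rw [← this, ← integral_const_mul]
    refine integral_congr_ae (Eventually.of_forall fun x => ?_)
    simp only
    rw [e4_dbar hf]
    rfl
  have h2 : (∫ z, (f (e * z) : ℂ) * conj (ζ * z) * ν z ∂μ).re ≤
      ∫ z, max (conj (ζ * z) * ν z).re 0 ∂μ := by
    rw [← RCLike.re_to_complex, ← integral_re hI]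
    refine integral_mono hI.re hM fun z => ?_
    simp only [RCLike.re_to_complex]
    rw [mul_assoc, Complex.re_ofReal_mul]
    obtain ⟨h0, h1⟩ := h01 (e * z)
    calc f (e * z) * (conj (ζ * z) * ν z).re ≤ f (e * z) * max (conj (ζ * z) * ν z).re 0 :=
          mul_le_mul_of_nonneg_left (le_max_left _ _) h0
      _ ≤ 1 * max (conj (ζ * z) * ν z).re 0 :=
          mul_le_mul_of_nonneg_right h1 (le_max_right _ _)
      _ = _ := one_mul _
  have h3 : 0 ≤ ∫ z, max (conj (ζ * z) * ν z).re 0 ∂μ :=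
    integral_nonneg fun z => le_max_right _ _
  have h4 : Real.exp (2 * s * ζ.re) ≤ 1 :=
    Real.exp_le_one_iff.2 (mul_nonpos_of_nonneg_of_nonpos (by positivity) hζ)
  rw [h1, h.gg _ hF]
  calc _ ≤ Real.exp (2 * s * ζ.re) * ∫ z, max (conj (ζ * z) * ν z).re 0 ∂μ :=
        mul_le_mul_of_nonneg_left h2 (Real.exp_pos _).le
    _ ≤ 1 * ∫ z, max (conj (ζ * z) * ν z).re 0 ∂μ := mul_le_mul_of_nonneg_right h4 h3
    _ = _ := one_mul _

theorem e4_smooth {Ω : Set ℂ} {μ : Measure ℂ} {ν : ℂ → ℂ} (h : GG Ω μ ν) {ζ : ℂ} (hζ : ζ.re ≤ 0)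
    {f : ℂ → ℝ} (hf : ContDiff ℝ 1 f) (h01 : ∀ x, f x ∈ Icc (0 : ℝ) 1) :
    (∫ x in (fun z => Complex.exp ζ * z) '' Ω, f x) - ∫ x in Ω, f x ≤
      ∫ z, max (conj (ζ * z) * ν z).re 0 ∂μ := by
  have hint : Integrable (Function.uncurry (e4_D f ζ))
      ((volume.restrict (uIoc (0 : ℝ) 1)).prod (volume.restrict Ω)) := by
    rw [Measure.prod_restrict]
    refine IntegrableOn.mono_set ((e4_cont hf ζ).continuousOn.integrableOn_compact
      ((isCompact_Icc (a := (0 : ℝ)) (b := 1)).prod h.bdd.isCompact_closure)) ?_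
    refine prod_mono ?_ subset_closure
    rw [uIoc_of_le zero_le_one]
    exact Ioc_subset_Icc_self
  have hswap := intervalIntegral_integral_swap hint
  have hftc : ∀ x : ℂ, ∫ s in (0 : ℝ)..1, e4_D f ζ s x =
      Complex.normSq (Complex.exp ζ) * f (Complex.exp ζ * x) - f x := by
    intro x
    rw [intervalIntegral.integral_eq_sub_of_hasDerivAt (fun s _ => e4_hasDerivAt hf ζ x s)
      (((e4_cont hf ζ).comp (continuous_id.prodMk continuous_const)).intervalIntegrable _ _)]
    have : Complex.normSq (Complex.exp ζ) = Real.exp (2 * ζ.re) := by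
      rw [Complex.normSq_eq_norm_sq, Complex.norm_exp, sq, ← Real.exp_add, two_mul]
    simp [this]
  have hc := hf.continuous
  rw [e4_change h.isOpen.measurableSet (Complex.exp_ne_zero ζ),
    ← integral_sub (h.integrableOn (by fun_prop)) (h.integrableOn hc)]
  simp only [hftc] at hswap
  rw [← hswap]
  have hii : IntervalIntegrable (fun s => ∫ x in Ω, e4_D f ζ s x) volume 0 1 := by
    rw [intervalIntegrable_iff]
    exact hint.integral_prod_left
  calc ∫ s in (0 : ℝ)..1, ∫ x in Ω, e4_D f ζ s x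
      ≤ ∫ _ in (0 : ℝ)..1, ∫ z, max (conj (ζ * z) * ν z).re 0 ∂μ :=
        intervalIntegral.integral_mono_on zero_le_one hii intervalIntegrable_const
          fun s hs => e4_slice h hζ hf h01 hs.1
    _ = _ := by simp

theorem flow {Ω : Set ℂ} {μ : Measure ℂ} {ν : ℂ → ℂ} (h : GG Ω μ ν) {ζ : ℂ} (hζ : ζ.re ≤ 0) :
    (volume ((fun z => Complex.exp ζ * z) '' Ω \ Ω)).toReal ≤
      ∫ z, max (conj (ζ * z) * ν z).re 0 ∂μ := by
  refine le_of_forall_pos_le_add fun ε hε => ?_
  obtain ⟨K, hKΩ, hK, hKε⟩ := h.isOpen.measurableSet.exists_isCompact_sdiff_lt (μ := volume)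
    h.vol_lt_top.ne (ε := ENNReal.ofReal ε) (by simpa using hε)
  obtain ⟨F, hF0, hF1, hF⟩ := exists_contMDiffMap_zero_one_of_isClosed (n := 1) 𝓘(ℝ, ℂ)
    hK.isClosed h.isOpen.isClosed_compl (disjoint_compl_right_iff_subset.2 hKΩ)
  have hf : ContDiff ℝ 1 (F : ℂ → ℝ) := F.contMDiff.contDiff
  have key := e4_smooth h hζ hf hF
  set A := (fun z => Complex.exp ζ * z) '' Ω with hA
  have hAo : IsOpen A := (Homeomorph.mulLeft₀ _ (Complex.exp_ne_zero ζ)).isOpenMap _ h.isOpen
  have hAc : IsCompact ((fun z => Complex.exp ζ * z) '' closure Ω) :=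
    h.bdd.isCompact_closure.image (by fun_prop)
  have hAs : A ⊆ (fun z => Complex.exp ζ * z) '' closure Ω := image_mono subset_closure
  have hAi : IntegrableOn F A volume :=
    (hf.continuous.continuousOn.integrableOn_compact hAc).mono_set hAs
  have h1 : (volume (A \ Ω)).toReal ≤ ∫ x in A, F x := by
    calc (volume (A \ Ω)).toReal = ∫ x in A \ Ω, F x := by
          rw [setIntegral_congr_fun (hAo.measurableSet.diff h.isOpen.measurableSet)
            (g := fun _ => (1 : ℝ)) fun x hx => hF1 hx.2]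
          simp [Measure.real]
      _ ≤ ∫ x in A, F x :=
          setIntegral_mono_set hAi (Eventually.of_forall fun x => (hF x).1)
            (LE.le.eventuallyLE sdiff_subset)
  have h2 : ∫ x in Ω, F x ≤ ε := by
    have hfin : volume (Ω \ K) < ⊤ := (measure_mono sdiff_subset).trans_lt h.vol_lt_top
    calc ∫ x in Ω, F x = ∫ x in Ω \ K, F x :=
          setIntegral_eq_of_subset_of_forall_sdiff_eq_zero h.isOpen.measurableSet sdiff_subset
            fun x hx => hF0 (by
              by_contra hn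
              exact hx.2 ⟨hx.1, hn⟩)
      _ ≤ ∫ _ in Ω \ K, (1 : ℝ) :=
          integral_mono ((h.integrableOn hf.continuous).mono_set sdiff_subset)
            (integrableOn_const hfin.ne) fun x => (hF x).2
      _ = (volume (Ω \ K)).toReal := by simp [Measure.real]
      _ ≤ ε := ENNReal.toReal_le_of_le_ofReal hε.le hKε.le
  linarith

end Pool.Agent.P.MP_832dec_an
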