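import Pool.Agent.P.MP_832dec_an.GG

set_option autoImplicit false

open MeasureTheory Set Metric Filter Topology ComplexConjugate

namespace Pool.Agent.P.MP_832dec_an

/-- the point with polar coordinates `r`, `θ` -/
noncomputable def e5P (r θ : ℝ) : ℂ := r * Complex.exp (θ * Complex.I)

theorem e5P_eq (p : ℝ × ℝ) : Complex.polarCoord.symm p = e5P p.1 p.2 := by
  rw [Complex.polarCoord_symm_apply, e5P, Complex.exp_mul_I]
  simp

theorem e5P_norm (r θ : ℝ) : ‖e5P r θ‖ = |r| := by
  rw [e5P, norm_mul, Complex.norm_exp_ofReal_mul_I]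
  simp

theorem e5P_cont : Continuous fun p : ℝ × ℝ => e5P p.1 p.2 := by
  unfold e5P
  fun_prop

theorem e5_polar {E : Type*} [NormedAddCommGroup E] [NormedSpace ℝ E] [CompleteSpace E]
    {F : ℂ → E} (hm : StronglyMeasurable F) (hF : Integrable F) :
    IntegrableOn (fun θ => ∫ r in Ioi (0 : ℝ), r • F (e5P r θ)) (Ioo (-Real.pi) Real.pi) ∧
      ∫ z, F z = ∫ θ in Ioo (-Real.pi) Real.pi, ∫ r in Ioi (0 : ℝ), r • F (e5P r θ) := by
  have hI : Integrable (fun p : ℝ × ℝ => p.1 • F (e5P p.1 p.2))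
      ((volume.restrict (Ioi (0 : ℝ))).prod (volume.restrict (Ioo (-Real.pi) Real.pi))) := by
    rw [Measure.prod_restrict, ← Measure.volume_eq_prod]
    refine ⟨(measurable_fst.stronglyMeasurable.smul
      (hm.comp_measurable e5P_cont.measurable)).aestronglyMeasurable, ?_⟩
    have h := Complex.lintegral_comp_polarCoord_symm fun z => ‖F z‖ₑ
    have h2 : ∫⁻ p in Ioi (0 : ℝ) ×ˢ Ioo (-Real.pi) Real.pi, ‖p.1 • F (e5P p.1 p.2)‖ₑ =
        ∫⁻ z, ‖F z‖ₑ := by
      rw [← h]
      refine setLIntegral_congr_fun (measurableSet_Ioi.prod measurableSet_Ioo) fun p hp => ?_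
      have hp1 : (0 : ℝ) < p.1 := hp.1
      simp only [e5P_eq, enorm_smul, smul_eq_mul]
      rw [Real.enorm_eq_ofReal hp1.le]
    rw [HasFiniteIntegral, h2]
    exact hF.2
  refine ⟨hI.integral_prod_right, ?_⟩
  rw [← integral_prod_symm _ hI, Measure.prod_restrict, ← Measure.volume_eq_prod,
    ← Complex.integral_comp_polarCoord_symm]
  simp only [e5P_eq]
  rfl

/-- a bounded function vanishing outside the disc of radius 2 is integrable along rays -/
theorem e5_ray {q : ℂ → ℝ} (hm : Measurable q) (h1 : ∀ z, |q z| ≤ 1)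
    (h2 : ∀ z, 2 ≤ ‖z‖ → q z = 0) (θ : ℝ) :
    IntegrableOn (fun r : ℝ => r * q (e5P r θ)) (Ioi 0) ∧
      |∫ r in Ioi (0 : ℝ), r * q (e5P r θ)| ≤ 4 := by
  have hg : Integrable ((Ioo (0 : ℝ) 2).indicator fun _ => (2 : ℝ))
      (volume.restrict (Ioi (0 : ℝ))) :=
    ((integrable_indicator_iff measurableSet_Ioo).2 (integrableOn_const (by simp))).restrict
  have hb : ∀ᵐ r ∂(volume.restrict (Ioi (0 : ℝ))), ‖r * q (e5P r θ)‖ ≤
      (Ioo (0 : ℝ) 2).indicator (fun _ => (2 : ℝ)) r := by
    filter_upwards [ae_restrict_mem measurableSet_Ioi] with r hr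
    have hr' : (0 : ℝ) < r := hr
    by_cases h : r < 2
    · rw [indicator_of_mem (show r ∈ Ioo (0 : ℝ) 2 from ⟨hr', h⟩), Real.norm_eq_abs, abs_mul,
        abs_of_pos hr']
      nlinarith [h1 (e5P r θ), abs_nonneg (q (e5P r θ))]
    · rw [h2 _ (by rw [e5P_norm, abs_of_pos hr']; linarith), indicator_of_notMem (by simp [h])]
      simp
  have hc : Measurable fun r : ℝ => e5P r θ := by
    unfold e5P
    fun_prop
  refine ⟨hg.mono' (measurable_id.mul (hm.comp hc)).aestronglyMeasurable hb, ?_⟩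
  refine (norm_integral_le_of_norm_le hg hb).trans ?_
  rw [integral_indicator measurableSet_Ioo, Measure.restrict_restrict measurableSet_Ioo,
    inter_eq_left.2 Ioo_subset_Ioi_self]
  norm_num

/-- area of `E` per unit of angle -/
noncomputable def e5rad (E : Set ℂ) (θ : ℝ) : ℝ :=
  ∫ r in Ioi (0 : ℝ), r * E.indicator (fun _ => (1 : ℝ)) (e5P r θ)

theorem e5rad_ray {E : Set ℂ} (hE : MeasurableSet E) (hb : E ⊆ ball 0 2) (θ : ℝ) :
    IntegrableOn (fun r : ℝ => r * E.indicator (fun _ => (1 : ℝ)) (e5P r θ)) (Ioi 0) ∧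
      |e5rad E θ| ≤ 4 := by
  refine e5_ray (measurable_const.indicator hE) (fun z => ?_) (fun z hz => ?_) θ
  · by_cases h : z ∈ E <;> simp [h]
  · refine indicator_of_notMem (fun h => ?_) _
    have := hb h
    simp only [mem_ball, dist_zero_right] at this
    linarith

theorem e5rad_nonneg (E : Set ℂ) (θ : ℝ) : 0 ≤ e5rad E θ :=
  setIntegral_nonneg measurableSet_Ioi fun _ hr =>
    mul_nonneg (le_of_lt hr) (indicator_nonneg (fun _ _ => zero_le_one) _)

theorem e5rad_meas {E : Set ℂ} (hE : MeasurableSet E) : Measurable (e5rad E) := by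
  have h : StronglyMeasurable fun p : ℝ × ℝ =>
      p.1 * E.indicator (fun _ => (1 : ℝ)) (e5P p.1 p.2) :=
    (measurable_fst.mul ((measurable_const.indicator hE).comp
      e5P_cont.measurable)).stronglyMeasurable
  exact (h.integral_prod_left' (μ := volume.restrict (Ioi (0 : ℝ)))).measurable

theorem e5_fin {E : Set ℂ} (hb : E ⊆ ball 0 2) : volume E ≠ ⊤ :=
  ((measure_mono hb).trans_lt measure_ball_lt_top).ne

theorem e5rad_int {E : Set ℂ} (hE : MeasurableSet E) (hb : E ⊆ ball 0 2) :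
    ∫ θ in Ioo (-Real.pi) Real.pi, e5rad E θ = (volume E).toReal := by
  have h := (e5_polar (F := E.indicator fun _ => (1 : ℝ))
    (measurable_const.indicator hE).stronglyMeasurable
    ((integrable_indicator_iff hE).2 (integrableOn_const (e5_fin hb)))).2
  rw [integral_indicator hE] at h
  simp only [smul_eq_mul, integral_const, mul_one, MeasurableSet.univ, measureReal_restrict_apply,
    univ_inter] at h
  exact h.symm

theorem e5_w_norm (z : ℂ) (k : ℕ) : ‖(z / (‖z‖ : ℂ)) ^ k‖ ≤ 1 := by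
  rw [norm_pow]
  refine pow_le_one₀ (norm_nonneg _) ?_
  rw [norm_div, Complex.norm_real, norm_norm]
  exact div_self_le_one _

theorem e5_w_meas (k : ℕ) : Measurable fun z : ℂ => (z / (‖z‖ : ℂ)) ^ k := by
  fun_prop

theorem e5_w_int {E : Set ℂ} (hb : volume E ≠ ⊤) (k : ℕ) :
    IntegrableOn (fun z : ℂ => (z / (‖z‖ : ℂ)) ^ k) E :=
  Measure.integrableOn_of_bounded hb (e5_w_meas k).aestronglyMeasurable
    (Eventually.of_forall fun z => e5_w_norm z k)

theorem e5rad_fourier {E : Set ℂ} (hE : MeasurableSet E) (hb : E ⊆ ball 0 2) (k : ℕ) :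
    ∫ θ in Ioo (-Real.pi) Real.pi, (e5rad E θ : ℂ) * Complex.exp (θ * Complex.I) ^ k =
      ∫ z in E, (z / (‖z‖ : ℂ)) ^ k := by
  have h := (e5_polar (F := E.indicator fun z : ℂ => (z / (‖z‖ : ℂ)) ^ k)
    ((e5_w_meas k).indicator hE).stronglyMeasurable
    ((integrable_indicator_iff hE).2 (e5_w_int (e5_fin hb) k))).2
  rw [integral_indicator hE] at h
  rw [h]
  refine setIntegral_congr_fun measurableSet_Ioo fun θ _ => ?_
  simp only [e5rad]
  rw [← integral_complex_ofReal, ← integral_mul_const]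
  refine setIntegral_congr_fun measurableSet_Ioi fun r hr => ?_
  have hr' : (0 : ℝ) < r := hr
  by_cases hz : e5P r θ ∈ E
  · simp only [indicator_of_mem hz, e5P_norm, abs_of_pos hr', mul_one, Complex.real_smul]
    rw [e5P, mul_div_cancel_left₀ _ (by exact_mod_cast hr'.ne')]
  · simp [indicator_of_notMem hz]

/-- a function that changes sign under a rotation has a small integral over an almost
invariant set -/
theorem e5_rot {E : Set ℂ} (hE : MeasurableSet E) (hb : volume E ≠ ⊤) {k : ℕ} (hk : 1 ≤ k) :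
    ‖∫ z in E, (z / (‖z‖ : ℂ)) ^ k‖ ≤
      (volume ((fun z => Complex.exp ((Real.pi / k : ℝ) * Complex.I) * z) '' E \ E)).toReal := by
  set R : ℂ := Complex.exp ((Real.pi / k : ℝ) * Complex.I) with hR
  have hR1 : ‖R‖ = 1 := Complex.norm_exp_ofReal_mul_I _
  have hRk : R ^ k = -1 := by
    rw [hR, ← Complex.exp_nat_mul, ← Complex.exp_pi_mul_I]
    congr 1
    have : (k : ℂ) ≠ 0 := by exact_mod_cast (by omega : k ≠ 0)
    push_cast
    field_simp
  let T : ℂ ≃ₗᵢ[ℝ] ℂ := rotation (Circle.exp (Real.pi / k))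
  have hT : (fun z => R * z) = T := by
    funext z
    simp [T, hR]
  rw [hT]
  have hmp : MeasurePreserving T volume volume := T.measurePreserving
  have hemb : MeasurableEmbedding T := T.toHomeomorph.measurableEmbedding
  have hE' : MeasurableSet (T '' E) := hemb.measurableSet_image.2 hE
  have hv : volume (T '' E) = volume E := by
    rw [← hmp.measure_preimage hE'.nullMeasurableSet, preimage_image_eq _ T.injective]
  have hb' : volume (T '' E) ≠ ⊤ := hv ▸ hb
  set g : ℂ → ℂ := fun z => (z / (‖z‖ : ℂ)) ^ k with hg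
  have h1 : ∫ z in T '' E, g z = -∫ z in E, g z := by
    rw [hmp.setIntegral_image_emb hemb, ← integral_neg]
    refine integral_congr_ae (Eventually.of_forall fun z => ?_)
    have : T z = R * z := by rw [← hT]
    simp only [hg, this, norm_mul, hR1, one_mul]
    rw [mul_div_assoc, mul_pow, hRk]
    ring
  have h2 := integral_inter_add_sdiff hE' (e5_w_int hb k)
  have h3 := integral_inter_add_sdiff hE (e5_w_int hb' k)
  rw [inter_comm] at h3
  have h4 : ∀ F : Set ℂ, volume F ≠ ⊤ → ‖∫ z in F, g z‖ ≤ (volume F).toReal := by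
    intro F hF
    have := norm_setIntegral_le_of_norm_le_const (μ := volume) (s := F) (f := g) (C := 1)
      hF.lt_top fun z _ => e5_w_norm z k
    simpa [Measure.real] using this
  have h5 : (volume (E \ T '' E)).toReal = (volume (T '' E \ E)).toReal := by
    have a1 := measure_inter_add_sdiff (μ := volume) E hE'
    have a2 := measure_inter_add_sdiff (μ := volume) (T '' E) hE
    rw [inter_comm, hv, ← a1] at a2
    rw [(ENNReal.add_right_inj (measure_ne_top_of_subset inter_subset_left hb)).1 a2]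
  have h6 : (2 : ℂ) * ∫ z in E, g z = (∫ z in E \ T '' E, g z) - ∫ z in T '' E \ E, g z := by
    linear_combination -h2 + h3 + h1
  have h7 := norm_sub_le (∫ z in E \ T '' E, g z) (∫ z in T '' E \ E, g z)
  rw [← h6, norm_mul] at h7
  have h8 := h4 (E \ T '' E) (measure_ne_top_of_subset sdiff_subset hb)
  have h9 := h4 (T '' E \ E) (measure_ne_top_of_subset sdiff_subset hb')
  simp only [Complex.norm_ofNat] at h7
  linarith

/-- Parseval bound for a bounded real function on the circle -/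
theorem e5_parseval {η : ℝ → ℝ} (hm : Measurable η) {C : ℝ} (hb : ∀ θ, |η θ| ≤ C) {a b : ℝ}
    {n : ℕ} (hn : 1 ≤ n)
    (h0 : ∫ θ in Ioo (-Real.pi) Real.pi, η θ = 0)
    (h1 : ∀ k : ℕ, 1 ≤ k → k ≤ n → ‖∫ θ in Ioo (-Real.pi) Real.pi,
      (η θ : ℂ) * Complex.exp (θ * Complex.I) ^ k‖ ≤ a * k)
    (h2 : ∀ k : ℕ, 1 ≤ k → ‖∫ θ in Ioo (-Real.pi) Real.pi,
      (η θ : ℂ) * Complex.exp (θ * Complex.I) ^ k‖ ≤ Real.pi / k * b) :
    ∫ θ in Ioo (-Real.pi) Real.pi, η θ ^ 2 ≤ 20 * (a ^ 2 * n ^ 3 + b ^ 2 / n) := by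
  have hpi := Real.pi_pos
  have hab : -Real.pi < Real.pi := by linarith
  have hL : MemLp (fun θ => (η θ : ℂ)) 2 (volume.restrict (Ioc (-Real.pi) Real.pi)) :=
    MemLp.of_bound (Complex.measurable_ofReal.comp hm).aestronglyMeasurable C
      (Eventually.of_forall fun θ => by simpa using hb θ)
  have hP := (hasSum_sq_fourierCoeffOn hab hL).nat_add_neg
  set c : ℕ → ℂ := fun k => ∫ θ in Ioo (-Real.pi) Real.pi,
    (η θ : ℂ) * Complex.exp (θ * Complex.I) ^ k with hc
  have e1 : ∀ k : ℕ, fourierCoeffOn hab (fun θ => (η θ : ℂ)) (-(k : ℤ)) =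
      (1 / (2 * Real.pi) : ℝ) • c k := by
    intro k
    rw [fourierCoeffOn_eq_integral, intervalIntegral.integral_of_le hab.le,
      integral_Ioc_eq_integral_Ioo]
    congr 1
    · ring
    · refine integral_congr_ae (Eventually.of_forall fun θ => ?_)
      simp only [neg_neg, fourier_coe_apply, smul_eq_mul]
      rw [mul_comm, ← Complex.exp_nat_mul]
      congr 2
      have : (Real.pi : ℂ) ≠ 0 := by exact_mod_cast hpi.ne'
      push_cast
      field_simp
      ring
  have e2 : ∀ k : ℕ, fourierCoeffOn hab (fun θ => (η θ : ℂ)) (k : ℤ) =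
      (1 / (2 * Real.pi) : ℝ) • conj (c k) := by
    intro k
    rw [fourierCoeffOn_eq_integral, intervalIntegral.integral_of_le hab.le,
      integral_Ioc_eq_integral_Ioo, hc]
    congr 1
    · ring
    · rw [← integral_conj]
      refine integral_congr_ae (Eventually.of_forall fun θ => ?_)
      simp only [fourier_coe_apply, smul_eq_mul, map_mul, Complex.conj_ofReal]
      rw [mul_comm, ← Complex.exp_nat_mul, ← Complex.exp_conj]
      congr 2
      have : (Real.pi : ℂ) ≠ 0 := by exact_mod_cast hpi.ne'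
      simp only [map_mul, map_natCast, Complex.conj_ofReal, Complex.conj_I]
      push_cast
      field_simp
      ring
  have hc0 : c 0 = 0 := by
    simp only [hc, pow_zero, mul_one]
    rw [integral_complex_ofReal, h0]
    simp
  have e0 : fourierCoeffOn hab (fun θ => (η θ : ℂ)) 0 = 0 := by
    have := e1 0
    simpa [hc0] using this
  simp only [e1, e2, e0, norm_smul, RCLike.norm_conj, norm_zero] at hP
  rw [intervalIntegral.integral_of_le hab.le, integral_Ioc_eq_integral_Ioo] at hP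
  simp only [Complex.norm_real, Real.norm_eq_abs, sq_abs, smul_eq_mul] at hP
  have hn' : (1 : ℝ) ≤ n := by exact_mod_cast hn
  have hsum : ∀ N : ℕ, ∑ k ∈ Finset.range N, ‖c k‖ ^ 2 ≤
      2 * (a ^ 2 * n ^ 3) + 2 * Real.pi ^ 2 * (b ^ 2 / n) := by
    intro N
    have hs : Finset.range N ⊆ Finset.range (n + 1) ∪ Finset.Ioo n N := by
      intro k hk
      simp only [Finset.mem_union, Finset.mem_range, Finset.mem_Ioo] at hk ⊢
      omega
    have t1 : ∑ k ∈ Finset.range (n + 1), ‖c k‖ ^ 2 ≤ 2 * (a ^ 2 * n ^ 3) := by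
      refine (Finset.sum_le_card_nsmul _ _ (a ^ 2 * n ^ 2) fun k hk => ?_).trans ?_
      · rcases Nat.eq_zero_or_pos k with rfl | hk0
        · rw [hc0, norm_zero, zero_pow two_ne_zero]
          positivity
        · have hkn : k ≤ n := by simpa [Nat.lt_succ_iff] using hk
          have hkn' : (k : ℝ) ≤ n := by exact_mod_cast hkn
          calc ‖c k‖ ^ 2 ≤ (a * k) ^ 2 := pow_le_pow_left₀ (norm_nonneg _) (h1 k hk0 hkn) 2
            _ = a ^ 2 * k ^ 2 := by ring
            _ ≤ a ^ 2 * n ^ 2 := by gcongr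
      · simp only [Finset.card_range, nsmul_eq_mul]
        push_cast
        have : 0 ≤ a ^ 2 * n ^ 2 := by positivity
        nlinarith
    have t2 : ∑ k ∈ Finset.Ioo n N, ‖c k‖ ^ 2 ≤ 2 * Real.pi ^ 2 * (b ^ 2 / n) := by
      calc ∑ k ∈ Finset.Ioo n N, ‖c k‖ ^ 2
          ≤ ∑ k ∈ Finset.Ioo n N, Real.pi ^ 2 * b ^ 2 * ((k : ℝ) ^ 2)⁻¹ := by
            refine Finset.sum_le_sum fun k hk => ?_
            have hk1 : 1 ≤ k := by
              simp only [Finset.mem_Ioo] at hk
              omega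
            calc ‖c k‖ ^ 2 ≤ (Real.pi / k * b) ^ 2 :=
                  pow_le_pow_left₀ (norm_nonneg _) (h2 k hk1) 2
              _ = _ := by ring
        _ = Real.pi ^ 2 * b ^ 2 * ∑ k ∈ Finset.Ioo n N, ((k : ℝ) ^ 2)⁻¹ := by
            rw [Finset.mul_sum]
        _ ≤ Real.pi ^ 2 * b ^ 2 * (2 / n) := by
            gcongr
            refine (sum_Ioo_inv_sq_le n N).trans ?_
            gcongr
            linarith
        _ = _ := by ring
    calc ∑ k ∈ Finset.range N, ‖c k‖ ^ 2
        ≤ ∑ k ∈ Finset.range (n + 1) ∪ Finset.Ioo n N, ‖c k‖ ^ 2 :=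
          Finset.sum_le_sum_of_subset_of_nonneg hs fun _ _ _ => by positivity
      _ = ∑ k ∈ Finset.range (n + 1), ‖c k‖ ^ 2 + ∑ k ∈ Finset.Ioo n N, ‖c k‖ ^ 2 := by
          refine Finset.sum_union (Finset.disjoint_left.2 fun k h1 h2 => ?_)
          simp only [Finset.mem_range, Finset.mem_Ioo] at h1 h2
          omega
      _ ≤ _ := add_le_add t1 t2
  have hle := le_of_tendsto' hP.tendsto_sum_nat
    (b := 2 * (1 / (2 * Real.pi)) ^ 2 * (2 * (a ^ 2 * n ^ 3) + 2 * Real.pi ^ 2 * (b ^ 2 / n)))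
    fun N => by
      refine le_trans (le_of_eq ?_) (mul_le_mul_of_nonneg_left (hsum N) (by positivity))
      rw [Finset.mul_sum]
      refine Finset.sum_congr rfl fun k _ => ?_
      rw [mul_pow, sq_abs]
      ring
  set J := ∫ θ in Ioo (-Real.pi) Real.pi, η θ ^ 2
  have hX : 0 ≤ a ^ 2 * n ^ 3 := by positivity
  have hY : 0 ≤ b ^ 2 / n := by positivity
  set X := a ^ 2 * n ^ 3
  set Y := b ^ 2 / n
  have hJ : J ≤ 2 / Real.pi * X + 2 * Real.pi * Y := by
    have h3 : J = 2 * Real.pi * ((Real.pi - -Real.pi)⁻¹ * J + 0 ^ 2) := by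
      field_simp
      ring
    rw [h3]
    refine (mul_le_mul_of_nonneg_left hle (by positivity)).trans (le_of_eq ?_)
    field_simp
  have h4 : 2 / Real.pi ≤ 20 := by
    rw [div_le_iff₀ hpi]
    linarith [Real.pi_gt_three]
  have h5 : 2 * Real.pi ≤ 20 := by linarith [Real.pi_lt_four]
  nlinarith [mul_le_mul_of_nonneg_right h4 hX, mul_le_mul_of_nonneg_right h5 hY]

/-- rays that contain both a point of `Ω` outside the unit disc and a nearby point outside `Ω` -/
theorem e5_cross {Ω : Set ℂ} (hΩ : MeasurableSet Ω) {t c : ℝ}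
    (ht : 0 < t) (ht' : t ≤ 1 / 4) (hsub : Ω ⊆ ball 0 (1 + 2 * t))
    (h3 : ∀ r : ℝ, 1 / 2 ≤ r → r ≤ 1 → (volume ((fun z => (r : ℂ) * z) '' Ω \ Ω)).toReal ≤ c) :
    ∫ θ in Ioo (-Real.pi) Real.pi, e5rad (Ω \ ball 0 1) θ *
      e5rad ((ball 0 1 \ ball 0 (1 - t)) \ Ω) θ ≤ 27 * (c * t) := by
  obtain ⟨r0, hr1, hr2, hr3, hr4⟩ : ∃ r0 : ℝ, 1 / 2 ≤ r0 ∧ 1 - r0 ≤ 3 * t ∧ r0 ≤ 1 ∧
      r0 * (1 + 2 * t) ≤ 1 - t := by
    have h : 0 < 1 + 2 * t := by linarith
    refine ⟨(1 - t) / (1 + 2 * t), ?_, ?_, ?_, ?_⟩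
    · rw [le_div_iff₀ h]
      linarith
    · rw [sub_le_comm, le_div_iff₀ h]
      nlinarith
    · rw [div_le_one h]
      linarith
    · rw [div_mul_cancel₀ _ h.ne']
  have hc : 0 ≤ c := ENNReal.toReal_nonneg.trans (h3 1 (by norm_num) le_rfl)
  have hΩ2 : Ω ⊆ ball 0 2 := hsub.trans (ball_subset_ball (by linarith))
  set S : Set ℂ := Ω \ ball 0 1 with hS
  set T : Set ℂ := (ball 0 1 \ ball 0 (1 - t)) \ Ω with hT
  have hSm : MeasurableSet S := hΩ.diff measurableSet_ball
  have hTm : MeasurableSet T := (measurableSet_ball.diff measurableSet_ball).diff hΩ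
  have hS2 : S ⊆ ball 0 2 := sdiff_subset.trans hΩ2
  have hT2 : T ⊆ ball 0 2 :=
    (sdiff_subset.trans sdiff_subset).trans (ball_subset_ball (by norm_num))
  set f : ℂ → ℝ → ℝ := fun z r => Ωᶜ.indicator (fun _ => (1 : ℝ)) ((r : ℂ) * z) with hf
  have hfm : Measurable (Function.uncurry f) :=
    (measurable_const.indicator hΩ.compl).comp (by fun_prop : Measurable fun p : ℂ × ℝ =>
      (p.2 : ℂ) * p.1)
  have hf0 : ∀ z r, 0 ≤ f z r := fun z r => indicator_nonneg (fun _ _ => zero_le_one) _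
  have hf1 : ∀ z r, f z r ≤ 1 := fun z r => indicator_le_self' (fun _ _ => zero_le_one) _
  set H : ℂ → ℝ := fun z => ∫ r in Ioo r0 1, f z r with hH
  have hHm : Measurable H :=
    (hfm.stronglyMeasurable.integral_prod_right (ν := volume.restrict (Ioo r0 1))).measurable
  have hH0 : ∀ z, 0 ≤ H z := fun z => integral_nonneg fun r => hf0 z r
  have hH1 : ∀ z, H z ≤ 1 := by
    intro z
    have := norm_setIntegral_le_of_norm_le_const (μ := volume) (s := Ioo r0 1) (f := f z) (C := 1)
      (by simp) fun r _ => by rw [Real.norm_eq_abs, abs_of_nonneg (hf0 z r)]; exact hf1 z r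
    rw [Real.volume_real_Ioo_of_le hr3] at this
    have h2 := Real.le_norm_self (H z)
    simp only [hH] at h2 ⊢
    linarith
  have hqm : Measurable (Ω.indicator H) := hHm.indicator hΩ
  have hq1 : ∀ z, |Ω.indicator H z| ≤ 1 := by
    intro z
    by_cases hz : z ∈ Ω
    · rw [indicator_of_mem hz, abs_of_nonneg (hH0 z)]
      exact hH1 z
    · simp [hz]
  have hq2 : ∀ z, 2 ≤ ‖z‖ → Ω.indicator H z = 0 := by
    intro z hz
    refine indicator_of_notMem (fun h => ?_) _
    have := hΩ2 h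
    simp only [mem_ball, dist_zero_right] at this
    linarith
  have hHi : IntegrableOn H Ω := Measure.integrableOn_of_bounded (M := 1) (e5_fin hΩ2)
    hHm.aestronglyMeasurable (Eventually.of_forall fun z => by
      rw [Real.norm_eq_abs, abs_of_nonneg (hH0 z)]; exact hH1 z)
  obtain ⟨hP1, hP2⟩ := e5_polar hqm.stronglyMeasurable ((integrable_indicator_iff hΩ).2 hHi)
  simp only [smul_eq_mul] at hP1 hP2
  -- pointwise bound on a ray
  have key : ∀ θ ρ : ℝ, 0 < ρ → e5P ρ θ ∈ S → e5rad T θ ≤ 9 / 4 * H (e5P ρ θ) := by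
    intro θ ρ hρ hz
    have hρ1 : 1 ≤ ρ := by
      have := hz.2
      simp only [mem_ball, dist_zero_right, e5P_norm, abs_of_pos hρ, not_lt] at this
      exact this
    have hρ2 : ρ < 1 + 2 * t := by
      have := hsub hz.1
      simp only [mem_ball, dist_zero_right, e5P_norm, abs_of_pos hρ] at this
      exact this
    have h1 := integral_comp_mul_left_Ioi'
      (fun σ : ℝ => σ * T.indicator (fun _ => (1 : ℝ)) (e5P σ θ)) 0 hρ
    rw [mul_zero] at h1
    rw [e5rad, ← h1, smul_eq_mul, ← integral_const_mul, hH]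
    simp only
    rw [← integral_const_mul, ← inter_eq_right.2 (show Ioo r0 1 ⊆ Ioi 0 from fun r hr =>
      lt_trans (by linarith) hr.1), ← setIntegral_indicator measurableSet_Ioo]
    refine integral_mono_of_nonneg ?_ ?_ ?_
    · filter_upwards [ae_restrict_mem measurableSet_Ioi] with r hr
      have hr' : (0 : ℝ) < r := hr
      exact mul_nonneg hρ.le (mul_nonneg (by positivity)
        (indicator_nonneg (fun _ _ => zero_le_one) _))
    · refine ((integrable_indicator_iff measurableSet_Ioo).2 ?_).restrict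
      refine Measure.integrableOn_of_bounded (M := 9 / 4) (by simp)
        (measurable_const.mul hfm.of_uncurry_left).aestronglyMeasurable
        (Eventually.of_forall fun r => ?_)
      rw [Real.norm_eq_abs, abs_of_nonneg (mul_nonneg (by norm_num) (hf0 _ r))]
      linarith [hf1 (e5P ρ θ) r]
    · filter_upwards [ae_restrict_mem measurableSet_Ioi] with r hr
      have hr' : (0 : ℝ) < r := hr
      by_cases hz' : e5P (ρ * r) θ ∈ T
      · have a1 : ρ * r < 1 := by
          have := hz'.1.1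
          simp only [mem_ball, dist_zero_right, e5P_norm, abs_of_pos (mul_pos hρ hr')] at this
          exact this
        have a2 : 1 - t ≤ ρ * r := by
          have := hz'.1.2
          simp only [mem_ball, dist_zero_right, e5P_norm, abs_of_pos (mul_pos hρ hr'),
            not_lt] at this
          exact this
        have a3 : r ∈ Ioo r0 1 := by
          constructor
          · by_contra hcon
            push Not at hcon
            nlinarith
          · nlinarith
        have a4 : (r : ℂ) * e5P ρ θ ∈ Ωᶜ := by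
          have : (r : ℂ) * e5P ρ θ = e5P (ρ * r) θ := by
            simp only [e5P]
            push_cast
            ring
          rw [this]
          exact hz'.2
        rw [indicator_of_mem hz', indicator_of_mem a3]
        simp only [hf, indicator_of_mem a4]
        nlinarith
      · rw [indicator_of_notMem hz', mul_zero, mul_zero]
        exact indicator_nonneg (fun r _ => mul_nonneg (by norm_num) (hf0 _ r)) _
  have key2 : ∀ θ : ℝ, e5rad S θ * e5rad T θ ≤
      9 / 4 * ∫ ρ in Ioi (0 : ℝ), ρ * Ω.indicator H (e5P ρ θ) := by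
    intro θ
    rw [e5rad, ← integral_mul_const, ← integral_const_mul]
    refine setIntegral_mono_on ((e5rad_ray hSm hS2 θ).1.mul_const _)
      ((e5_ray hqm hq1 hq2 θ).1.const_mul _) measurableSet_Ioi fun ρ hρ => ?_
    have hρ' : (0 : ℝ) < ρ := hρ
    by_cases hz : e5P ρ θ ∈ S
    · rw [indicator_of_mem hz, indicator_of_mem hz.1]
      nlinarith [key θ ρ hρ' hz]
    · rw [indicator_of_notMem hz, mul_zero, zero_mul]
      exact mul_nonneg (by norm_num) (mul_nonneg hρ'.le (indicator_nonneg (fun z _ => hH0 z) _))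
  have key3 : ∫ z in Ω, H z ≤ 12 * (c * t) := by
    have : IsFiniteMeasure (volume.restrict Ω) := isFiniteMeasure_restrict.2 (e5_fin hΩ2)
    have hI : Integrable (Function.uncurry f)
        ((volume.restrict Ω).prod (volume.restrict (Ioo r0 1))) :=
      Integrable.of_bound hfm.aestronglyMeasurable 1 (Eventually.of_forall fun p => by
        rw [Real.norm_eq_abs, Function.uncurry, abs_of_nonneg (hf0 _ _)]; exact hf1 _ _)
    simp only [hH]
    rw [integral_integral_swap hI]
    have hb : ∀ r ∈ Ioo r0 1, ‖∫ z in Ω, f z r‖ ≤ 4 * c := by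
      intro r hr
      have hr0 : 1 / 2 ≤ r := hr1.trans hr.1.le
      have hr0' : r ≠ 0 := by linarith
      have hm : MeasurableSet ((fun z : ℂ => (r : ℂ) * z) ⁻¹' Ωᶜ) :=
        hΩ.compl.preimage (by fun_prop)
      have e1 : ∀ z, f z r = ((fun z : ℂ => (r : ℂ) * z) ⁻¹' Ωᶜ).indicator (fun _ => (1 : ℝ)) z :=
        fun z => rfl
      have e2 : Ω ∩ (fun z : ℂ => (r : ℂ) * z) ⁻¹' Ωᶜ =
          (fun z : ℂ => r • z) ⁻¹' ((fun z => (r : ℂ) * z) '' Ω \ Ω) := by
        ext z
        have hrc : (r : ℂ) ≠ 0 := by exact_mod_cast hr0'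
        simp [hrc]
      simp only [e1]
      rw [setIntegral_indicator hm, e2, integral_const, smul_eq_mul, mul_one, Measure.real,
        Measure.restrict_apply MeasurableSet.univ, univ_inter,
        Measure.addHaar_preimage_smul _ hr0', ENNReal.toReal_mul,
        ENNReal.toReal_ofReal (abs_nonneg _), Complex.finrank_real_complex, Real.norm_eq_abs,
        abs_of_nonneg (by positivity), abs_of_nonneg (by positivity)]
      refine mul_le_mul ?_ (h3 r hr0 hr.2.le) ENNReal.toReal_nonneg (by norm_num)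
      rw [inv_le_comm₀ (by positivity) (by norm_num)]
      nlinarith
    have := norm_setIntegral_le_of_norm_le_const (μ := volume) (by simp) hb
    rw [Real.volume_real_Ioo_of_le hr3] at this
    refine (Real.le_norm_self _).trans (this.trans ?_)
    nlinarith
  rw [integral_indicator hΩ] at hP2
  calc _ ≤ ∫ θ in Ioo (-Real.pi) Real.pi,
        9 / 4 * ∫ ρ in Ioi (0 : ℝ), ρ * Ω.indicator H (e5P ρ θ) :=
        integral_mono_of_nonneg (Eventually.of_forall fun θ =>
          mul_nonneg (e5rad_nonneg _ _) (e5rad_nonneg _ _)) (hP1.const_mul _)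
          (Eventually.of_forall key2)
    _ = 9 / 4 * ∫ z in Ω, H z := by rw [integral_const_mul, hP2]
    _ ≤ _ := by linarith

theorem polar_bound {Ω : Set ℂ} (hΩ : MeasurableSet Ω)
    (hvol : volume Ω = ENNReal.ofReal Real.pi) {t a b c d s : ℝ} {n : ℕ} (hn : 1 ≤ n)
    (ht : 0 < t) (ht' : t ≤ 1 / 4) (hs : 0 < s) (hsub : Ω ⊆ ball 0 (1 + 2 * t))
    (h1 : ∀ k : ℕ, 1 ≤ k → k ≤ n → ‖∫ z in Ω, (z / (‖z‖ : ℂ)) ^ k‖ ≤ a * k)
    (h2 : ∀ θ : ℝ,
      (volume ((fun z => Complex.exp (θ * Complex.I) * z) '' Ω \ Ω)).toReal ≤ |θ| * b)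
    (h3 : ∀ r : ℝ, 1 / 2 ≤ r → r ≤ 1 → (volume ((fun z => (r : ℂ) * z) '' Ω \ Ω)).toReal ≤ c)
    (h4 : (volume (ball (0 : ℂ) (1 - t) \ Ω)).toReal ≤ d) :
    (volume (symmDiff Ω (ball 0 1))).toReal ≤
      100 * ((a ^ 2 * n ^ 3 + b ^ 2 / n + c * t) / s + s + d) := by
  have hpi := Real.pi_pos
  have hc : 0 ≤ c := ENNReal.toReal_nonneg.trans (h3 1 (by norm_num) le_rfl)
  have hd : 0 ≤ d := ENNReal.toReal_nonneg.trans h4
  have hΩ2 : Ω ⊆ ball 0 2 := hsub.trans (ball_subset_ball (by linarith))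
  have hB2 : ball (0 : ℂ) 1 ⊆ ball 0 2 := ball_subset_ball (by norm_num)
  have hcross := e5_cross hΩ ht ht' hsub h3
  set S : Set ℂ := Ω \ ball 0 1 with hS
  set T : Set ℂ := (ball 0 1 \ ball 0 (1 - t)) \ Ω with hT
  set U : Set ℂ := ball 0 (1 - t) \ Ω with hU
  have hSm : MeasurableSet S := hΩ.diff measurableSet_ball
  have hTm : MeasurableSet T := (measurableSet_ball.diff measurableSet_ball).diff hΩ
  have hUm : MeasurableSet U := measurableSet_ball.diff hΩ
  have hS2 : S ⊆ ball 0 2 := sdiff_subset.trans hΩ2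
  have hT2 : T ⊆ ball 0 2 := (sdiff_subset.trans sdiff_subset).trans hB2
  have hU2 : U ⊆ ball 0 2 := sdiff_subset.trans (ball_subset_ball (by linarith))
  set η : ℝ → ℝ := fun θ => e5rad Ω θ - e5rad (ball 0 1) θ with hη
  have hηm : Measurable η := (e5rad_meas hΩ).sub (e5rad_meas measurableSet_ball)
  have hηb : ∀ θ, |η θ| ≤ 8 := fun θ => (abs_sub _ _).trans (by
    linarith [(e5rad_ray hΩ hΩ2 θ).2, (e5rad_ray measurableSet_ball hB2 θ).2])
  have hηe : ∀ θ, η θ = e5rad S θ - e5rad T θ - e5rad U θ := by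
    intro θ
    simp only [hη, e5rad]
    rw [← integral_sub (e5rad_ray hΩ hΩ2 θ).1 (e5rad_ray measurableSet_ball hB2 θ).1,
      ← integral_sub (e5rad_ray hSm hS2 θ).1 (e5rad_ray hTm hT2 θ).1,
      ← integral_sub (Integrable.sub' (e5rad_ray hSm hS2 θ).1 (e5rad_ray hTm hT2 θ).1)
        (e5rad_ray hUm hU2 θ).1]
    refine integral_congr_ae (Eventually.of_forall fun r => ?_)
    have hin : e5P r θ ∈ ball (0 : ℂ) (1 - t) → e5P r θ ∈ ball (0 : ℂ) 1 :=
      fun h => ball_subset_ball (by linarith) h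
    simp only [indicator]
    by_cases a1 : e5P r θ ∈ Ω <;> by_cases a2 : e5P r θ ∈ ball (0 : ℂ) 1 <;>
      by_cases a3 : e5P r θ ∈ ball (0 : ℂ) (1 - t) <;>
      first
        | exact absurd (hin a3) a2
        | simp [S, T, U, a1, a2, a3, -mem_ball]
  have hint : ∀ {E : Type} [NormedAddCommGroup E] {g : ℝ → E} (C : ℝ),
      AEStronglyMeasurable g volume → (∀ θ, ‖g θ‖ ≤ C) →
      IntegrableOn g (Ioo (-Real.pi) Real.pi) := fun C hg hC =>
    Measure.integrableOn_of_bounded (by simp) hg (Eventually.of_forall hC)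
  have hri : ∀ {E : Set ℂ}, MeasurableSet E → E ⊆ ball 0 2 →
      IntegrableOn (e5rad E) (Ioo (-Real.pi) Real.pi) := fun hE hE2 =>
    hint 4 (e5rad_meas hE).aestronglyMeasurable fun θ => (e5rad_ray hE hE2 θ).2
  have hfi : ∀ {E : Set ℂ}, MeasurableSet E → E ⊆ ball 0 2 → ∀ k : ℕ,
      IntegrableOn (fun θ : ℝ => (e5rad E θ : ℂ) * Complex.exp (θ * Complex.I) ^ k)
        (Ioo (-Real.pi) Real.pi) := by
    intro E hE hE2 k
    refine hint 4 ((Complex.measurable_ofReal.comp (e5rad_meas hE)).mul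
      (by fun_prop)).aestronglyMeasurable fun θ => ?_
    rw [norm_mul, norm_pow, Complex.norm_exp_ofReal_mul_I, one_pow, mul_one, Complex.norm_real]
    exact (e5rad_ray hE hE2 θ).2
  have hcoef : ∀ k : ℕ, 1 ≤ k → ∫ θ in Ioo (-Real.pi) Real.pi,
      (η θ : ℂ) * Complex.exp (θ * Complex.I) ^ k = ∫ z in Ω, (z / (‖z‖ : ℂ)) ^ k := by
    intro k hk
    have hB : ∫ z in ball (0 : ℂ) 1, (z / (‖z‖ : ℂ)) ^ k = 0 := by
      have h := e5_rot measurableSet_ball (e5_fin hB2) hk
      have he : (fun z => Complex.exp ((Real.pi / k : ℝ) * Complex.I) * z) '' ball (0 : ℂ) 1 \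
          ball 0 1 = ∅ := by
        rw [sdiff_eq_empty]
        rintro _ ⟨z, hz, rfl⟩
        simp only [mem_ball, dist_zero_right] at hz ⊢
        rwa [norm_mul, Complex.norm_exp_ofReal_mul_I, one_mul]
      rw [he] at h
      simpa using h
    simp only [hη, Complex.ofReal_sub, sub_mul]
    rw [integral_sub (hfi hΩ hΩ2 k) (hfi measurableSet_ball hB2 k), e5rad_fourier hΩ hΩ2,
      e5rad_fourier measurableSet_ball hB2, hB, sub_zero]
  have hpar := e5_parseval hηm hηb (a := a) (b := b) hn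
    (by
      simp only [hη]
      rw [integral_sub (hri hΩ hΩ2) (hri measurableSet_ball hB2), e5rad_int hΩ hΩ2,
        e5rad_int measurableSet_ball hB2, hvol, Complex.volume_ball]
      simp [hpi.le])
    (fun k hk hkn => by rw [hcoef k hk]; exact h1 k hk hkn)
    (fun k hk => by
      rw [hcoef k hk]
      refine (e5_rot hΩ (e5_fin hΩ2) hk).trans ((h2 _).trans (le_of_eq ?_))
      rw [abs_of_nonneg (by positivity)])
  have hV : (volume (symmDiff Ω (ball 0 1))).toReal ≤
      (volume S).toReal + (volume T).toReal + (volume U).toReal := by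
    have hsub' : symmDiff Ω (ball 0 1) ⊆ S ∪ T ∪ U := by
      intro z hz
      rcases hz with hz | hz
      · exact Or.inl (Or.inl hz)
      · by_cases h : z ∈ ball (0 : ℂ) (1 - t)
        · exact Or.inr ⟨h, hz.2⟩
        · exact Or.inl (Or.inr ⟨⟨hz.1, h⟩, hz.2⟩)
    rw [← ENNReal.toReal_add (e5_fin hS2) (e5_fin hT2),
      ← ENNReal.toReal_add (ENNReal.add_ne_top.2 ⟨e5_fin hS2, e5_fin hT2⟩) (e5_fin hU2)]
    refine ENNReal.toReal_mono
      (ENNReal.add_ne_top.2 ⟨ENNReal.add_ne_top.2 ⟨e5_fin hS2, e5_fin hT2⟩, e5_fin hU2⟩) ?_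
    refine (measure_mono hsub').trans ((measure_union_le _ _).trans ?_)
    gcongr
    exact measure_union_le _ _
  have hpt : ∀ θ, e5rad S θ + e5rad T θ + e5rad U θ ≤
      1 / (2 * s) * η θ ^ 2 + 1 / s * (e5rad S θ * e5rad T θ) + 2 * e5rad U θ + 3 / 2 * s := by
    intro θ
    have a0 := e5rad_nonneg S θ
    have b0 := e5rad_nonneg T θ
    have c0 := e5rad_nonneg U θ
    have e := hηe θ
    generalize e5rad S θ = A at *
    generalize e5rad T θ = B at *
    generalize e5rad U θ = C at *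
    generalize η θ = x at *
    have k1 : |x| ≤ 1 / (2 * s) * x ^ 2 + s / 2 := by
      rw [← sq_abs, ← sub_nonneg]
      have : 1 / (2 * s) * |x| ^ 2 + s / 2 - |x| = (|x| - s) ^ 2 / (2 * s) := by
        field_simp
        ring
      rw [this]
      positivity
    have k2 : 2 * min A B ≤ 1 / s * (A * B) + s := by
      have m0 : 0 ≤ min A B := le_min a0 b0
      have m1 : min A B * min A B ≤ A * B :=
        mul_le_mul (min_le_left _ _) (min_le_right _ _) m0 a0
      have m2 : 2 * min A B ≤ 1 / s * (min A B * min A B) + s := by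
        rw [← sub_nonneg]
        have : 1 / s * (min A B * min A B) + s - 2 * min A B = (min A B - s) ^ 2 / s := by
          field_simp
          ring
        rw [this]
        positivity
      have m3 := mul_le_mul_of_nonneg_left m1 (by positivity : (0 : ℝ) ≤ 1 / s)
      linarith
    have k3 : A + B + C ≤ |x| + 2 * min A B + 2 * C := by
      rcases le_total A B with h | h
      · rw [min_eq_left h]
        linarith [neg_abs_le x]
      · rw [min_eq_right h]
        linarith [le_abs_self x]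
    linarith
  have i1 : IntegrableOn (fun θ => η θ ^ 2) (Ioo (-Real.pi) Real.pi) :=
    hint (8 ^ 2) (hηm.pow_const 2).aestronglyMeasurable fun θ => by
      rw [norm_pow]
      exact pow_le_pow_left₀ (norm_nonneg _) (hηb θ) 2
  have i2 : IntegrableOn (fun θ => e5rad S θ * e5rad T θ) (Ioo (-Real.pi) Real.pi) :=
    hint (4 * 4) ((e5rad_meas hSm).mul (e5rad_meas hTm)).aestronglyMeasurable fun θ => by
      rw [norm_mul]
      exact mul_le_mul (e5rad_ray hSm hS2 θ).2 (e5rad_ray hTm hT2 θ).2 (norm_nonneg _)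
        (by norm_num)
  have i3 : IntegrableOn (fun _ : ℝ => 3 / 2 * s) (Ioo (-Real.pi) Real.pi) :=
    integrableOn_const (by simp)
  have j1 := i1.const_mul (1 / (2 * s))
  have j2 := i2.const_mul (1 / s)
  have j3 := (hri hUm hU2).const_mul 2
  have hI := integral_mono (((hri hSm hS2).add (hri hTm hT2)).add (hri hUm hU2))
    (((j1.add j2).add j3).add i3) hpt
  rw [integral_add' ((hri hSm hS2).add (hri hTm hT2)) (hri hUm hU2),
    integral_add' (hri hSm hS2) (hri hTm hT2), integral_add' ((j1.add j2).add j3) i3,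
    integral_add' (j1.add j2) j3, integral_add' j1 j2, integral_const_mul, integral_const_mul,
    integral_const_mul, e5rad_int hSm hS2, e5rad_int hTm hT2, e5rad_int hUm hU2,
    setIntegral_const, Real.volume_real_Ioo_of_le (by linarith), smul_eq_mul] at hI
  have hX : 0 ≤ a ^ 2 * n ^ 3 + b ^ 2 / n := by positivity
  have hY : 0 ≤ c * t := by positivity
  have l1 := mul_le_mul_of_nonneg_left hpar (by positivity : (0 : ℝ) ≤ 1 / (2 * s))
  have l2 := mul_le_mul_of_nonneg_left hcross (by positivity : (0 : ℝ) ≤ 1 / s)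
  have l3 : (Real.pi - -Real.pi) * (3 / 2 * s) ≤ 100 * s := by
    nlinarith [Real.pi_lt_four]
  set X := a ^ 2 * n ^ 3 + b ^ 2 / n
  set Y := c * t
  have l4 : 1 / (2 * s) * (20 * X) + 1 / s * (27 * Y) ≤ 100 * ((X + Y) / s) := by
    rw [← sub_nonneg]
    have : 100 * ((X + Y) / s) - (1 / (2 * s) * (20 * X) + 1 / s * (27 * Y)) =
        (90 * X + 73 * Y) / s := by
      field_simp
      ring
    rw [this]
    positivity
  linarith

end Pool.Agent.P.MP_832dec_an
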