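import Pool.Agent.P.MP_832dec_an.Core2
import Pool.Agent.P.MP_832dec_an.Flow
import Pool.Agent.P.MP_832dec_an.Polar

set_option autoImplicit false

open MeasureTheory Set Metric Filter Topology ComplexConjugate Real

namespace Pool.Agent.P.MP_832dec_an

variable {Ω : Set ℂ} {μ : Measure ℂ} {ν : ℂ → ℂ} {ε : ℝ}

/-- a function that changes sign under a rotation has integral zero on the unit disc -/
theorem ball_int_zero {F : ℂ → ℂ} (a : Circle) (hF : ∀ z, F (a * z) = -F z) :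
    ∫ z in ball (0 : ℂ) 1, F z = 0 := by
  have h1 := (rotation a).measurePreserving.setIntegral_preimage_emb
    (rotation a).toHomeomorph.measurableEmbedding F (ball 0 1)
  have h2 : rotation a ⁻¹' ball 0 1 = ball 0 1 := by
    ext z
    simp only [mem_preimage, mem_ball_zero_iff, LinearIsometryEquiv.norm_map]
  rw [h2] at h1
  simp only [rotation_apply, hF, integral_neg] at h1
  linear_combination (-1 / 2 : ℂ) * h1

theorem abs_pow_sub_one_le {r L : ℝ} (hr : 0 ≤ r) (hL : 1 ≤ L) (hrL : r ≤ L) (k : ℕ) :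
    |r ^ k - 1| ≤ k * L ^ k * |r ^ 2 - 1| := by
  have h1 : |r - 1| ≤ |r ^ 2 - 1| := by
    rw [show r ^ 2 - 1 = (r - 1) * (r + 1) by ring, abs_mul, abs_of_nonneg (by linarith : 0 ≤ r + 1)]
    nlinarith [abs_nonneg (r - 1)]
  have h2 := abs_pow_sub_pow_le (a := r) (b := 1) (n := k)
  rw [one_pow, abs_of_nonneg hr, abs_one] at h2
  have h3 : max r 1 ^ (k - 1) ≤ L ^ k :=
    (pow_le_pow_left₀ (by positivity) (max_le hrL hL) _).trans (pow_le_pow_right₀ hL (by omega))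
  calc |r ^ k - 1| ≤ |r - 1| * k * max r 1 ^ (k - 1) := h2
    _ ≤ |r ^ 2 - 1| * k * L ^ k := by gcongr
    _ = _ := by ring

theorem norm_dir_pow_sub {L : ℝ} (hL : 1 ≤ L) {z : ℂ} (hz : ‖z‖ ≤ L) {k : ℕ} (hk : 1 ≤ k) :
    ‖(z / (‖z‖ : ℂ)) ^ k - z ^ k‖ ≤ k * L ^ k * |‖z‖ ^ 2 - 1| := by
  by_cases h0 : z = 0
  · subst h0
    simp only [norm_zero, Complex.ofReal_zero, div_zero, sub_self]
    positivity
  have h : (‖z‖ : ℂ) ≠ 0 := by simpa using h0
  have e : (z / (‖z‖ : ℂ)) ^ k - z ^ k = -((z / (‖z‖ : ℂ)) ^ k * ((‖z‖ ^ k - 1 : ℝ) : ℂ)) := by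
    push_cast
    rw [mul_sub, ← mul_pow, div_mul_cancel₀ _ h]
    ring
  rw [e, norm_neg, norm_mul, norm_pow, norm_dir h0, one_pow, one_mul, Complex.norm_real,
    Real.norm_eq_abs]
  exact abs_pow_sub_one_le (norm_nonneg z) hL hz k

theorem intOn_dir_pow {A : Set ℂ} (hA : volume A < ⊤) (k : ℕ) :
    IntegrableOn (fun z : ℂ => (z / (‖z‖ : ℂ)) ^ k) A := by
  refine Measure.integrableOn_of_bounded (M := 1) hA.ne (Measurable.aestronglyMeasurable
    (by fun_prop)) (Eventually.of_forall fun z => ?_)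
  rw [norm_pow]
  refine pow_le_one₀ (norm_nonneg _) ?_
  by_cases h0 : z = 0
  · simp [h0]
  · exact (norm_dir h0).le

/-- the angular moments are small -/
theorem Core.angular (h : Core Ω μ ν ε) (hΔ : ∫ z, ‖z - ν z‖ ^ 2 ∂μ ≤ ε) {L : ℝ} (hL : 1 ≤ L)
    (hL2 : L ≤ 2) (hs : Ω ⊆ ball 0 L) {k : ℕ} (hk : 1 ≤ k) :
    ‖∫ z in Ω, (z / (‖z‖ : ℂ)) ^ k‖ ≤ 7 * ε * L ^ k * k := by
  have h0 : 0 ≤ ε := le_trans (integral_nonneg fun z => by positivity) hΔ
  have hm := h.gg.isOpen.measurableSet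
  have hM := h.moment hΔ hL hs hk
  have hW := h.weighted hΔ (hs.trans (ball_subset_ball hL2))
  have c1 : Continuous fun z : ℂ => |‖z‖ ^ 2 - 1| := by fun_prop
  have c2 : Continuous fun z : ℂ => z ^ k := by fun_prop
  have i1 : IntegrableOn (fun z : ℂ => (z / (‖z‖ : ℂ)) ^ k - z ^ k) Ω :=
    (intOn_dir_pow h.gg.vol_lt_top k).sub (h.gg.integrableOn c2)
  have i2 : IntegrableOn (fun z : ℂ => (z / (‖z‖ : ℂ)) ^ k - z ^ k) (ball 0 1) :=
    (intOn_dir_pow measure_ball_lt_top k).sub (intOn_ball c2 1)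
  have hk0 : (k : ℝ) ≠ 0 := by positivity
  have hB : ∫ z in ball (0 : ℂ) 1, ((z / (‖z‖ : ℂ)) ^ k - z ^ k) = 0 := by
    refine ball_int_zero (Circle.exp (π / k)) fun z => ?_
    have e : ((Circle.exp (π / k) : Circle) : ℂ) ^ k = -1 := by
      rw [Circle.coe_exp, ← Complex.exp_nat_mul, ← Complex.exp_pi_mul_I]
      congr 1
      have : (k : ℂ) ≠ 0 := by exact_mod_cast hk0
      push_cast
      field_simp
    rw [norm_mul, Circle.norm_coe, one_mul, mul_div_assoc, mul_pow, mul_pow, e]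
    ring
  have h1 := int_sub_split hm measurableSet_ball i1 i2
  rw [hB, sub_zero, integral_sub (intOn_dir_pow h.gg.vol_lt_top k) (h.gg.integrableOn c2)] at h1
  have h2 : ‖∫ z in Ω \ ball 0 1, ((z / (‖z‖ : ℂ)) ^ k - z ^ k)‖ ≤
      k * L ^ k * ∫ z in Ω \ ball 0 1, |‖z‖ ^ 2 - 1| := by
    rw [← integral_const_mul]
    refine norm_integral_le_of_norm_le
      (((h.gg.integrableOn c1).mono_set sdiff_subset).const_mul _) ?_
    filter_upwards [ae_restrict_mem (hm.diff measurableSet_ball)] with z hz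
    exact norm_dir_pow_sub hL (mem_ball_zero_iff.mp (hs hz.1)).le hk
  have h3 : ‖∫ z in ball 0 1 \ Ω, ((z / (‖z‖ : ℂ)) ^ k - z ^ k)‖ ≤
      k * L ^ k * ∫ z in ball 0 1 \ Ω, |‖z‖ ^ 2 - 1| := by
    rw [← integral_const_mul]
    refine norm_integral_le_of_norm_le (((intOn_ball c1 1).mono_set sdiff_subset).const_mul _) ?_
    filter_upwards [ae_restrict_mem (measurableSet_ball.diff hm)] with z hz
    exact norm_dir_pow_sub hL ((mem_ball_zero_iff.mp hz.1).le.trans hL) hk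
  have h4 : ‖(∫ z in Ω, (z / (‖z‖ : ℂ)) ^ k) - ∫ z in Ω, z ^ k‖ ≤ k * L ^ k * ε := by
    rw [h1]
    refine (norm_sub_le _ _).trans ((add_le_add h2 h3).trans ?_)
    rw [← mul_add]
    gcongr
  have h5 := norm_sub_norm_le (∫ z in Ω, (z / (‖z‖ : ℂ)) ^ k) (∫ z in Ω, z ^ k)
  have hk' : (1 : ℝ) ≤ k := by exact_mod_cast hk
  have h6 : 0 ≤ ε * L ^ k := by positivity
  nlinarith

theorem Core.rot (h : Core Ω μ ν ε) (hΔ : ∫ z, ‖z - ν z‖ ^ 2 ∂μ ≤ ε) {b : ℝ} (hb : 0 < b)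
    (hb1 : b ≤ 1 / 2) (hε : ε ≤ b ^ 2) (θ : ℝ) :
    (volume ((fun z => Complex.exp (θ * Complex.I) * z) '' Ω \ Ω)).toReal ≤ |θ| * (4 * b) := by
  have := h.gg.fin
  refine (flow h.gg (ζ := θ * Complex.I) (by simp)).trans ?_
  have i1 : Integrable (fun z => max (conj (θ * Complex.I * z) * ν z).re 0) μ :=
    h.gg.integrable₂ (F := fun p => max (conj (θ * Complex.I * p.1) * p.2).re 0) (by fun_prop)
  have i2 : Integrable (fun z => ‖z - ν z‖ ^ 2 / (2 * b) + b / 2) μ :=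
    (h.intE.div_const _).add (integrable_const _)
  have h1 : ∫ z, max (conj (θ * Complex.I * z) * ν z).re 0 ∂μ ≤
      ∫ z, |θ| * (‖z - ν z‖ ^ 2 / (2 * b) + b / 2) ∂μ := by
    refine integral_mono i1 (i2.const_mul _) fun z => ?_
    have a1 : (conj (θ * Complex.I * z) * ν z).re = θ * (conj z * ν z).im := by
      simp; ring
    have a2 := abs_im_le (h.gg.unit z) z
    have a3 : ‖z - ν z‖ ≤ ‖z - ν z‖ ^ 2 / (2 * b) + b / 2 := by
      rw [div_add' _ _ _ (by positivity), le_div_iff₀ (by positivity)]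
      nlinarith [sq_nonneg (‖z - ν z‖ - b)]
    refine max_le ?_ (by positivity)
    rw [a1]
    refine (le_abs_self _).trans ?_
    rw [abs_mul]
    gcongr
    exact a2.trans a3
  refine h1.trans ?_
  rw [integral_const_mul, integral_add (h.intE.div_const _) (integrable_const _), integral_div,
    integral_const, smul_eq_mul]
  gcongr
  have h2 : (∫ z, ‖z - ν z‖ ^ 2 ∂μ) / (2 * b) ≤ b / 2 := by
    rw [div_le_iff₀ (by positivity)]
    nlinarith
  have h3 : μ.real univ ≤ 7 := by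
    have := h.per
    have := pi_lt_d2
    nlinarith
  nlinarith

theorem Core.dil (h : Core Ω μ ν ε) (hΔ : ∫ z, ‖z - ν z‖ ^ 2 ∂μ ≤ ε) {r : ℝ} (hr : 1 / 2 ≤ r)
    (hr1 : r ≤ 1) : (volume ((fun z => (r : ℂ) * z) '' Ω \ Ω)).toReal ≤ ε := by
  have hr0 : 0 < r := by linarith
  have hl : Real.log r ≤ 0 := Real.log_nonpos hr0.le hr1
  have hl' : -1 ≤ Real.log r := by
    have h1 := Real.one_sub_inv_le_log_of_pos hr0
    have h2 : r⁻¹ ≤ 2 := by
      rw [inv_le_comm₀ hr0 two_pos]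
      linarith
    linarith
  have h1 := flow h.gg (ζ := (Real.log r : ℝ)) (by simpa using hl)
  rw [← Complex.ofReal_exp, Real.exp_log hr0] at h1
  refine h1.trans (le_trans ?_ hΔ)
  have i1 : Integrable (fun z : ℂ => max (conj (((Real.log r : ℝ) : ℂ) * z) * ν z).re 0) μ :=
    h.gg.integrable₂ (F := fun p => max (conj (((Real.log r : ℝ) : ℂ) * p.1) * p.2).re 0)
      (by fun_prop)
  refine integral_mono i1 h.intE fun z => ?_
  have a1 : (conj (((Real.log r : ℝ) : ℂ) * z) * ν z).re = Real.log r * (conj z * ν z).re := by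
    rw [map_mul, Complex.conj_ofReal, mul_assoc, Complex.re_ofReal_mul]
  have a2 := normsq_sub_unit (h.gg.unit z) z
  refine max_le ?_ (by positivity)
  rw [a1]
  rcases le_total 0 (conj z * ν z).re with h2 | h2
  · exact (mul_nonpos_of_nonpos_of_nonneg hl h2).trans (by positivity)
  · nlinarith [sq_nonneg ‖z‖]

/-- the main estimate in the normalised setting -/
theorem Core.main {τ : ℝ} (hτ : 0 < τ) (hτ' : τ ≤ 1 / 2) (h : Core Ω μ ν (τ ^ 8 / 400)) :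
    (volume (symmDiff Ω (ball 0 1))).toReal ≤ 10 ^ 9 * τ ^ 5 := by
  have hτ1 : τ ≤ 1 := by linarith
  have h8 : τ ^ 8 ≤ 1 := pow_le_one₀ hτ.le hτ1
  have hΔ : ∫ z, ‖z - ν z‖ ^ 2 ∂μ ≤ τ ^ 8 := by
    have := h.delta (by positivity) (by linarith)
    linarith
  have h' : Core Ω μ ν (τ ^ 8) := h.mono (by
    have : 0 < τ ^ 8 := by positivity
    linarith)
  have ht : 0 < τ ^ 2 := by positivity
  have ht' : τ ^ 2 ≤ 1 / 4 := by nlinarith
  have hs : Ω ⊆ ball 0 (1 + 2 * τ ^ 2) := h'.sub_ball hΔ ht (by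
    have : τ ^ 8 = (τ ^ 2) ^ 3 * τ ^ 2 := by ring
    have h3 : 0 < (τ ^ 2) ^ 3 := by positivity
    nlinarith)
  have hs2 : Ω ⊆ ball 0 2 := hs.trans (ball_subset_ball (by linarith))
  set n := ⌈(τ ^ 2)⁻¹⌉₊ with hn
  have hn1 : (τ ^ 2)⁻¹ ≤ n := Nat.le_ceil _
  have hinv : 1 ≤ (τ ^ 2)⁻¹ := by
    rw [le_inv_comm₀ one_pos ht]
    linarith
  have hn2 : (n : ℝ) ≤ 2 * (τ ^ 2)⁻¹ := by
    have := Nat.ceil_lt_add_one (a := (τ ^ 2)⁻¹) (by positivity)
    linarith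
  have hn3 : 1 ≤ n := by exact_mod_cast hinv.trans hn1
  have hn4 : (n : ℝ) * τ ^ 2 ≤ 2 := by
    have := mul_le_mul_of_nonneg_right hn2 ht.le
    rwa [mul_assoc, inv_mul_cancel₀ ht.ne', mul_one] at this
  have hn5 : 1 ≤ (n : ℝ) * τ ^ 2 := by
    have := mul_le_mul_of_nonneg_right hn1 ht.le
    rwa [inv_mul_cancel₀ ht.ne'] at this
  have hL : ∀ k, k ≤ n → (1 + 2 * τ ^ 2) ^ k ≤ 81 := by
    intro k hk
    have a1 : 1 + 2 * τ ^ 2 ≤ Real.exp (2 * τ ^ 2) := by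
      linarith [Real.add_one_le_exp (2 * τ ^ 2)]
    have a2 : (k : ℝ) ≤ n := by exact_mod_cast hk
    calc (1 + 2 * τ ^ 2) ^ k ≤ Real.exp (2 * τ ^ 2) ^ k := by gcongr
      _ = Real.exp (k * (2 * τ ^ 2)) := (Real.exp_nat_mul _ _).symm
      _ ≤ Real.exp ((4 : ℕ) * 1) := by
        refine Real.exp_le_exp.mpr ?_
        push_cast
        nlinarith
      _ = Real.exp 1 ^ 4 := Real.exp_nat_mul _ _
      _ ≤ 3 ^ 4 := by
        gcongr
        exact Real.exp_one_lt_three.le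
      _ = 81 := by norm_num
  have hb1 : τ ^ 4 ≤ 1 / 2 := by nlinarith
  have key := polar_bound (a := 567 * τ ^ 8) (b := 4 * τ ^ 4) (c := τ ^ 8) (d := τ ^ 8 / τ ^ 2)
    (s := τ ^ 5) h.gg.isOpen.measurableSet h.vol hn3 ht ht' (by positivity) hs
    (fun k hk hkn => (h'.angular hΔ (by linarith) (by linarith) hs hk).trans (by
      have := hL k hkn
      have a : 7 * τ ^ 8 * (1 + 2 * τ ^ 2) ^ k ≤ 7 * τ ^ 8 * 81 := by gcongr
      exact mul_le_mul_of_nonneg_right (by linarith) (Nat.cast_nonneg k)))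
    (fun θ => h'.rot hΔ (by positivity) hb1 (le_of_eq (by ring)) θ)
    (fun r hr hr1 => h'.dil hΔ hr hr1) (h'.inner hΔ hs2 ht)
  refine key.trans ?_
  have hn0 : (0 : ℝ) < n := by exact_mod_cast hn3
  have b1 : (567 * τ ^ 8) ^ 2 * (n : ℝ) ^ 3 ≤ 567 ^ 2 * 8 * τ ^ 10 := by
    have : (567 * τ ^ 8) ^ 2 * (n : ℝ) ^ 3 = 567 ^ 2 * (n * τ ^ 2) ^ 3 * τ ^ 10 := by ring
    rw [this]
    gcongr
    calc ((n : ℝ) * τ ^ 2) ^ 3 ≤ 2 ^ 3 := by gcongr
      _ = 8 := by norm_num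
  have b2 : (4 * τ ^ 4) ^ 2 / n ≤ 16 * τ ^ 10 := by
    rw [div_le_iff₀ hn0]
    have : 16 * τ ^ 10 * n = 16 * τ ^ 8 * (n * τ ^ 2) := by ring
    rw [this]
    have : 0 < τ ^ 8 := by positivity
    nlinarith
  have b3 : ((567 * τ ^ 8) ^ 2 * (n : ℝ) ^ 3 + (4 * τ ^ 4) ^ 2 / n + τ ^ 8 * τ ^ 2) / τ ^ 5 ≤
      (567 ^ 2 * 8 + 17) * τ ^ 5 := by
    rw [div_le_iff₀ (by positivity)]
    nlinarith
  have b4 : τ ^ 8 / τ ^ 2 ≤ τ ^ 5 := by
    rw [div_le_iff₀ ht]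
    have : 0 < τ ^ 7 := by positivity
    nlinarith
  have : 0 < τ ^ 5 := by positivity
  nlinarith

end Pool.Agent.P.MP_832dec_an
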