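import Mathlib

set_option autoImplicit false

open MeasureTheory Set Metric Filter Topology

namespace Pool.Agent.P.MP_832dec_an

/-- Near each boundary point `p`, after a rotation about `p`, the set `Ω` is the region below the
graph of a Lipschitz function. The plane is `ℂ`. -/
def LipschitzBoundary (Ω : Set ℂ) : Prop :=
  ∀ p ∈ frontier Ω, ∃ r : ℝ, 0 < r ∧ ∃ e : ℂ, ‖e‖ = 1 ∧ ∃ (K : NNReal) (ψ : ℝ → ℝ),
    LipschitzWith K ψ ∧ ∀ z : ℂ, ‖z‖ < r → (p + e * z ∈ Ω ↔ z.im < ψ z.re)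

/-- Length measure on the boundary: one-dimensional Hausdorff measure restricted to `∂Ω`. -/
noncomputable def bdry (Ω : Set ℂ) : Measure ℂ :=
  (Measure.hausdorffMeasure 1).restrict (frontier Ω)

/-- `u` lies in `H¹(Ω)` with gradient `G` and boundary trace `g`: there are `C¹` functions on the
plane that converge to `u` in `L²(Ω)` and to `g` in `L²(∂Ω)`, and whose gradients converge to `G`
in `L²(Ω)`. -/
def HasTrace (Ω : Set ℂ) (u : ℂ → ℝ) (G : ℂ → ℂ) (g : ℂ → ℝ) : Prop :=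
  MemLp u 2 (volume.restrict Ω) ∧ MemLp G 2 (volume.restrict Ω) ∧ MemLp g 2 (bdry Ω) ∧
  ∃ U : ℕ → ℂ → ℝ, (∀ n, ContDiff ℝ 1 (U n)) ∧
    Tendsto (fun n => eLpNorm (U n - u) 2 (volume.restrict Ω)) atTop (𝓝 0) ∧
    Tendsto (fun n => eLpNorm (gradient (U n) - G) 2 (volume.restrict Ω)) atTop (𝓝 0) ∧
    Tendsto (fun n => eLpNorm (U n - g) 2 (bdry Ω)) atTop (𝓝 0)

/-- `u` is a weak solution of `-Δu = 1` in `Ω`, `∂u/∂ν + βu = 0` on `∂Ω`. -/
def IsRobinSolution (Ω : Set ℂ) (β : ℝ) (u : ℂ → ℝ) : Prop :=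
  ∃ (G : ℂ → ℂ) (g : ℂ → ℝ), HasTrace Ω u G g ∧
    ∀ φ : ℂ → ℝ, ContDiff ℝ 1 φ →
      (∫ z in Ω, inner ℝ (G z) (gradient φ z)) + β * ∫ z, g z * φ z ∂(bdry Ω) = ∫ z in Ω, φ z

/-- The radius of a disc with the same area as `Ω`. -/
noncomputable def radius (Ω : Set ℂ) : ℝ := √((volume Ω).toReal / Real.pi)

/-- The Fraenkel asymmetry of `Ω`. -/
noncomputable def asym (Ω : Set ℂ) : ℝ :=
  ⨅ x : ℂ, (volume (symmDiff Ω (ball x (radius Ω)))).toReal / (volume (ball x (radius Ω))).toReal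

/-- The solution of `-Δv = 1`, `∂v/∂ν + βv = 0` on the disc of radius `R` about the origin. -/
noncomputable def discSolution (β R : ℝ) (z : ℂ) : ℝ := (R ^ 2 - ‖z‖ ^ 2) / 4 + R / (2 * β)

/-- `w`, a function on the disc about the origin with the area of `Ω`, has superlevel sets of the
same area as those of `|u|` in `Ω`. The Schwarz rearrangement of `u` has this property. -/
def Equimeasurable (Ω : Set ℂ) (u w : ℂ → ℝ) : Prop :=
  ∀ t : ℝ, 0 ≤ t →
    volume {z ∈ ball (0 : ℂ) (radius Ω) | t < w z} = volume {z ∈ Ω | t < |u z|}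

end Pool.Agent.P.MP_832dec_an
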