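import Pool.Agent.P.MP_832dec_an.Defs

set_option autoImplicit false

open MeasureTheory Set Metric Filter Topology ComplexConjugate

namespace Pool.Agent.P.MP_832dec_an

/-- `∂f/∂x + i ∂f/∂y` -/
noncomputable def dbar (f : ℂ → ℂ) (z : ℂ) : ℂ :=
  fderiv ℝ f z 1 + Complex.I * fderiv ℝ f z Complex.I

/-- The Gauss-Green formula for `Ω`, with boundary measure `μ` and outer normal `ν`. -/
structure GG (Ω : Set ℂ) (μ : Measure ℂ) (ν : ℂ → ℂ) : Prop where
  isOpen : IsOpen Ω
  bdd : Bornology.IsBounded Ω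
  fin : IsFiniteMeasure μ
  meas : Measurable ν
  unit : ∀ z, ‖ν z‖ = 1
  supp : ∀ᵐ z ∂μ, z ∈ closure Ω
  gg : ∀ f : ℂ → ℂ, ContDiff ℝ 1 f → ∫ z in Ω, dbar f z = ∫ z, f z * ν z ∂μ

theorem dbar_of_hasFDerivAt {f : ℂ → ℂ} {z : ℂ} {L : ℂ →L[ℝ] ℂ} (h : HasFDerivAt f L z) :
    dbar f z = L 1 + Complex.I * L Complex.I := by
  rw [dbar, h.fderiv]

theorem dbar_const (c z : ℂ) : dbar (fun _ => c) z = 0 := by
  simp [dbar]

theorem dbar_holo {f : ℂ → ℂ} {z : ℂ} (h : DifferentiableAt ℂ f z) : dbar f z = 0 := by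
  rw [dbar_of_hasFDerivAt (h.hasDerivAt.hasFDerivAt.restrictScalars ℝ)]
  simp only [ContinuousLinearMap.coe_restrictScalars', ContinuousLinearMap.toSpanSingleton_apply,
    smul_eq_mul]
  linear_combination (deriv f z) * Complex.I_mul_I

theorem dbar_conj (z : ℂ) : dbar (fun w => conj w) z = 2 := by
  refine (dbar_of_hasFDerivAt (L := (Complex.conjCLE : ℂ →L[ℝ] ℂ))
    Complex.conjCLE.hasFDerivAt).trans ?_
  simp only [ContinuousLinearEquiv.coe_coe, Complex.conjCLE_apply, map_one, Complex.conj_I]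
  linear_combination (-1 : ℂ) * Complex.I_mul_I

theorem dbar_add {f g : ℂ → ℂ} {z : ℂ} (hf : DifferentiableAt ℝ f z)
    (hg : DifferentiableAt ℝ g z) : dbar (fun w => f w + g w) z = dbar f z + dbar g z := by
  refine (dbar_of_hasFDerivAt (hf.hasFDerivAt.add hg.hasFDerivAt)).trans ?_
  simp only [dbar, add_apply]
  ring

theorem dbar_sub {f g : ℂ → ℂ} {z : ℂ} (hf : DifferentiableAt ℝ f z)
    (hg : DifferentiableAt ℝ g z) : dbar (fun w => f w - g w) z = dbar f z - dbar g z := by
  refine (dbar_of_hasFDerivAt (hf.hasFDerivAt.sub hg.hasFDerivAt)).trans ?_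
  simp only [dbar, sub_apply]
  ring

theorem dbar_mul {f g : ℂ → ℂ} {z : ℂ} (hf : DifferentiableAt ℝ f z)
    (hg : DifferentiableAt ℝ g z) :
    dbar (fun w => f w * g w) z = dbar f z * g z + f z * dbar g z := by
  refine (dbar_of_hasFDerivAt (hf.hasFDerivAt.mul hg.hasFDerivAt)).trans ?_
  simp only [dbar, add_apply, smul_apply, smul_eq_mul]
  ring

/-- chain rule with a holomorphic outer function -/
theorem dbar_comp_holo {h f : ℂ → ℂ} {z h' : ℂ} (hh : HasDerivAt h h' (f z))
    (hf : DifferentiableAt ℝ f z) : dbar (fun w => h (f w)) z = h' * dbar f z := by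
  refine (dbar_of_hasFDerivAt ((hh.hasFDerivAt.restrictScalars ℝ).comp z hf.hasFDerivAt)).trans ?_
  simp only [dbar, ContinuousLinearMap.coe_comp, ContinuousLinearMap.coe_restrictScalars',
    Function.comp_apply, ContinuousLinearMap.toSpanSingleton_apply, smul_eq_mul]
  ring

/-- chain rule with an affine inner function -/
theorem dbar_comp_affine {f : ℂ → ℂ} (p e z : ℂ) (hf : DifferentiableAt ℝ f (p + e * z)) :
    dbar (fun w => f (p + e * w)) z = conj e * dbar f (p + e * z) := by
  have h1 : HasFDerivAt (fun w : ℂ => p + e * w) (ContinuousLinearMap.mul ℝ ℂ e) z :=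
    ((ContinuousLinearMap.mul ℝ ℂ e).hasFDerivAt).const_add p
  refine (dbar_of_hasFDerivAt (hf.hasFDerivAt.comp z h1)).trans ?_
  simp only [dbar, ContinuousLinearMap.coe_comp, Function.comp_apply,
    ContinuousLinearMap.mul_apply', mul_one]
  have h2 : ∀ w : ℂ, fderiv ℝ f (p + e * z) w =
      w.re * fderiv ℝ f (p + e * z) 1 + w.im * fderiv ℝ f (p + e * z) Complex.I := by
    intro w
    conv_lhs => rw [show w = w.re • (1 : ℂ) + w.im • Complex.I by
      simp [Complex.re_add_im]]
    rw [map_add, map_smul, map_smul]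
    simp
  rw [h2 e, h2 (e * Complex.I)]
  have h3 : conj e = e.re - e.im * Complex.I := by
    apply Complex.ext <;> simp
  rw [h3]
  simp only [Complex.mul_re, Complex.I_re, mul_zero, Complex.I_im, mul_one, zero_sub,
    Complex.ofReal_neg, Complex.mul_im, add_zero]
  linear_combination (e.im : ℂ) * (fderiv ℝ f (p + e * z) Complex.I) * Complex.I_mul_I

/-- for a real function, `dbar` is the gradient -/
theorem dbar_ofReal {u : ℂ → ℝ} {z : ℂ} (hu : DifferentiableAt ℝ u z) :
    dbar (fun w => (u w : ℂ)) z = gradient u z := by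
  refine (dbar_of_hasFDerivAt (Complex.ofRealCLM.hasFDerivAt.comp z hu.hasFDerivAt)).trans ?_
  have h : ∀ w, fderiv ℝ u z w = inner ℝ (gradient u z) w := by
    intro w
    rw [gradient, InnerProductSpace.toDual_symm_apply]
  simp only [ContinuousLinearMap.coe_comp, Function.comp_apply, Complex.ofRealCLM_apply, h,
    Complex.inner]
  apply Complex.ext <;> simp

theorem continuous_dbar {f : ℂ → ℂ} (hf : ContDiff ℝ 1 f) : Continuous (dbar f) := by
  have h := hf.continuous_fderiv one_ne_zero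
  unfold dbar
  fun_prop

theorem GG.vol_lt_top {Ω : Set ℂ} {μ : Measure ℂ} {ν : ℂ → ℂ} (h : GG Ω μ ν) : volume Ω < ⊤ :=
  h.bdd.measure_lt_top

/-- continuous functions are integrable on `Ω` -/
theorem GG.integrableOn {Ω : Set ℂ} {μ : Measure ℂ} {ν : ℂ → ℂ} (h : GG Ω μ ν)
    {E : Type*} [NormedAddCommGroup E] {f : ℂ → E} (hf : Continuous f) :
    IntegrableOn f Ω volume :=
  (hf.continuousOn.integrableOn_compact h.bdd.isCompact_closure).mono_set subset_closure

/-- continuous functions are integrable for `μ` -/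
theorem GG.integrable {Ω : Set ℂ} {μ : Measure ℂ} {ν : ℂ → ℂ} (h : GG Ω μ ν)
    {E : Type*} [NormedAddCommGroup E] {f : ℂ → E} (hf : Continuous f) : Integrable f μ := by
  have := h.fin
  have h1 : IntegrableOn f (closure Ω) μ :=
    hf.continuousOn.integrableOn_compact h.bdd.isCompact_closure
  rwa [IntegrableOn, Measure.restrict_eq_self_of_ae_mem h.supp] at h1

/-- continuous functions of `z` and `ν z` are integrable for `μ` -/
theorem GG.integrable₂ {Ω : Set ℂ} {μ : Measure ℂ} {ν : ℂ → ℂ} (h : GG Ω μ ν)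
    {E : Type*} [NormedAddCommGroup E] {F : ℂ × ℂ → E} (hF : Continuous F) :
    Integrable (fun z => F (z, ν z)) μ := by
  have := h.fin
  obtain ⟨C, hC⟩ := (h.bdd.isCompact_closure.prod (isCompact_sphere (0 : ℂ) 1)).exists_bound_of_continuousOn
    hF.continuousOn
  refine Integrable.of_bound (hF.comp_aestronglyMeasurable
    (measurable_id.prodMk h.meas).aestronglyMeasurable) C ?_
  filter_upwards [h.supp] with z hz
  exact hC _ ⟨hz, by simpa using h.unit z⟩

end Pool.Agent.P.MP_832dec_an
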