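import Pool.Agent.P.MP_832dec_an.GG

set_option autoImplicit false

open MeasureTheory Set Metric Filter Topology ComplexConjugate
open scoped Manifold ContDiff

namespace Pool.Agent.P.MP_832dec_an

/-- a finite smooth partition of unity on a compact set -/
theorem a4_partition {s : Set ℂ} (hs : IsCompact s) {P : Set ℂ → Prop}
    (h : ∀ p ∈ s, ∃ U, IsOpen U ∧ p ∈ U ∧ P U) :
    ∃ (n : ℕ) (U : Fin n → Set ℂ) (χ : Fin n → ℂ → ℝ), (∀ i, IsOpen (U i)) ∧ (∀ i, P (U i)) ∧
      s ⊆ ⋃ i, U i ∧ (∀ i, ContDiff ℝ 1 (χ i)) ∧ (∀ i, HasCompactSupport (χ i)) ∧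
      (∀ i, tsupport (χ i) ⊆ U i) ∧ (∀ i z, 0 ≤ χ i z) ∧ ∀ z ∈ s, ∑ i, χ i z = 1 := by
  classical
  choose! W hWo hWm hWP using h
  obtain ⟨t, hts, ht⟩ := hs.elim_nhds_subcover W fun p hp => (hWo p hp).mem_nhds (hWm p hp)
  obtain ⟨M, hM⟩ := hs.isBounded.subset_ball (0 : ℂ)
  set e := t.equivFin.symm
  let U : Fin t.card → Set ℂ := fun i => W (e i)
  have hUo : ∀ i, IsOpen (U i) := fun i => hWo _ (hts _ (e i).2)
  have hcov : s ⊆ ⋃ i, U i := by
    intro z hz
    obtain ⟨p, hp, hz⟩ := mem_iUnion₂.1 (ht hz)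
    refine mem_iUnion.2 ⟨e.symm ⟨p, hp⟩, ?_⟩
    simpa [U] using hz
  obtain ⟨ρ, hρ⟩ := SmoothPartitionOfUnity.exists_isSubordinate 𝓘(ℝ, ℂ) hs.isClosed
    (fun i => U i ∩ ball 0 M) (fun i => (hUo i).inter isOpen_ball) (by
      intro z hz
      obtain ⟨i, hi⟩ := mem_iUnion.1 (hcov hz)
      exact mem_iUnion.2 ⟨i, hi, hM hz⟩)
  refine ⟨t.card, U, fun i => ρ i, hUo, fun i => hWP _ (hts _ (e i).2), hcov, fun i => ?_,
    fun i => ?_, fun i => (hρ i).trans inter_subset_left, fun i z => ρ.nonneg i z, fun z hz => ?_⟩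
  · exact (ρ i).contMDiff.contDiff.of_le (by exact_mod_cast le_top)
  · exact (isCompact_closedBall (0 : ℂ) M).of_isClosed_subset (isClosed_tsupport _)
      ((hρ i).trans (inter_subset_right.trans ball_subset_closedBall))
  · rw [← finsum_eq_sum_of_fintype]
    exact ρ.sum_eq_one hz

theorem a4_dbar_sum {n : ℕ} {f : Fin n → ℂ → ℂ} (hf : ∀ i, ContDiff ℝ 1 (f i)) (z : ℂ) :
    dbar (fun w => ∑ i, f i w) z = ∑ i, dbar (f i) z := by
  have h : HasFDerivAt (fun w => ∑ i, f i w) (∑ i, fderiv ℝ (f i) z) z :=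
    HasFDerivAt.fun_sum fun i _ => ((hf i).differentiable one_ne_zero z).hasFDerivAt
  rw [dbar_of_hasFDerivAt h]
  simp only [dbar, sum_apply, Finset.sum_add_distrib, Finset.mul_sum]

theorem a4_integrable {μ : Measure ℂ} [IsFiniteMeasure μ] {g ν : ℂ → ℂ} (hg : Continuous g)
    (hc : HasCompactSupport g) (hν : Measurable ν) (h1 : ∀ z, ‖ν z‖ = 1) :
    Integrable (fun z => g z * ν z) μ := by
  obtain ⟨C, hC⟩ := hg.bounded_above_of_compact_support hc
  refine Integrable.of_bound (hg.measurable.mul hν).aestronglyMeasurable C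
    (Eventually.of_forall fun z => ?_)
  rw [norm_mul, h1, mul_one]
  exact hC z

/-- Gluing of the local Gauss-Green formulas. The last conjunct of `h` is the body of the
definition `LocalGG Ω U`, written out so that this file does not depend on `Local.lean`. -/
theorem exists_GG {Ω : Set ℂ} (hΩ : IsOpen Ω) (hb : Bornology.IsBounded Ω)
    (h : ∀ p ∈ closure Ω, ∃ U, IsOpen U ∧ p ∈ U ∧
      ∃ (ν : ℂ → ℂ) (d : ℂ), Measurable ν ∧ (∀ z, ‖ν z‖ = 1) ∧ (∀ z, 0 < (conj d * ν z).re) ∧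
        bdry Ω U < ⊤ ∧ ∀ f : ℂ → ℂ, ContDiff ℝ 1 f → HasCompactSupport f → tsupport f ⊆ U →
          ∫ z in Ω, dbar f z = ∫ z, f z * ν z ∂(bdry Ω)) :
    ∃ ν X : ℂ → ℂ, GG Ω (bdry Ω) ν ∧ ContDiff ℝ 1 X ∧
      ∀ᵐ z ∂(bdry Ω), 0 < (conj (X z) * ν z).re := by
  classical
  obtain ⟨n, U, χ, hUo, hP, hcov, hχ, hχc, hχU, hχ0, hχ1⟩ := a4_partition hb.isCompact_closure h
  choose ν d hνm hν1 hdν hfin hgg using hP
  have hsupp : ∀ᵐ z ∂(bdry Ω), z ∈ closure Ω := by
    unfold bdry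
    filter_upwards [ae_restrict_mem isClosed_frontier.measurableSet] with z hz
    exact frontier_subset_closure hz
  have hfm : IsFiniteMeasure (bdry Ω) := by
    constructor
    calc bdry Ω univ ≤ bdry Ω (⋃ i, U i) :=
          measure_mono_ae (by filter_upwards [hsupp] with z hz _ using hcov hz)
      _ ≤ ∑ i, bdry Ω (U i) := measure_iUnion_fintype_le _ _
      _ < ⊤ := ENNReal.sum_lt_top.2 fun i _ => hfin i
  have hχC : ∀ i, ContDiff ℝ 1 fun z => (χ i z : ℂ) := fun i =>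
    Complex.ofRealCLM.contDiff.comp (hχ i)
  -- the local normals agree almost everywhere on overlaps
  have hagree : ∀ i j, ∀ᵐ z ∂(bdry Ω), z ∈ U i ∩ U j → ν i z - ν j z = 0 := by
    intro i j
    refine ((hUo i).inter (hUo j)).ae_eq_zero_of_integral_contDiff_smul_eq_zero
      (f := fun z => ν i z - ν j z) ?_ ?_
    · refine (Integrable.locallyIntegrable ?_).locallyIntegrableOn _
      refine Integrable.of_bound ((hνm i).sub (hνm j)).aestronglyMeasurable 2
        (Eventually.of_forall fun z => ?_)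
      refine (norm_sub_le _ _).trans ?_
      rw [hν1, hν1]; norm_num
    · intro g hg hgc hgU
      have hg1 : ContDiff ℝ 1 fun z => (g z : ℂ) :=
        Complex.ofRealCLM.contDiff.comp (hg.of_le (by exact_mod_cast le_top))
      have hc1 : HasCompactSupport fun z => (g z : ℂ) :=
        hgc.comp_left (g := fun x : ℝ => (x : ℂ)) (by simp)
      have hs1 : tsupport (fun z => (g z : ℂ)) ⊆ tsupport g :=
        tsupport_comp_subset (g := fun x : ℝ => (x : ℂ)) (by simp) g
      have e1 := hgg i _ hg1 hc1 (hs1.trans (hgU.trans inter_subset_left))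
      have e2 := hgg j _ hg1 hc1 (hs1.trans (hgU.trans inter_subset_right))
      simp only [Complex.real_smul, mul_sub]
      rw [integral_sub (a4_integrable hg1.continuous hc1 (hνm i) (hν1 i))
        (a4_integrable hg1.continuous hc1 (hνm j) (hν1 j)), ← e1, ← e2, sub_self]
  let ν0 : ℂ → ℂ := fun z => ∑ i, (χ i z : ℂ) * ν i z
  have hν0m : Measurable ν0 :=
    Finset.measurable_sum _ fun i _ => (hχC i).continuous.measurable.mul (hνm i)
  have hkey : ∀ᵐ z ∂(bdry Ω), z ∈ closure Ω ∧ ∀ i, χ i z ≠ 0 → ν0 z = ν i z := by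
    have h2 : ∀ᵐ z ∂(bdry Ω), ∀ i j, z ∈ U i ∩ U j → ν i z - ν j z = 0 :=
      ae_all_iff.2 fun i => ae_all_iff.2 fun j => hagree i j
    filter_upwards [hsupp, h2] with z hz h2
    refine ⟨hz, fun i hi => ?_⟩
    have hmem : ∀ j, χ j z ≠ 0 → z ∈ U j := fun j hj => hχU j (subset_tsupport _ hj)
    have h3 : ∀ j, (χ j z : ℂ) * ν j z = (χ j z : ℂ) * ν i z := by
      intro j
      by_cases hj : χ j z = 0
      · simp [hj]
      · rw [sub_eq_zero.1 (h2 j i ⟨hmem j hj, hmem i hi⟩)]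
    simp only [ν0, h3]
    rw [← Finset.sum_mul, ← Complex.ofReal_sum, hχ1 z hz]
    simp
  have hex : ∀ z ∈ closure Ω, ∃ i, χ i z ≠ 0 := by
    intro z hz
    by_contra hne
    push Not at hne
    have := hχ1 z hz
    simp [hne] at this
  let ν1 : ℂ → ℂ := fun z => if ‖ν0 z‖ = 1 then ν0 z else 1
  have hν1e : ∀ᵐ z ∂(bdry Ω), ν1 z = ν0 z := by
    filter_upwards [hkey] with z hz
    obtain ⟨i, hi⟩ := hex z hz.1
    have : ‖ν0 z‖ = 1 := by rw [hz.2 i hi, hν1]
    simp [ν1, this]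
  refine ⟨ν1, fun z => ∑ i, (χ i z : ℂ) * d i, ⟨hΩ, hb, hfm, ?_, ?_, hsupp, ?_⟩, ?_, ?_⟩
  · exact Measurable.ite (measurableSet_eq_fun hν0m.norm measurable_const) hν0m measurable_const
  · intro z
    by_cases hz : ‖ν0 z‖ = 1 <;> simp [ν1, hz]
  · intro f hf
    have hF : ∀ i, ContDiff ℝ 1 fun z => (χ i z : ℂ) * f z := fun i => (hχC i).mul hf
    have hc0 : ∀ i, HasCompactSupport fun z => (χ i z : ℂ) := fun i =>
      (hχc i).comp_left (g := fun x : ℝ => (x : ℂ)) (by simp)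
    have hFc : ∀ i, HasCompactSupport fun z => (χ i z : ℂ) * f z := fun i => (hc0 i).mul_right
    have hFs : ∀ i, tsupport (fun z => (χ i z : ℂ) * f z) ⊆ U i := fun i =>
      (tsupport_mul_subset_left (f := fun z => (χ i z : ℂ)) (g := f)).trans
        ((tsupport_comp_subset (g := fun x : ℝ => (x : ℂ)) (by simp) (χ i)).trans (hχU i))
    have e1 : ∫ z in Ω, dbar f z = ∫ z in Ω, ∑ i, dbar (fun w => (χ i w : ℂ) * f w) z := by
      refine setIntegral_congr_fun hΩ.measurableSet fun z hz => ?_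
      rw [← a4_dbar_sum hF]
      have : f =ᶠ[𝓝 z] fun w => ∑ i, (χ i w : ℂ) * f w := by
        filter_upwards [hΩ.mem_nhds hz] with w hw
        rw [← Finset.sum_mul, ← Complex.ofReal_sum, hχ1 w (subset_closure hw)]
        simp
      simp only [dbar, this.fderiv_eq]
    rw [e1, integral_finsetSum _ fun i _ =>
      ((continuous_dbar (hF i)).continuousOn.integrableOn_compact hb.isCompact_closure).mono_set
        subset_closure]
    simp only [fun i => hgg i _ (hF i) (hFc i) (hFs i)]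
    rw [← integral_finsetSum _ fun i _ => a4_integrable (hF i).continuous (hFc i) (hνm i) (hν1 i)]
    refine integral_congr_ae ?_
    filter_upwards [hν1e] with z hz
    rw [hz]
    simp only [ν0, Finset.mul_sum]
    exact Finset.sum_congr rfl fun i _ => by ring
  · exact ContDiff.sum fun i _ => (hχC i).mul contDiff_const
  · filter_upwards [hkey, hν1e] with z hz hz1
    rw [hz1, map_sum, Finset.sum_mul, Complex.re_sum]
    have h3 : ∀ i, (conj ((χ i z : ℂ) * d i) * ν0 z).re = χ i z * (conj (d i) * ν i z).re := by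
      intro i
      by_cases hi : χ i z = 0
      · simp [hi]
      · rw [hz.2 i hi, map_mul, Complex.conj_ofReal, mul_assoc, Complex.re_ofReal_mul]
    simp only [h3]
    obtain ⟨i, hi⟩ := hex z hz.1
    exact Finset.sum_pos' (fun j _ => mul_nonneg (hχ0 j z) (hdν j z).le)
      ⟨i, Finset.mem_univ _, mul_pos (lt_of_le_of_ne (hχ0 i z) (Ne.symm hi)) (hdν i z)⟩

end Pool.Agent.P.MP_832dec_an
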