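import Pool.Agent.P.MP_832dec_an.GG

set_option autoImplicit false

open MeasureTheory Set Metric Filter Topology ComplexConjugate

namespace Pool.Agent.P.MP_832dec_an

/-- the parametrisation of the graph of `ψ` -/
noncomputable def graphMap (ψ : ℝ → ℝ) (x : ℝ) : ℂ := x + ψ x * Complex.I

/-- the length density along the graph -/
noncomputable def a1_rho (ψ : ℝ → ℝ) (x : ℝ) : ℝ := √(1 + deriv ψ x ^ 2)

theorem a1_rho_meas (ψ : ℝ → ℝ) : Measurable (a1_rho ψ) := by
  unfold a1_rho
  exact (measurable_const.add ((measurable_deriv ψ).pow_const 2)).sqrt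

theorem a1_norm (t : ℝ) : ‖(1 : ℂ) + t * Complex.I‖ = √(1 + t ^ 2) := by
  have : (1 : ℂ) + t * Complex.I = ((1 : ℝ) : ℂ) + t * Complex.I := by simp
  rw [this, Complex.norm_add_mul_I]
  simp

theorem a1_one_le (ψ : ℝ → ℝ) (x : ℝ) : 1 ≤ a1_rho ψ x := by
  unfold a1_rho
  exact Real.one_le_sqrt.2 (by nlinarith [sq_nonneg (deriv ψ x)])

theorem a1_rho_le {K : NNReal} {ψ : ℝ → ℝ} (hψ : LipschitzWith K ψ) (x : ℝ) :
    a1_rho ψ x ≤ 1 + K := by
  have h : ‖deriv ψ x‖ ≤ K := norm_deriv_le_of_lipschitz hψ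
  rw [Real.norm_eq_abs] at h
  unfold a1_rho
  apply Real.sqrt_le_iff.2
  have hK : (0 : ℝ) ≤ K := K.2
  refine ⟨by positivity, ?_⟩
  have := sq_le_sq' (abs_le.1 h).1 (abs_le.1 h).2
  nlinarith

theorem a1_ii_deriv {K : NNReal} {ψ : ℝ → ℝ} (hψ : LipschitzWith K ψ) (a b : ℝ) :
    IntervalIntegrable (deriv ψ) volume a b := by
  refine (intervalIntegrable_const (c := (K : ℝ))).mono_fun'
    (measurable_deriv ψ).aestronglyMeasurable ?_
  exact Eventually.of_forall fun x => norm_deriv_le_of_lipschitz hψ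

theorem a1_ii_rho {K : NNReal} {ψ : ℝ → ℝ} (hψ : LipschitzWith K ψ) (a b : ℝ) :
    IntervalIntegrable (a1_rho ψ) volume a b := by
  refine (intervalIntegrable_const (c := (1 + K : ℝ))).mono_fun'
    (a1_rho_meas ψ).aestronglyMeasurable ?_
  refine Eventually.of_forall fun x => ?_
  show ‖a1_rho ψ x‖ ≤ 1 + K
  rw [Real.norm_eq_abs, abs_of_nonneg (by linarith [a1_one_le ψ x])]
  exact a1_rho_le hψ x

theorem a1_chord {K : NNReal} {ψ : ℝ → ℝ} (hψ : LipschitzWith K ψ) {x y : ℝ} (hxy : x ≤ y) :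
    ‖graphMap ψ y - graphMap ψ x‖ ≤ ∫ t in x..y, a1_rho ψ t := by
  have h1 : ∫ t in x..y, deriv ψ t = ψ y - ψ x :=
    (hψ.lipschitzOnWith.absolutelyContinuousOnInterval).integral_deriv_eq_sub
  have hi : IntervalIntegrable (fun t => ((deriv ψ t : ℝ) : ℂ) * Complex.I) volume x y :=
    IntervalIntegrable.mul_const (f := fun t => ((deriv ψ t : ℝ) : ℂ))
      ⟨(a1_ii_deriv hψ x y).1.ofReal, (a1_ii_deriv hψ x y).2.ofReal⟩ _
  have h2 : graphMap ψ y - graphMap ψ x =
      ∫ t in x..y, ((1 : ℂ) + ((deriv ψ t : ℝ) : ℂ) * Complex.I) := by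
    rw [intervalIntegral.integral_add intervalIntegrable_const hi,
      intervalIntegral.integral_mul_const, intervalIntegral.integral_ofReal, h1]
    simp only [graphMap, intervalIntegral.integral_const, Complex.real_smul, mul_one]
    push_cast
    ring
  rw [h2]
  refine (intervalIntegral.norm_integral_le_integral_norm hxy).trans (le_of_eq ?_)
  congr 1
  ext t
  exact a1_norm _

theorem a1_cont {K : NNReal} {ψ : ℝ → ℝ} (hψ : LipschitzWith K ψ) : Continuous (graphMap ψ) := by
  have := hψ.continuous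
  unfold graphMap
  fun_prop

theorem a1_inj (ψ : ℝ → ℝ) : Function.Injective (graphMap ψ) := by
  intro x y h
  have := congrArg Complex.re h
  simpa [graphMap] using this

theorem a1_emb {K : NNReal} {ψ : ℝ → ℝ} (hψ : LipschitzWith K ψ) :
    MeasurableEmbedding (graphMap ψ) :=
  (a1_cont hψ).measurableEmbedding (a1_inj ψ)

theorem a1_upper {K : NNReal} {ψ : ℝ → ℝ} (hψ : LipschitzWith K ψ) (a b : ℝ) :
    (Measure.hausdorffMeasure 1 : Measure ℂ) (graphMap ψ '' Icc a b) ≤
      ENNReal.ofReal (∫ t in a..b, a1_rho ψ t) := by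
  set s : ℝ → ℝ := fun x => ∫ t in (0 : ℝ)..x, a1_rho ψ t with hs
  have hsub : ∀ x y, s y - s x = ∫ t in x..y, a1_rho ψ t := fun x y =>
    intervalIntegral.integral_interval_sub_left (a1_ii_rho hψ 0 y) (a1_ii_rho hψ 0 x)
  have hge : ∀ x y, x ≤ y → y - x ≤ s y - s x := by
    intro x y hxy
    rw [hsub]
    have := intervalIntegral.integral_mono_on hxy (intervalIntegrable_const (c := (1 : ℝ)))
      (a1_ii_rho hψ x y) (fun t _ => a1_one_le ψ t)
    simpa using this
  have hmono : StrictMono s := fun x y hxy => by linarith [hge x y hxy.le]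
  have hle : ∀ x y, ‖graphMap ψ x - graphMap ψ y‖ ≤ |s x - s y| := by
    intro x y
    rcases le_total x y with h | h
    · rw [norm_sub_rev, abs_sub_comm]
      exact (a1_chord hψ h).trans (by rw [← hsub]; exact le_abs_self _)
    · exact (a1_chord hψ h).trans (by rw [← hsub]; exact le_abs_self _)
  set g : ℝ → ℂ := graphMap ψ ∘ Function.invFun s with hg
  have hgs : ∀ x, g (s x) = graphMap ψ x := fun x => by
    simp only [hg, Function.comp, Function.leftInverse_invFun hmono.injective x]
  have hL : LipschitzOnWith 1 g (s '' Icc a b) := by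
    refine LipschitzOnWith.of_dist_le_mul ?_
    rintro _ ⟨x, -, rfl⟩ _ ⟨y, -, rfl⟩
    rw [hgs, hgs, dist_eq_norm, Real.dist_eq]
    simpa using hle x y
  have him : graphMap ψ '' Icc a b = g '' (s '' Icc a b) := by
    rw [image_image]
    exact image_congr fun x _ => (hgs x).symm
  rw [him]
  refine (hL.hausdorffMeasure_image_le zero_le_one).trans ?_
  rw [hausdorffMeasure_real]
  simp only [ENNReal.coe_one, ENNReal.one_rpow, one_mul]
  have : s '' Icc a b ⊆ Icc (s a) (s b) := by
    rintro _ ⟨x, hx, rfl⟩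
    exact ⟨hmono.monotone hx.1, hmono.monotone hx.2⟩
  refine (measure_mono this).trans ?_
  rw [Real.volume_Icc, hsub]

theorem a1_lower {K : NNReal} {ψ : ℝ → ℝ} (hψ : LipschitzWith K ψ) {a b : ℝ} (hab : a ≤ b) :
    ENNReal.ofReal ‖graphMap ψ b - graphMap ψ a‖ ≤
      (Measure.hausdorffMeasure 1 : Measure ℂ) (graphMap ψ '' Icc a b) := by
  have hL : LipschitzWith 1 (fun z : ℂ => dist z (graphMap ψ a)) := LipschitzWith.dist_left _
  have h := hL.hausdorffMeasure_image_le zero_le_one (graphMap ψ '' Icc a b)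
  rw [hausdorffMeasure_real] at h
  simp only [ENNReal.coe_one, ENNReal.one_rpow, one_mul] at h
  refine le_trans ?_ h
  have hc : ContinuousOn (fun x => dist (graphMap ψ x) (graphMap ψ a)) (Icc a b) :=
    ((a1_cont hψ).dist continuous_const).continuousOn
  have hI := intermediate_value_Icc hab hc
  rw [image_image]
  refine le_trans ?_ (measure_mono hI)
  rw [Real.volume_Icc, dist_self, sub_zero, dist_eq_norm]

theorem a1_lip {K : NNReal} {ψ : ℝ → ℝ} (hψ : LipschitzWith K ψ) :
    LipschitzWith (1 + K) (graphMap ψ) := by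
  refine LipschitzWith.of_dist_le_mul fun x y => ?_
  have h := hψ.dist_le_mul x y
  rw [dist_eq_norm]
  have : graphMap ψ x - graphMap ψ y = ((x - y : ℝ) : ℂ) + ((ψ x - ψ y : ℝ) : ℂ) * Complex.I := by
    simp only [graphMap]; push_cast; ring
  rw [this]
  refine (norm_add_le _ _).trans ?_
  rw [norm_mul, Complex.norm_I, mul_one, Complex.norm_real, Complex.norm_real]
  rw [dist_eq_norm] at h
  rw [dist_eq_norm] at h ⊢
  push_cast
  linarith

theorem a1_slope {ψ : ℝ → ℝ} {x : ℝ} (hx : DifferentiableAt ℝ ψ x) :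
    Tendsto (fun r : ℝ => ‖graphMap ψ (x + r) - graphMap ψ (x - r)‖ / (2 * r)) (𝓝[>] 0)
      (𝓝 (a1_rho ψ x)) := by
  have h0 : HasDerivAt (graphMap ψ) (1 + ((deriv ψ x : ℝ) : ℂ) * Complex.I) x := by
    have h1 : HasDerivAt (fun y : ℝ => (y : ℂ)) 1 x := by
      simpa using (hasDerivAt_id x).ofReal_comp
    exact h1.add (hx.hasDerivAt.ofReal_comp.mul_const _)
  set v : ℂ := 1 + ((deriv ψ x : ℝ) : ℂ) * Complex.I with hv
  have hp : HasDerivAt (fun r : ℝ => graphMap ψ (x + r)) v 0 := by
    have h0' : HasDerivAt (graphMap ψ) v (x + 0) := by simpa using h0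
    exact h0'.comp_const_add x 0
  have hm : HasDerivAt (fun r : ℝ => graphMap ψ (x - r)) (-v) 0 := by
    have h0' : HasDerivAt (graphMap ψ) v (x - 0) := by simpa using h0
    exact h0'.comp_const_sub x 0
  have hd := (hp.sub hm).tendsto_slope_zero_right
  have hn := (hd.norm).div_const 2
  have hval : ‖v - -v‖ / 2 = a1_rho ψ x := by
    have : v - -v = (2 : ℂ) * v := by ring
    rw [this, norm_mul, hv, a1_norm]
    simp [a1_rho]
  rw [hval] at hn
  refine hn.congr' ?_
  filter_upwards [self_mem_nhdsWithin] with r hr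
  have hr' : (0 : ℝ) < r := hr
  simp only [zero_add, Pi.sub_apply, add_zero, sub_zero, sub_self, norm_smul, norm_inv,
    Real.norm_eq_abs, abs_of_pos hr']
  field_simp

theorem graph_measure {K : NNReal} {ψ : ℝ → ℝ} (hψ : LipschitzWith K ψ) :
    (Measure.hausdorffMeasure 1 : Measure ℂ).restrict (range (graphMap ψ)) =
      Measure.map (graphMap ψ)
        (volume.withDensity fun x => ENNReal.ofReal √(1 + deriv ψ x ^ 2)) := by
  have he := a1_emb hψ
  set lam : Measure ℝ := Measure.comap (graphMap ψ) (Measure.hausdorffMeasure 1 : Measure ℂ)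
    with hlam
  have hap : ∀ A, lam A = (Measure.hausdorffMeasure 1 : Measure ℂ) (graphMap ψ '' A) :=
    fun A => he.comap_apply _ A
  have hbd : ∀ A, lam A ≤ ((1 + K : NNReal) : ENNReal) * volume A := by
    intro A
    rw [hap]
    have := (a1_lip hψ).hausdorffMeasure_image_le zero_le_one A
    rwa [hausdorffMeasure_real, ENNReal.rpow_one] at this
  have hac : lam ≪ volume := fun A hA => by
    have := hbd A
    rw [hA, mul_zero] at this
    exact le_antisymm this zero_le
  have : IsLocallyFiniteMeasure lam := by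
    refine ⟨fun x => ⟨ball x 1, ball_mem_nhds x one_pos, (hbd _).trans_lt ?_⟩⟩
    exact ENNReal.mul_lt_top ENNReal.coe_lt_top measure_ball_lt_top
  have hge : ∀ᵐ x ∂(volume : Measure ℝ), ENNReal.ofReal (a1_rho ψ x) ≤ lam.rnDeriv volume x := by
    filter_upwards [Besicovitch.ae_tendsto_rnDeriv lam volume, hψ.ae_differentiableAt]
      with x h1 h2
    refine le_of_tendsto_of_tendsto (ENNReal.tendsto_ofReal (a1_slope h2)) h1 ?_
    filter_upwards [self_mem_nhdsWithin] with r hr
    have hr' : (0 : ℝ) < r := hr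
    rw [Real.volume_closedBall, ENNReal.ofReal_div_of_pos (by positivity), Real.closedBall_eq_Icc,
      hap]
    gcongr
    exact a1_lower hψ (by linarith)
  have hle : (volume.withDensity fun x => ENNReal.ofReal (a1_rho ψ x)) ≤ lam := by
    calc (volume.withDensity fun x => ENNReal.ofReal (a1_rho ψ x))
        ≤ volume.withDensity (lam.rnDeriv volume) := withDensity_mono hge
      _ = lam := Measure.withDensity_rnDeriv_eq _ _ hac
  have heq : lam = volume.withDensity fun x => ENNReal.ofReal (a1_rho ψ x) := by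
    refine Measure.ext_of_Icc _ _ fun a b hab => le_antisymm ?_ (hle _)
    rw [hap, withDensity_apply _ measurableSet_Icc]
    refine (a1_upper hψ a b).trans (le_of_eq ?_)
    rw [intervalIntegral.integral_of_le hab, ← integral_Icc_eq_integral_Ioc,
      ofReal_integral_eq_lintegral_ofReal]
    · exact (intervalIntegrable_iff_integrableOn_Icc_of_le hab).1 (a1_ii_rho hψ a b)
    · exact Eventually.of_forall fun x => by
        show (0 : ℝ) ≤ a1_rho ψ x
        linarith [a1_one_le ψ x]
  rw [← he.map_comap, ← hlam, heq]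
  rfl

end Pool.Agent.P.MP_832dec_an
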