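import Pool.Agent.P.MP_832dec_an.GG

set_option autoImplicit false

open MeasureTheory Set Metric Filter Topology ComplexConjugate

namespace Pool.Agent.P.MP_832dec_an

/-- the denominator `|z|² + ε²` -/
noncomputable def cD (ε : ℝ) (z : ℂ) : ℂ := z * conj z + (ε : ℂ) ^ 2

/-- the kernel -/
noncomputable def cK (ε : ℝ) (z : ℂ) : ℂ := conj z * conj z * (cD ε z)⁻¹

/-- its first derivative -/
noncomputable def cK1 (ε : ℝ) (z : ℂ) : ℂ :=
  2 * (conj z * (cD ε z)⁻¹) + 2 * (ε : ℂ) ^ 2 * (conj z * ((cD ε z)⁻¹ * (cD ε z)⁻¹))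

/-- a quarter of its second derivative -/
noncomputable def ck (ε : ℝ) (z : ℂ) : ℝ := 2 * ε ^ 4 / (‖z‖ ^ 2 + ε ^ 2) ^ 3

theorem cD_eq (ε : ℝ) (z : ℂ) : cD ε z = ((‖z‖ ^ 2 + ε ^ 2 : ℝ) : ℂ) := by
  rw [cD, Complex.mul_conj, Complex.normSq_eq_norm_sq]
  push_cast
  ring

theorem cD_ne {ε : ℝ} (hε : 0 < ε) (z : ℂ) : cD ε z ≠ 0 := by
  rw [cD_eq]
  have : (0 : ℝ) < ‖z‖ ^ 2 + ε ^ 2 := by positivity
  exact_mod_cast this.ne'

theorem c_contDiff_conj : ContDiff ℝ 1 (fun z : ℂ => conj z) := Complex.conjCLE.contDiff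

theorem cD_contDiff (ε : ℝ) : ContDiff ℝ 1 (cD ε) :=
  (contDiff_id.mul c_contDiff_conj).add contDiff_const

theorem cDinv_contDiff {ε : ℝ} (hε : 0 < ε) : ContDiff ℝ 1 (fun z => (cD ε z)⁻¹) :=
  (cD_contDiff ε).inv (cD_ne hε)

theorem cK_contDiff {ε : ℝ} (hε : 0 < ε) : ContDiff ℝ 1 (cK ε) :=
  (c_contDiff_conj.mul c_contDiff_conj).mul (cDinv_contDiff hε)

theorem cK1_contDiff {ε : ℝ} (hε : 0 < ε) : ContDiff ℝ 1 (cK1 ε) :=
  (contDiff_const.mul (c_contDiff_conj.mul (cDinv_contDiff hε))).add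
    (contDiff_const.mul (c_contDiff_conj.mul ((cDinv_contDiff hε).mul (cDinv_contDiff hε))))

theorem ck_continuous {ε : ℝ} (hε : 0 < ε) : Continuous (ck ε) := by
  unfold ck
  refine continuous_const.div (by fun_prop) fun z => ?_
  positivity

theorem c_diff {f : ℂ → ℂ} (hf : ContDiff ℝ 1 f) (z : ℂ) : DifferentiableAt ℝ f z :=
  hf.differentiable one_ne_zero z

theorem dbar_cD (ε : ℝ) (z : ℂ) : dbar (cD ε) z = 2 * z := by
  have h1 : dbar (fun w : ℂ => w * conj w) z = 2 * z := by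
    rw [dbar_mul differentiableAt_fun_id (c_diff c_contDiff_conj z), dbar_conj,
      dbar_holo differentiableAt_fun_id]
    ring
  have h2 := dbar_add (f := fun w : ℂ => w * conj w) (g := fun _ => (ε : ℂ) ^ 2) (z := z)
    (c_diff (contDiff_id.mul c_contDiff_conj) z) (differentiableAt_const _)
  rw [h1, dbar_const, add_zero] at h2
  exact h2

theorem dbar_cDinv {ε : ℝ} (hε : 0 < ε) (z : ℂ) :
    dbar (fun w => (cD ε w)⁻¹) z = -(2 * z) * ((cD ε z)⁻¹ * (cD ε z)⁻¹) := by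
  rw [dbar_comp_holo (h := fun y : ℂ => y⁻¹) (hasDerivAt_inv (cD_ne hε z))
    (c_diff (cD_contDiff ε) z), dbar_cD]
  ring

theorem dbar_cK {ε : ℝ} (hε : 0 < ε) (z : ℂ) : dbar (cK ε) z = cK1 ε z := by
  have h1 := dbar_mul (f := fun w : ℂ => conj w * conj w) (g := fun w => (cD ε w)⁻¹) (z := z)
    (c_diff (c_contDiff_conj.mul c_contDiff_conj) z) (c_diff (cDinv_contDiff hε) z)
  rw [dbar_mul (c_diff c_contDiff_conj z) (c_diff c_contDiff_conj z), dbar_conj,
    dbar_cDinv hε] at h1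
  refine h1.trans ?_
  have h2 : (cD ε z)⁻¹ * cD ε z = 1 := inv_mul_cancel₀ (cD_ne hε z)
  rw [cK1]
  set u := (cD ε z)⁻¹
  rw [cD] at h2
  linear_combination (-2 * conj z * u) * h2

theorem dbar_cK1 {ε : ℝ} (hε : 0 < ε) (z : ℂ) : dbar (cK1 ε) z = 4 * (ck ε z : ℂ) := by
  have hc := c_diff c_contDiff_conj z
  have hu := c_diff (cDinv_contDiff hε) z
  have h1 := dbar_add (f := fun w : ℂ => 2 * (conj w * (cD ε w)⁻¹))
    (g := fun w => 2 * (ε : ℂ) ^ 2 * (conj w * ((cD ε w)⁻¹ * (cD ε w)⁻¹))) (z := z)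
    ((differentiableAt_const _).mul (hc.mul hu))
    ((differentiableAt_const _).mul (hc.mul (hu.mul hu)))
  rw [dbar_mul (differentiableAt_const _) (hc.fun_mul hu), dbar_mul hc hu,
    dbar_mul (differentiableAt_const _) (hc.fun_mul (hu.fun_mul hu)),
    dbar_mul hc (hu.fun_mul hu), dbar_mul hu hu, dbar_conj, dbar_cDinv hε, dbar_const, dbar_const] at h1
  refine h1.trans ?_
  have h2 : (cD ε z)⁻¹ * cD ε z = 1 := inv_mul_cancel₀ (cD_ne hε z)
  have h3 : (ck ε z : ℂ) = 2 * (ε : ℂ) ^ 4 * ((cD ε z)⁻¹) ^ 3 := by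
    rw [ck, cD_eq]
    push_cast
    rw [div_eq_mul_inv, inv_pow]
  rw [h3]
  set u := (cD ε z)⁻¹
  rw [cD] at h2
  linear_combination (-4 * u - 8 * (ε : ℂ) ^ 2 * u ^ 2) * h2

theorem cK_norm_le {ε : ℝ} (hε : 0 < ε) (z : ℂ) : ‖cK ε z‖ ≤ 1 := by
  have : (0 : ℝ) < ‖z‖ ^ 2 + ε ^ 2 := by positivity
  rw [cK, cD_eq, norm_mul, norm_mul, norm_inv, Complex.norm_real, Complex.norm_conj,
    Real.norm_of_nonneg this.le, ← div_eq_mul_inv, div_le_one this]
  nlinarith [sq_nonneg ε]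

theorem c_integrable {Ω : Set ℂ} {μ : Measure ℂ} {ν : ℂ → ℂ} (h : GG Ω μ ν)
    {m₁ m₂ : Measure ℂ} [IsFiniteMeasure m₁] [IsFiniteMeasure m₂]
    (h₁ : ∀ᵐ z ∂m₁, z ∈ closure Ω) (h₂ : ∀ᵐ z ∂m₂, z ∈ closure Ω)
    {E : Type*} [NormedAddCommGroup E] {F : (ℂ × ℂ) × (ℂ × ℂ) → E} (hF : Continuous F) :
    Integrable (fun p : ℂ × ℂ => F ((p.1, ν p.1), (p.2, ν p.2))) (m₁.prod m₂) := by
  have hK := h.bdd.isCompact_closure.prod (isCompact_sphere (0 : ℂ) 1)
  obtain ⟨C, hC⟩ := (hK.prod hK).exists_bound_of_continuousOn hF.continuousOn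
  have hm : Measurable fun p : ℂ × ℂ => ((p.1, ν p.1), (p.2, ν p.2)) :=
    (measurable_fst.prodMk (h.meas.comp measurable_fst)).prodMk
      (measurable_snd.prodMk (h.meas.comp measurable_snd))
  refine Integrable.of_bound (hF.comp_aestronglyMeasurable hm.aestronglyMeasurable) C ?_
  filter_upwards [Measure.quasiMeasurePreserving_fst.ae h₁,
    Measure.quasiMeasurePreserving_snd.ae h₂] with p hp hq
  exact hC _ ⟨⟨hp, by simpa using h.unit _⟩, ⟨hq, by simpa using h.unit _⟩⟩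

theorem c_fin {Ω : Set ℂ} {μ : Measure ℂ} {ν : ℂ → ℂ} (h : GG Ω μ ν) :
    IsFiniteMeasure (volume.restrict Ω) :=
  isFiniteMeasure_restrict.2 h.vol_lt_top.ne

theorem c_ae {Ω : Set ℂ} {μ : Measure ℂ} {ν : ℂ → ℂ} (h : GG Ω μ ν) :
    ∀ᵐ z ∂(volume.restrict Ω), z ∈ closure Ω := by
  filter_upwards [ae_restrict_mem h.isOpen.measurableSet] with z hz using subset_closure hz

/-- the double integral of the second derivative -/
noncomputable def cJ (Ω : Set ℂ) (ε : ℝ) : ℝ := ∫ w in Ω, ∫ z in Ω, ck ε (z - w)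

theorem c_double {Ω : Set ℂ} {μ : Measure ℂ} {ν : ℂ → ℂ} (h : GG Ω μ ν) {ε : ℝ} (hε : 0 < ε) :
    ∫ p : ℂ × ℂ, cK ε (p.1 - p.2) * ν p.2 * ν p.1 ∂(μ.prod μ) = -(4 * (cJ Ω ε : ℂ)) := by
  have := h.fin
  have := c_fin h
  have hK := (cK_contDiff hε).continuous
  have hK1 := (cK1_contDiff hε).continuous
  have i1 := c_integrable h h.supp h.supp
    (F := fun q => cK ε (q.1.1 - q.2.1) * q.2.2 * q.1.2) (by fun_prop)
  have i2 := c_integrable h h.supp (c_ae h)
    (F := fun q => cK1 ε (q.1.1 - q.2.1) * q.1.2) (by fun_prop)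
  have e1 : ∀ z : ℂ, ∫ w, cK ε (z - w) * ν w * ν z ∂μ = -∫ w in Ω, cK1 ε (z - w) * ν z := by
    intro z
    have hf : ContDiff ℝ 1 (fun w : ℂ => cK ε (z + (-1) * w)) :=
      (cK_contDiff hε).comp (contDiff_const.add (contDiff_const.mul contDiff_id))
    have := h.gg _ hf
    simp_rw [dbar_comp_affine z (-1) _ (c_diff (cK_contDiff hε) _), dbar_cK hε, map_neg, map_one,
      neg_one_mul, ← sub_eq_add_neg] at this
    rw [integral_mul_const, integral_mul_const, ← this, integral_neg, neg_mul]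
  have e2 : ∀ w : ℂ, ∫ z, cK1 ε (z - w) * ν z ∂μ = 4 * ((∫ z in Ω, ck ε (z - w) : ℝ) : ℂ) := by
    intro w
    have hf : ContDiff ℝ 1 (fun z : ℂ => cK1 ε (-w + 1 * z)) :=
      (cK1_contDiff hε).comp (contDiff_const.add (contDiff_const.mul contDiff_id))
    have := h.gg _ hf
    simp_rw [dbar_comp_affine (-w) 1 _ (c_diff (cK1_contDiff hε) _), dbar_cK1 hε, map_one,
      one_mul, neg_add_eq_sub] at this
    rw [← this, integral_const_mul, integral_complex_ofReal]
  rw [integral_prod _ i1]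
  simp_rw [e1]
  rw [integral_neg, integral_integral_swap i2]
  simp_rw [e2]
  rw [integral_const_mul, integral_complex_ofReal, cJ]

theorem ck_one_integral : ∫ y : ℂ, ck 1 y = Real.pi := by
  have h1 := integral_fun_norm_addHaar (volume : Measure ℂ)
    (fun r : ℝ => 2 * (1 : ℝ) ^ 4 / (r ^ 2 + 1 ^ 2) ^ 3)
  have h2 : ∫ r in Ioi (0 : ℝ), r * (2 / (r ^ 2 + 1) ^ 3) = 1 / 2 := by
    have hd : ∀ r ∈ Ici (0 : ℝ), HasDerivAt (fun r : ℝ => -(1 / 2) * ((r ^ 2 + 1) ^ 2)⁻¹)
        (r * (2 / (r ^ 2 + 1) ^ 3)) r := by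
      intro r _
      have hp : (r ^ 2 + 1) ≠ 0 := by positivity
      have := ((((hasDerivAt_pow 2 r).add_const 1).pow 2).inv (pow_ne_zero 2 hp)).const_mul
        (-(1 / 2) : ℝ)
      refine this.congr_deriv ?_
      simp only [Pi.pow_apply]
      field_simp
      push_cast
      ring
    have ht : Tendsto (fun r : ℝ => -(1 / 2) * ((r ^ 2 + 1) ^ 2)⁻¹) atTop (𝓝 (-(1 / 2) * 0)) := by
      refine Tendsto.const_mul _ (Tendsto.inv_tendsto_atTop ?_)
      exact (tendsto_pow_atTop two_ne_zero).comp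
        (tendsto_atTop_add_const_right _ _ (tendsto_pow_atTop two_ne_zero))
    rw [integral_Ioi_of_hasDerivAt_of_nonneg' hd (fun r hr => ?_) ht]
    · norm_num
    · have : (0 : ℝ) < r := hr
      positivity
  refine h1.trans ?_
  simp only [Complex.finrank_real_complex, one_pow, mul_one, smul_eq_mul, nsmul_eq_mul,
    Nat.add_one_sub_one, pow_one, h2, Measure.real, Complex.volume_ball]
  simp
  ring

theorem ck_one_integrable : Integrable (ck 1) :=
  Integrable.of_integral_ne_zero (by rw [ck_one_integral]; exact Real.pi_ne_zero)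

theorem ck_nonneg (ε : ℝ) (z : ℂ) : 0 ≤ ck ε z := by
  unfold ck
  positivity

theorem c_scale {Ω : Set ℂ} (hΩ : MeasurableSet Ω) {ε : ℝ} (hε : 0 < ε) (w : ℂ) :
    ∫ z in Ω, ck ε (z - w) = ∫ y : ℂ, Ω.indicator (fun _ => (1 : ℝ)) (ε • y + w) * ck 1 y := by
  have h1 : ∫ z in Ω, ck ε (z - w) =
      ∫ z : ℂ, Ω.indicator (fun _ => (1 : ℝ)) (z + w) * ck ε z := by
    rw [← integral_indicator hΩ, ← integral_add_right_eq_self _ w]
    refine integral_congr_ae (Eventually.of_forall fun z => ?_)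
    by_cases hz : z + w ∈ Ω <;> simp [hz]
  have h2 := Measure.integral_comp_smul (volume : Measure ℂ)
    (fun z : ℂ => Ω.indicator (fun _ => (1 : ℝ)) (z + w) * ck ε z) ε
  have h3 : ∀ y : ℂ, ck 1 y = ε ^ 2 * ck ε (ε • y) := by
    intro y
    rw [ck, ck, norm_smul, Real.norm_of_nonneg hε.le]
    field_simp
  simp_rw [h3, mul_left_comm _ (ε ^ 2)]
  rw [integral_const_mul, h2, h1, Complex.finrank_real_complex, abs_of_pos (by positivity),
    smul_eq_mul, ← mul_assoc, mul_inv_cancel₀ (by positivity), one_mul]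

theorem c_ind_le (Ω : Set ℂ) (x y : ℂ) :
    ‖Ω.indicator (fun _ => (1 : ℝ)) x * ck 1 y‖ ≤ ck 1 y := by
  by_cases hx : x ∈ Ω
  · simp [hx, abs_of_nonneg (ck_nonneg 1 y)]
  · simp [hx, ck_nonneg 1 y]

theorem cJ_tendsto {Ω : Set ℂ} {μ : Measure ℂ} {ν : ℂ → ℂ} (h : GG Ω μ ν) :
    Tendsto (cJ Ω) (𝓝[>] 0) (𝓝 (Real.pi * (volume Ω).toReal)) := by
  have := c_fin h
  have hΩ := h.isOpen.measurableSet
  have e : Real.pi * (volume Ω).toReal = ∫ _ in Ω, Real.pi := by
    simp [Measure.real, mul_comm]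
  rw [e]
  refine tendsto_integral_filter_of_dominated_convergence (fun _ => Real.pi) ?_ ?_
    (integrable_const _) ?_
  · filter_upwards [self_mem_nhdsWithin] with ε hε
    have hc := ck_continuous hε
    have : Continuous fun p : ℂ × ℂ => ck ε (p.2 - p.1) := by fun_prop
    exact (this.stronglyMeasurable.integral_prod_right').aestronglyMeasurable
  · filter_upwards [self_mem_nhdsWithin] with ε hε
    refine Eventually.of_forall fun w => ?_
    rw [c_scale hΩ hε, ← ck_one_integral]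
    exact norm_integral_le_of_norm_le ck_one_integrable
      (Eventually.of_forall fun y => c_ind_le _ _ _)
  · filter_upwards [ae_restrict_mem hΩ] with w hw
    have ht : Tendsto (fun ε : ℝ => ∫ y : ℂ, Ω.indicator (fun _ => (1 : ℝ)) (ε • y + w) * ck 1 y)
        (𝓝[>] 0) (𝓝 (∫ y : ℂ, ck 1 y)) := by
      refine tendsto_integral_filter_of_dominated_convergence (ck 1) ?_ ?_ ck_one_integrable ?_
      · refine Eventually.of_forall fun ε => AEStronglyMeasurable.mul ?_ ?_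
        · refine Measurable.aestronglyMeasurable ?_
          exact (measurable_const.indicator hΩ).comp (by fun_prop)
        · exact ck_one_integrable.aestronglyMeasurable
      · exact Eventually.of_forall fun ε => Eventually.of_forall fun y => c_ind_le _ _ _
      · refine Eventually.of_forall fun y => ?_
        have hc : Continuous fun ε : ℝ => ε • y + w := by fun_prop
        have hm : ∀ᶠ ε in 𝓝 (0 : ℝ), ε • y + w ∈ Ω :=
          hc.continuousAt.eventually_mem (h.isOpen.mem_nhds (by simpa using hw))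
        refine tendsto_const_nhds.congr' ?_
        filter_upwards [nhdsWithin_le_nhds hm] with ε hε
        rw [indicator_of_mem hε, one_mul]
    rw [ck_one_integral] at ht
    refine ht.congr' ?_
    filter_upwards [self_mem_nhdsWithin] with ε hε
    exact (c_scale hΩ hε w).symm

theorem iso {Ω : Set ℂ} {μ : Measure ℂ} {ν : ℂ → ℂ} (h : GG Ω μ ν) :
    4 * Real.pi * (volume Ω).toReal ≤ μ.real univ ^ 2 := by
  have := h.fin
  rw [mul_assoc]
  refine le_of_tendsto ((cJ_tendsto h).const_mul 4) ?_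
  filter_upwards [self_mem_nhdsWithin] with ε hε
  have h1 := norm_integral_le_of_norm_le_const (μ := μ.prod μ)
    (f := fun p : ℂ × ℂ => cK ε (p.1 - p.2) * ν p.2 * ν p.1) (C := 1)
    (Eventually.of_forall fun p => by
      rw [norm_mul, norm_mul, h.unit, h.unit, mul_one, mul_one]
      exact cK_norm_le hε _)
  rw [c_double h hε, norm_neg, one_mul, ← univ_prod_univ, measureReal_prod_prod] at h1
  have h2 : (4 * (cJ Ω ε : ℂ)) = ((4 * cJ Ω ε : ℝ) : ℂ) := by push_cast; ring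
  rw [h2, Complex.norm_real] at h1
  rw [sq]
  exact (le_abs_self _).trans h1

theorem c_cauchy {α : Type*} [MeasurableSpace α] {μ : Measure α} [IsFiniteMeasure μ] {a : α → ℂ}
    (h1 : Integrable a μ) (h2 : Integrable (fun x => ‖a x‖ ^ 2) μ) :
    ‖∫ x, a x ∂μ‖ ^ 2 ≤ μ.real univ * ∫ x, ‖a x‖ ^ 2 ∂μ := by
  have h3 : ∀ t : ℝ, 0 ≤ μ.real univ * (t * t) + (-2 * ∫ x, ‖a x‖ ∂μ) * t + ∫ x, ‖a x‖ ^ 2 ∂μ := by
    intro t
    have h4 : 0 ≤ ∫ x, (t * t + (-2 * t) * ‖a x‖ + ‖a x‖ ^ 2) ∂μ :=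
      integral_nonneg fun x => by
        have := sq_nonneg (t - ‖a x‖)
        simp only [Pi.zero_apply]
        nlinarith
    have i1 : Integrable (fun x => (-2 * t) * ‖a x‖) μ := h1.norm.const_mul _
    have i2 : Integrable (fun x => t * t + (-2 * t) * ‖a x‖) μ := (integrable_const _).add i1
    rw [integral_add i2 h2, integral_add (integrable_const _) i1, integral_const,
      integral_const_mul, smul_eq_mul] at h4
    linarith
  have h5 := discrim_le_zero h3
  rw [discrim] at h5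
  have h6 := pow_le_pow_left₀ (norm_nonneg _) (norm_integral_le_integral_norm (μ := μ) a) 2
  nlinarith

theorem iso_strong {Ω : Set ℂ} {μ : Measure ℂ} {ν : ℂ → ℂ} (h : GG Ω μ ν) {d : ℝ}
    (hd : ∀ z ∈ Ω, ∀ w ∈ Ω, ‖z - w‖ ≤ d) :
    ∫ z, ‖(μ.real univ : ℂ) * z - (∫ w, w ∂μ) - 2 * ((volume Ω).toReal : ℂ) * ν z‖ ^ 2 ∂μ ≤
      2 * μ.real univ * d ^ 2 * (μ.real univ ^ 2 - 4 * Real.pi * (volume Ω).toReal) := by
  have := h.fin
  have hc := c_contDiff_conj.continuous
  have hd' : ∀ z ∈ closure Ω, ∀ w ∈ closure Ω, ‖z - w‖ ≤ d := by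
    intro z hz w hw
    have hcl : IsClosed {p : ℂ × ℂ | ‖p.1 - p.2‖ ≤ d} := isClosed_le (by fun_prop) continuous_const
    have hs : Ω ×ˢ Ω ⊆ {p : ℂ × ℂ | ‖p.1 - p.2‖ ≤ d} := fun p hp => hd _ hp.1 _ hp.2
    have := closure_minimal hs hcl (a := (z, w)) (by rw [closure_prod_eq]; exact ⟨hz, hw⟩)
    exact this
  have i1 := c_integrable h h.supp h.supp
    (F := fun q => ‖(q.1.1 - q.2.1) + conj (q.1.1 - q.2.1) * q.2.2 * q.1.2‖ ^ 2) (by fun_prop)
  -- the inner integral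
  have e1 : ∀ z : ℂ, ∫ w, ((z - w) + conj (z - w) * ν w * ν z) ∂μ =
      (μ.real univ : ℂ) * z - (∫ w, w ∂μ) - 2 * ((volume Ω).toReal : ℂ) * ν z := by
    intro z
    have hf : ContDiff ℝ 1 (fun w : ℂ => conj (z + (-1) * w)) :=
      c_contDiff_conj.comp (contDiff_const.add (contDiff_const.mul contDiff_id))
    have h1 := h.gg _ hf
    simp_rw [dbar_comp_affine (f := fun w => conj w) z (-1) _ (c_diff c_contDiff_conj _),
      dbar_conj, neg_one_mul, ← sub_eq_add_neg] at h1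
    have j1 : Integrable (fun w : ℂ => z - w) μ := h.integrable (by fun_prop)
    have j2 : Integrable (fun w : ℂ => conj (z - w) * ν w * ν z) μ :=
      h.integrable₂ (F := fun q => conj (z - q.1) * q.2 * ν z) (by fun_prop)
    rw [integral_add j1 j2, integral_mul_const, ← h1,
      integral_sub (integrable_const _) (h.integrable continuous_id')]
    simp [Measure.real]
    ring
  have e2 : ∫ z, ‖(μ.real univ : ℂ) * z - (∫ w, w ∂μ) -
      2 * ((volume Ω).toReal : ℂ) * ν z‖ ^ 2 ∂μ ≤ μ.real univ *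
      ∫ p : ℂ × ℂ, ‖(p.1 - p.2) + conj (p.1 - p.2) * ν p.2 * ν p.1‖ ^ 2 ∂(μ.prod μ) := by
    rw [integral_prod _ i1, ← integral_const_mul]
    refine integral_mono_of_nonneg (Eventually.of_forall fun z => by positivity)
      (i1.integral_prod_left.const_mul _) (Eventually.of_forall fun z => ?_)
    simp only
    rw [← e1]
    exact c_cauchy
      (h.integrable₂ (F := fun q => (z - q.1) + conj (z - q.1) * q.2 * ν z) (by fun_prop))
      (h.integrable₂ (F := fun q => ‖(z - q.1) + conj (z - q.1) * q.2 * ν z‖ ^ 2) (by fun_prop))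
  have e3 : ∫ p : ℂ × ℂ, ‖(p.1 - p.2) + conj (p.1 - p.2) * ν p.2 * ν p.1‖ ^ 2 ∂(μ.prod μ) ≤
      2 * (d ^ 2 + 0 ^ 2) * (μ.real univ ^ 2 - 4 * (Real.pi * (volume Ω).toReal)) := by
    have ht : Tendsto (fun ε : ℝ => 2 * (d ^ 2 + ε ^ 2) * (μ.real univ ^ 2 - 4 * cJ Ω ε)) (𝓝[>] 0)
        (𝓝 (2 * (d ^ 2 + 0 ^ 2) * (μ.real univ ^ 2 - 4 * (Real.pi * (volume Ω).toReal)))) := by
      refine Tendsto.mul ?_ (((cJ_tendsto h).const_mul 4).const_sub _)
      have : Continuous fun ε : ℝ => 2 * (d ^ 2 + ε ^ 2) := by fun_prop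
      exact (this.tendsto 0).mono_left nhdsWithin_le_nhds
    refine ge_of_tendsto ht ?_
    filter_upwards [self_mem_nhdsWithin] with ε hε
    have hε' : 0 < ε := hε
    have hK := (cK_contDiff hε').continuous
    have i2 := c_integrable h h.supp h.supp
      (F := fun q => cK ε (q.1.1 - q.2.1) * q.2.2 * q.1.2) (by fun_prop)
    have i3 : Integrable (fun p : ℂ × ℂ => (cK ε (p.1 - p.2) * ν p.2 * ν p.1).re) (μ.prod μ) :=
      i2.re
    have e4 : μ.real univ ^ 2 - 4 * cJ Ω ε =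
        ∫ p : ℂ × ℂ, (1 + (cK ε (p.1 - p.2) * ν p.2 * ν p.1).re) ∂(μ.prod μ) := by
      have e5 := integral_re i2
      simp only [RCLike.re_to_complex] at e5
      rw [integral_add (integrable_const _) i3, e5, c_double h hε', integral_const,
        ← univ_prod_univ, measureReal_prod_prod]
      simp
      ring
    rw [e4, ← integral_const_mul]
    refine integral_mono_ae i1 (((integrable_const _).add i3).const_mul _) ?_
    filter_upwards [Measure.quasiMeasurePreserving_fst.ae h.supp,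
      Measure.quasiMeasurePreserving_snd.ae h.supp] with p hp hq
    have b1 := hd' _ hp _ hq
    set y := p.1 - p.2
    have b2 : ‖ν p.2 * ν p.1‖ = 1 := by rw [norm_mul, h.unit, h.unit, mul_one]
    rw [mul_assoc (conj y), mul_assoc (cK ε y)]
    set n := ν p.2 * ν p.1
    have b3 : 0 ≤ 1 + (cK ε y * n).re := by
      have := Complex.abs_re_le_norm (cK ε y * n)
      rw [norm_mul, b2, mul_one] at this
      have := (abs_le.1 (this.trans (cK_norm_le hε' y))).1
      linarith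
    have b4 : (‖y‖ ^ 2 + ε ^ 2) * (cK ε y * n).re = (conj y * conj y * n).re := by
      rw [← Complex.re_ofReal_mul, ← cD_eq, cK]
      have := cD_ne hε' y
      congr 1
      field_simp
    have b5 : ‖y + conj y * n‖ ^ 2 = 2 * ‖y‖ ^ 2 + 2 * (conj y * conj y * n).re := by
      rw [← Complex.normSq_eq_norm_sq, Complex.normSq_add, Complex.normSq_eq_norm_sq,
        Complex.normSq_eq_norm_sq, norm_mul, b2, Complex.norm_conj, ← Complex.conj_re (y * _),
        map_mul, Complex.conj_conj, mul_assoc]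
      ring
    have b6 : ‖y‖ ^ 2 ≤ d ^ 2 := pow_le_pow_left₀ (norm_nonneg _) b1 2
    have b7 := mul_le_mul_of_nonneg_right b6 b3
    rw [b5, ← b4]
    nlinarith [sq_nonneg ε]
  have e6 := mul_le_mul_of_nonneg_left e3 (measureReal_nonneg (μ := μ) (s := univ))
  refine (e2.trans e6).trans (le_of_eq ?_)
  ring

end Pool.Agent.P.MP_832dec_an
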