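import Pool.Agent.P.MP_832dec_an.GG

set_option autoImplicit false

open MeasureTheory Set Metric Filter Topology ComplexConjugate

namespace Pool.Agent.P.MP_832dec_an

/-- the shear along the graph of `ψ` -/
noncomputable def a2_shear {ψ : ℝ → ℝ} (hψ : Continuous ψ) : ℝ × ℝ ≃ₜ ℂ where
  toFun p := p.1 + ((ψ p.1 + p.2 : ℝ) : ℂ) * Complex.I
  invFun z := (z.re, z.im - ψ z.re)
  left_inv p := by simp
  right_inv z := by apply Complex.ext <;> simp
  continuous_toFun := by fun_prop
  continuous_invFun := by fun_prop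

theorem a2_shear_apply {ψ : ℝ → ℝ} (hψ : Continuous ψ) (x t : ℝ) :
    a2_shear hψ (x, t) = x + ((ψ x + t : ℝ) : ℂ) * Complex.I := rfl

theorem a2_mp {ψ : ℝ → ℝ} (hψ : Continuous ψ) :
    MeasurePreserving (a2_shear hψ) ((volume : Measure ℝ).prod volume) volume := by
  have h1 : MeasurePreserving (fun p : ℝ × ℝ => (p.1, ψ p.1 + p.2))
      ((volume : Measure ℝ).prod volume) ((volume : Measure ℝ).prod volume) :=
    (MeasurePreserving.id volume).skew_product (g := fun x t => ψ x + t)
      (by have := hψ.measurable; fun_prop)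
      (Eventually.of_forall fun x => map_add_left_eq_self volume (ψ x))
  have h2 := (Complex.volume_preserving_equiv_real_prod.symm).comp h1
  have h3 : (a2_shear hψ : ℝ × ℝ → ℂ) =
      Complex.measurableEquivRealProd.symm ∘ fun p : ℝ × ℝ => (p.1, ψ p.1 + p.2) := by
    funext p
    apply Complex.ext <;> simp [a2_shear]
  rw [h3]
  exact h2

theorem a2_left (t : ℝ) : Topology.IsClosedEmbedding fun x : ℝ => (x, t) :=
  (Isometry.of_dist_eq fun x y => by simp).isClosedEmbedding

theorem a2_right (x : ℝ) : Topology.IsClosedEmbedding fun t : ℝ => (x, t) :=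
  (Isometry.of_dist_eq fun s t => by simp).isClosedEmbedding

theorem a2_zero {g g' : ℝ → ℂ} {C : NNReal} (hg : LipschitzWith C g) (hc : HasCompactSupport g)
    (hi : Integrable g') (hd : ∀ᵐ x, HasDerivAt g (g' x) x) : ∫ x, g' x = 0 := by
  have key : ∀ L : ℂ →L[ℝ] ℝ, L (∫ x, g' x) = 0 := by
    intro L
    rw [← L.integral_comp_comm hi]
    have h1 := LipschitzWith.integral_lineDeriv_mul_eq (μ := (volume : Measure ℝ))
      (LipschitzWith.const (1 : ℝ)) (L.lipschitz.comp hg) (hc.comp_left (g := L) (map_zero L))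
      (-1 : ℝ)
    have h2 : ∀ x : ℝ, lineDeriv ℝ (fun _ : ℝ => (1 : ℝ)) x (-1) = 0 := fun x => by
      simp [lineDeriv]
    simp only [h2, zero_mul, integral_zero, neg_neg, mul_one] at h1
    rw [h1]
    refine integral_congr_ae ?_
    filter_upwards [hd] with x hx
    have h3 := L.hasFDerivAt.comp_hasDerivAt x hx
    rw [h3.differentiableAt.lineDeriv_eq_fderiv, fderiv_apply_one_eq_deriv, h3.deriv]
  exact Complex.ext (key Complex.reCLM) (key Complex.imCLM)

theorem subgraph_gg {K : NNReal} {ψ : ℝ → ℝ} (hψ : LipschitzWith K ψ) {f : ℂ → ℂ}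
    (hf : ContDiff ℝ 1 f) (hc : HasCompactSupport f) :
    ∫ z in {z : ℂ | z.im < ψ z.re}, dbar f z =
      ∫ x : ℝ, f (x + ψ x * Complex.I) * (Complex.I - (deriv ψ x : ℝ)) := by
  have hψc := hψ.continuous
  set S := a2_shear hψc with hS
  have hfd := hf.continuous_fderiv one_ne_zero
  have hdiff := hf.differentiable one_ne_zero
  have hint : ∀ v : ℂ, Integrable (fun p : ℝ × ℝ => fderiv ℝ f (S p) v)
      ((volume : Measure ℝ).prod volume) := fun v =>
    Continuous.integrable_of_hasCompactSupport (by fun_prop)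
      ((hc.fderiv_apply ℝ v).comp_homeomorph S)
  set ν : Measure ℝ := volume.restrict (Iic 0) with hν
  have hint' : ∀ v : ℂ, Integrable (fun p : ℝ × ℝ => fderiv ℝ f (S p) v)
      ((volume : Measure ℝ).prod ν) := fun v =>
    (hint v).mono_measure (Measure.prod_mono le_rfl Measure.restrict_le_self)
  have hm : Measurable fun p : ℝ × ℝ => ((deriv ψ p.1 : ℝ) : ℂ) :=
    Complex.measurable_ofReal.comp ((measurable_deriv ψ).comp measurable_fst)
  have hb : ∀ x, ‖((deriv ψ x : ℝ) : ℂ)‖ ≤ K := fun x => by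
    rw [Complex.norm_real]; exact norm_deriv_le_of_lipschitz hψ
  have i1 : Integrable (fun p : ℝ × ℝ => ((deriv ψ p.1 : ℝ) : ℂ) * fderiv ℝ f (S p) Complex.I)
      ((volume : Measure ℝ).prod ν) :=
    (hint' _).bdd_mul hm.aestronglyMeasurable (Eventually.of_forall fun p => hb p.1)
  have i2 : Integrable (fun p : ℝ × ℝ => fderiv ℝ f (S p) 1 +
      ((deriv ψ p.1 : ℝ) : ℂ) * fderiv ℝ f (S p) Complex.I) ((volume : Measure ℝ).prod ν) :=
    (hint' 1).add i1
  have i3 : Integrable (fun p : ℝ × ℝ => fderiv ℝ f (S p) Complex.I *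
      (Complex.I - ((deriv ψ p.1 : ℝ) : ℂ))) ((volume : Measure ℝ).prod ν) := by
    refine (((hint' Complex.I).mul_const Complex.I).sub i1).congr
      (Eventually.of_forall fun p => ?_)
    simp only [Pi.sub_apply]
    ring
  have e1 : ∫ z in {z : ℂ | z.im < ψ z.re}, dbar f z =
      ∫ p, dbar f (S p) ∂((volume : Measure ℝ).prod ν) := by
    rw [← (a2_mp hψc).setIntegral_preimage_emb S.measurableEmbedding, hν,
      ← Measure.restrict_congr_set Iio_ae_eq_Iic]
    conv_rhs => rw [← Measure.restrict_univ (μ := (volume : Measure ℝ)), Measure.restrict_restrict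
      measurableSet_Iio, inter_univ, Measure.prod_restrict]
    congr 2
    ext p
    simp [a2_shear]
  have e2 : ∫ p, dbar f (S p) ∂((volume : Measure ℝ).prod ν) =
      (∫ p, (fderiv ℝ f (S p) 1 + ((deriv ψ p.1 : ℝ) : ℂ) * fderiv ℝ f (S p) Complex.I)
        ∂((volume : Measure ℝ).prod ν)) +
      ∫ p, fderiv ℝ f (S p) Complex.I * (Complex.I - ((deriv ψ p.1 : ℝ) : ℂ))
        ∂((volume : Measure ℝ).prod ν) := by
    rw [← integral_add i2 i3]
    refine integral_congr_ae (Eventually.of_forall fun p => ?_)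
    simp only [dbar]
    ring
  have e3 : ∫ p, (fderiv ℝ f (S p) 1 + ((deriv ψ p.1 : ℝ) : ℂ) * fderiv ℝ f (S p) Complex.I)
        ∂((volume : Measure ℝ).prod ν) = 0 := by
    rw [integral_prod_symm _ i2]
    refine integral_eq_zero_of_ae ?_
    obtain ⟨C, hC⟩ := hf.lipschitzWith_of_hasCompactSupport hc one_ne_zero
    filter_upwards [i2.prod_left_ae] with t ht
    have l1 : LipschitzWith (1 + K) fun x : ℝ => S (x, t) := by
      refine LipschitzWith.of_dist_le_mul fun x y => ?_
      have h1 := hψ.dist_le_mul x y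
      have h2 : S (x, t) - S (y, t) = ((x - y : ℝ) : ℂ) + ((ψ x - ψ y : ℝ) : ℂ) * Complex.I := by
        simp only [hS, a2_shear_apply]
        push_cast
        ring
      rw [dist_eq_norm, h2]
      refine (norm_add_le _ _).trans ?_
      rw [norm_mul, Complex.norm_I, mul_one, Complex.norm_real, Complex.norm_real,
        ← dist_eq_norm, ← dist_eq_norm]
      push_cast
      linarith
    refine a2_zero (g := fun x : ℝ => f (S (x, t))) (hC.comp l1) ?_ ht ?_
    · exact (hc.comp_homeomorph S).comp_isClosedEmbedding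
        (a2_left t)
    · filter_upwards [hψ.ae_differentiableAt] with x hx
      have h1 : HasDerivAt (fun x : ℝ => S (x, t)) (1 + ((deriv ψ x : ℝ) : ℂ) * Complex.I) x :=
        (hasDerivAt_id x).ofReal_comp.add
          ((hx.hasDerivAt.add_const t).ofReal_comp.mul_const Complex.I)
      have h2 := (hdiff (S (x, t))).hasFDerivAt.comp_hasDerivAt x h1
      refine h2.congr_deriv ?_
      rw [map_add, ← Complex.real_smul, ← Complex.real_smul, map_smul]
  have e4 : ∀ x : ℝ, ∫ t, fderiv ℝ f (S (x, t)) Complex.I ∂ν = f (x + ψ x * Complex.I) := by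
    intro x
    have h1 : ∀ t : ℝ, HasDerivAt (fun t : ℝ => S (x, t)) Complex.I t := fun t => by
      exact ((((hasDerivAt_id t).const_add (ψ x)).ofReal_comp.mul_const Complex.I).const_add
        (x : ℂ)).congr_deriv (by simp)
    have h2 : ContDiff ℝ 1 fun t : ℝ => f (S (x, t)) := by
      refine hf.comp ?_
      simp only [hS, a2_shear_apply]
      exact contDiff_const.add ((Complex.ofRealCLM.contDiff.comp
        (contDiff_const.add contDiff_id)).mul contDiff_const)
    have h3 := ((hc.comp_homeomorph S).comp_isClosedEmbedding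
      (a2_right x)).integral_Iic_deriv_eq h2 0
    have h4 : ∀ t : ℝ, deriv (fun t : ℝ => f (S (x, t))) t = fderiv ℝ f (S (x, t)) Complex.I :=
      fun t => ((hdiff (S (x, t))).hasFDerivAt.comp_hasDerivAt t (h1 t)).deriv
    simp only [← h4]
    refine h3.trans ?_
    simp [hS, a2_shear_apply]
  rw [e1, e2, e3, zero_add, integral_prod _ i3]
  refine integral_congr_ae (Eventually.of_forall fun x => ?_)
  simp only
  rw [integral_mul_const, e4]

end Pool.Agent.P.MP_832dec_an
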