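import Pool.Agent.P.MP_832dec_an.GraphMeasure
import Pool.Agent.P.MP_832dec_an.Subgraph

set_option autoImplicit false

open MeasureTheory Set Metric Filter Topology ComplexConjugate

namespace Pool.Agent.P.MP_832dec_an

/-- the Gauss-Green formula for functions supported in `U` -/
def LocalGG (Ω U : Set ℂ) : Prop :=
  ∃ (ν : ℂ → ℂ) (d : ℂ), Measurable ν ∧ (∀ z, ‖ν z‖ = 1) ∧ (∀ z, 0 < (conj d * ν z).re) ∧
    bdry Ω U < ⊤ ∧ ∀ f : ℂ → ℂ, ContDiff ℝ 1 f → HasCompactSupport f → tsupport f ⊆ U →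
      ∫ z in Ω, dbar f z = ∫ z, f z * ν z ∂(bdry Ω)

theorem a3_dbar_eq_zero {f : ℂ → ℂ} {z : ℂ} (hz : z ∉ tsupport f) : dbar f z = 0 := by
  have h : fderiv ℝ f z = 0 := by
    by_contra h
    exact hz (support_fderiv_subset ℝ h)
  simp [dbar, h]

theorem a3_integral_dbar {f : ℂ → ℂ} (hf : ContDiff ℝ 1 f) (hc : HasCompactSupport f) :
    ∫ z, dbar f z = 0 := by
  obtain ⟨M, hM⟩ := hc.isCompact.isBounded.subset_ball 0
  have h1 := subgraph_gg (K := 0) (ψ := fun _ => M) (LipschitzWith.const M) hf hc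
  rw [setIntegral_eq_integral_of_forall_compl_eq_zero] at h1
  · rw [h1]
    have h2 : ∀ x : ℝ, f (x + M * Complex.I) = 0 := by
      intro x
      apply image_eq_zero_of_notMem_tsupport
      intro hx
      have h3 := hM hx
      rw [mem_ball_zero_iff] at h3
      have h4 := (le_abs_self _).trans (Complex.abs_im_le_norm (x + M * Complex.I))
      simp at h4
      linarith
    simp [h2]
  · intro z hz
    apply a3_dbar_eq_zero
    intro hx
    have h3 := hM hx
    rw [mem_ball_zero_iff] at h3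
    have h4 := (le_abs_self _).trans (Complex.abs_im_le_norm z)
    exact hz (show z.im < M by linarith)

theorem a3_interior {Ω : Set ℂ} (hΩ : IsOpen Ω) : LocalGG Ω Ω := by
  refine ⟨fun _ => 1, 1, measurable_const, by simp, by simp, ?_, ?_⟩
  · rw [bdry, Measure.restrict_apply hΩ.measurableSet, hΩ.inter_frontier_eq]
    simp
  · intro f hf hc hs
    rw [setIntegral_eq_integral_of_forall_compl_eq_zero
      (fun z hz => a3_dbar_eq_zero fun h => hz (hs h)), a3_integral_dbar hf hc, bdry]
    symm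
    apply setIntegral_eq_zero_of_forall_eq_zero
    intro z hz
    have h : z ∉ tsupport f := fun h => by
      have : z ∈ Ω ∩ frontier Ω := ⟨hs h, hz⟩
      rw [hΩ.inter_frontier_eq] at this
      exact this
    simp [image_eq_zero_of_notMem_tsupport h]

theorem a3_range (ψ : ℝ → ℝ) : range (graphMap ψ) = {z : ℂ | z.im = ψ z.re} := by
  ext z
  constructor
  · rintro ⟨x, rfl⟩
    simp [graphMap]
  · intro hz
    refine ⟨z.re, ?_⟩
    apply Complex.ext
    · simp [graphMap]
    · simpa [graphMap] using Eq.symm hz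

theorem a3_frontier {ψ : ℝ → ℝ} (hψ : Continuous ψ) :
    frontier {z : ℂ | z.im < ψ z.re} = range (graphMap ψ) := by
  rw [a3_range]
  have hc : Continuous fun z : ℂ => ψ z.re := hψ.comp Complex.continuous_re
  apply Subset.antisymm (frontier_lt_subset_eq Complex.continuous_im hc)
  intro z hz
  rw [(isOpen_lt Complex.continuous_im hc).frontier_eq]
  refine ⟨?_, fun h => (ne_of_lt h) hz⟩
  have ht : Tendsto (fun t : ℝ => z - t * Complex.I) (𝓝[>] 0) (𝓝 z) := by
    apply tendsto_nhdsWithin_of_tendsto_nhds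
    have h : Continuous fun t : ℝ => z - t * Complex.I := by fun_prop
    simpa using h.tendsto 0
  refine mem_closure_of_tendsto ht ?_
  filter_upwards [self_mem_nhdsWithin] with t ht
  have hz' : z.im = ψ z.re := hz
  have ht' : 0 < t := ht
  simp only [Complex.sub_im, Complex.mul_im, Complex.ofReal_re, Complex.I_im,
    mul_one, Complex.ofReal_im, Complex.I_re, mul_zero, add_zero, Complex.sub_re, Complex.mul_re,
    sub_self, sub_zero]
  linarith

/-- multiplication by a unit complex number -/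
noncomputable def a3_rot (e : ℂ) (he : ‖e‖ = 1) : ℂ ≃ₗᵢ[ℝ] ℂ :=
  rotation ⟨e, by simpa [Submonoid.unitSphere] using he⟩

theorem a3_rot_apply (e : ℂ) (he : ‖e‖ = 1) (z : ℂ) : a3_rot e he z = e * z := rfl

/-- the rigid motion `z ↦ p + e z` -/
noncomputable def a3_mot (p e : ℂ) (he : ‖e‖ = 1) : ℂ ≃ᵢ ℂ :=
  (a3_rot e he).toIsometryEquiv.trans (IsometryEquiv.addLeft p)

theorem a3_mot_apply (p e : ℂ) (he : ‖e‖ = 1) (z : ℂ) : a3_mot p e he z = p + e * z := rfl

theorem a3_mot_vol (p e : ℂ) (he : ‖e‖ = 1) : MeasurePreserving (a3_mot p e he) volume volume :=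
  (measurePreserving_add_left volume p).comp (a3_rot e he).measurePreserving

theorem a3_lip {K : NNReal} {ψ : ℝ → ℝ} (hψ : LipschitzWith K ψ) :
    LipschitzWith (1 + K) (graphMap ψ) := by
  apply LipschitzWith.of_dist_le_mul
  intro x y
  have h1 : graphMap ψ x - graphMap ψ y = ((x - y : ℝ) : ℂ) + ((ψ x - ψ y : ℝ) : ℂ) * Complex.I := by
    simp only [graphMap]
    push_cast
    ring
  have h2 := hψ.dist_le_mul x y
  rw [dist_eq_norm, h1]
  refine (norm_add_le _ _).trans ?_
  rw [norm_mul, Complex.norm_I, mul_one, Complex.norm_real, Complex.norm_real, ← dist_eq_norm,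
    ← dist_eq_norm]
  push_cast
  linarith

theorem a3_norm (a : ℝ) : ‖Complex.I - (a : ℂ)‖ = √(1 + a ^ 2) := by
  rw [Complex.norm_def, Complex.normSq_apply]
  congr 1
  simp
  ring

theorem a3_graph_integral {K : NNReal} {ψ : ℝ → ℝ} (hψ : LipschitzWith K ψ) (h : ℂ → ℂ) :
    ∫ z in range (graphMap ψ), h z ∂(Measure.hausdorffMeasure 1) =
      ∫ x : ℝ, (√(1 + deriv ψ x ^ 2) : ℝ) * h (graphMap ψ x) := by
  have hemb : MeasurableEmbedding (graphMap ψ) := by
    apply (a3_lip hψ).continuous.measurableEmbedding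
    intro x y hxy
    simpa [graphMap] using congrArg Complex.re hxy
  have hm : Measurable fun x => ENNReal.ofReal √(1 + deriv ψ x ^ 2) := by
    have := measurable_deriv ψ
    fun_prop
  rw [graph_measure hψ, hemb.integral_map,
    integral_withDensity_eq_integral_toReal_smul hm (by simp)]
  congr 1
  funext x
  rw [ENNReal.toReal_ofReal (Real.sqrt_nonneg _), Complex.real_smul]

theorem a3_chart {Ω : Set ℂ} {p e : ℂ} {r : ℝ} (he : ‖e‖ = 1) {K : NNReal} {ψ : ℝ → ℝ}
    (hψ : LipschitzWith K ψ) (h : ∀ z : ℂ, ‖z‖ < r → (p + e * z ∈ Ω ↔ z.im < ψ z.re)) :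
    LocalGG Ω (ball p r) := by
  set T := a3_mot p e he with hT
  set D : Set ℂ := {z : ℂ | z.im < ψ z.re} with hD
  set Γ : Set ℂ := range (graphMap ψ) with hΓ
  have hTa : ∀ z, T z = p + e * z := a3_mot_apply p e he
  have hT0 : T 0 = p := by simp [hTa]
  have hball : T ⁻¹' ball p r = ball 0 r := by
    rw [← hT0]
    exact T.isometry.preimage_ball 0 r
  have hemb : MeasurableEmbedding T := T.toHomeomorph.measurableEmbedding
  have hΩ : T ⁻¹' Ω ∩ ball 0 r = D ∩ ball 0 r := by
    ext z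
    simp only [mem_inter_iff, mem_preimage, mem_ball_zero_iff, hTa]
    exact ⟨fun hz => ⟨(h z hz.2).1 hz.1, hz.2⟩, fun hz => ⟨(h z hz.2).2 hz.1, hz.2⟩⟩
  have hfr : T ⁻¹' frontier Ω ∩ ball 0 r = Γ ∩ ball 0 r := by
    have h1 : T ⁻¹' frontier Ω = frontier (T ⁻¹' Ω) := T.toHomeomorph.preimage_frontier Ω
    rw [h1, ← frontier_inter_open_inter isOpen_ball, hΩ, frontier_inter_open_inter isOpen_ball,
      hD, a3_frontier hψ.continuous]
  have hρ : ∀ x, 0 < √(1 + deriv ψ x ^ 2) := fun x => Real.sqrt_pos.2 (by positivity)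
  have hee : e * conj e = 1 := by
    rw [Complex.mul_conj, Complex.normSq_eq_norm_sq, he]
    simp
  have hH := T.measurePreserving_hausdorffMeasure 1
  refine ⟨fun w => e * (Complex.I - (deriv ψ (T.symm w).re : ℝ)) /
    (√(1 + deriv ψ (T.symm w).re ^ 2) : ℝ), e * Complex.I, ?_, ?_, ?_, ?_, ?_⟩
  · have h1 : Measurable fun w => deriv ψ (T.symm w).re :=
      (measurable_deriv ψ).comp (Complex.measurable_re.comp T.symm.continuous.measurable)
    fun_prop
  · intro w
    rw [norm_div, norm_mul, he, one_mul, a3_norm, Complex.norm_real, Real.norm_eq_abs,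
      abs_of_pos (hρ _), div_self (hρ _).ne']
  · intro w
    have h1 : ∀ a s : ℝ, conj (e * Complex.I) * (e * (Complex.I - (a : ℂ)) / (s : ℂ)) =
        (1 + a * Complex.I) / s := by
      intro a s
      rw [map_mul, Complex.conj_I]
      have h2 : conj e * -Complex.I * (e * (Complex.I - (a : ℂ))) = 1 + a * Complex.I := by
        linear_combination (-Complex.I * (Complex.I - (a : ℂ))) * hee - Complex.I_mul_I
      rw [← h2]
      ring
    rw [h1, Complex.div_ofReal_re]
    simpa using hρ (T.symm w).re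
  · rw [bdry, Measure.restrict_apply measurableSet_ball,
      ← hH.measure_preimage_emb hemb, preimage_inter, hball, inter_comm, hfr]
    have h1 : Γ ∩ ball 0 r ⊆ graphMap ψ '' Icc (-r) r := by
      rintro z ⟨⟨x, rfl⟩, hz⟩
      refine ⟨x, ?_, rfl⟩
      rw [mem_ball_zero_iff] at hz
      have h2 := Complex.abs_re_le_norm (graphMap ψ x)
      have h3 : (graphMap ψ x).re = x := by simp [graphMap]
      rw [h3] at h2
      exact abs_le.1 (h2.trans hz.le)
    refine (measure_mono h1).trans_lt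
      (((a3_lip hψ).hausdorffMeasure_image_le zero_le_one _).trans_lt ?_)
    rw [hausdorffMeasure_real]
    apply ENNReal.mul_lt_top
    · simp
    · simp
  · intro f hf hc hs
    have hF : ContDiff ℝ 1 fun w => f (p + e * w) := by fun_prop
    have hFc : HasCompactSupport fun w => f (p + e * w) := hc.comp_homeomorph T.toHomeomorph
    have hout : ∀ z, z ∉ ball (0 : ℂ) r → T z ∉ tsupport f := by
      intro z hz hz'
      apply hz
      rw [← hball]
      exact hs hz'
    have key : ∀ (μ : Measure ℂ) (g : ℂ → ℂ) (A B : Set ℂ), (∀ z, z ∉ ball (0 : ℂ) r → g z = 0) →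
        A ∩ ball 0 r = B ∩ ball 0 r → ∫ z in A, g z ∂μ = ∫ z in B, g z ∂μ := by
      intro μ g A B hg hAB
      have h1 : ∀ C : Set ℂ, ∫ z in C, g z ∂μ = ∫ z in C ∩ ball 0 r, g z ∂μ := by
        intro C
        rw [inter_comm, ← Measure.restrict_restrict measurableSet_ball,
          setIntegral_eq_integral_of_forall_compl_eq_zero hg]
      rw [h1 A, h1 B, hAB]
    rw [← (a3_mot_vol p e he).setIntegral_preimage_emb hemb, bdry,
      ← hH.setIntegral_preimage_emb hemb,
      key volume _ _ _ (fun z hz => a3_dbar_eq_zero (hout z hz)) hΩ,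
      key _ _ _ _ (fun z hz => by rw [image_eq_zero_of_notMem_tsupport (hout z hz), zero_mul]) hfr,
      a3_graph_integral hψ]
    have h1 : ∀ z, dbar f (T z) = e * dbar (fun w => f (p + e * w)) z := by
      intro z
      rw [dbar_comp_affine p e z (hf.differentiable one_ne_zero _), ← mul_assoc, hee, one_mul, hTa]
    simp only [h1]
    rw [integral_const_mul, subgraph_gg hψ hF hFc, ← integral_const_mul]
    congr 1
    funext x
    have h3 : (graphMap ψ x).re = x := by simp [graphMap]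
    have h4 : ((√(1 + deriv ψ x ^ 2) : ℝ) : ℂ) ≠ 0 := by exact_mod_cast (hρ x).ne'
    rw [T.symm_apply_apply, h3, hTa, graphMap]
    field_simp

theorem local_gg {Ω : Set ℂ} (hΩ : IsOpen Ω) (hL : LipschitzBoundary Ω) (p : ℂ)
    (hp : p ∈ closure Ω) : ∃ U, IsOpen U ∧ p ∈ U ∧ LocalGG Ω U := by
  by_cases h : p ∈ Ω
  · exact ⟨Ω, hΩ, h, a3_interior hΩ⟩
  · obtain ⟨r, hr, e, he, K, ψ, hψ, hch⟩ := hL p (by rw [hΩ.frontier_eq]; exact ⟨hp, h⟩)
    exact ⟨ball p r, isOpen_ball, mem_ball_self hr, a3_chart he hψ hch⟩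

end Pool.Agent.P.MP_832dec_an
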