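import Pool.Agent.P.MP_832dec_an.GG

set_option autoImplicit false

open MeasureTheory Set Metric Filter Topology ComplexConjugate

namespace Pool.Agent.P.MP_832dec_an

section tools

variable {α E F H : Type*} [MeasurableSpace α] {μ : Measure α} [NormedAddCommGroup E]
  [NormedAddCommGroup F] [NormedAddCommGroup H]

theorem b_holder {a : α → E} {b : α → F} {h : α → H} (ha : AEStronglyMeasurable a μ)
    (hb : AEStronglyMeasurable b μ) (hle : ∀ᵐ x ∂μ, ‖h x‖ ≤ ‖a x‖ * ‖b x‖) :
    eLpNorm h 1 μ ≤ eLpNorm a 2 μ * eLpNorm b 2 μ := by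
  have h1 := eLpNorm_smul_le_mul_eLpNorm (p := 2) (q := 2) (r := 1) hb.norm ha.norm
  rw [eLpNorm_norm, eLpNorm_norm] at h1
  refine le_trans (eLpNorm_mono_ae (hle.mono fun x hx => ?_)) h1
  simpa using hx

theorem b_int {a : α → E} {b : α → F} {h : α → H} (ha : MemLp a 2 μ) (hb : MemLp b 2 μ)
    (hh : AEStronglyMeasurable h μ) (hle : ∀ᵐ x ∂μ, ‖h x‖ ≤ ‖a x‖ * ‖b x‖) : Integrable h μ :=
  memLp_one_iff_integrable.1 ⟨hh, (b_holder ha.1 hb.1 hle).trans_lt (ENNReal.mul_lt_top ha.2 hb.2)⟩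

theorem b_lim [NormedSpace ℝ H] {a : ℕ → α → E} {b : α → F} {h : ℕ → α → H} {k : α → H}
    (ha : ∀ n, MemLp (a n) 2 μ) (ha' : Tendsto (fun n => eLpNorm (a n) 2 μ) atTop (𝓝 0))
    (hb : MemLp b 2 μ) (hh : ∀ n, AEStronglyMeasurable (h n) μ) (hk : Integrable k μ)
    (hle : ∀ n, ∀ᵐ x ∂μ, ‖h n x - k x‖ ≤ ‖a n x‖ * ‖b x‖) :
    Tendsto (fun n => ∫ x, h n x ∂μ) atTop (𝓝 (∫ x, k x ∂μ)) := by
  refine tendsto_integral_of_L1 k hk.1 (Eventually.of_forall fun n => ?_) ?_
  · have := (b_int (h := h n - k) (ha n) hb ((hh n).sub hk.1) (hle n)).add hk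
    simpa using this
  · have h1 := ENNReal.Tendsto.mul_const (b := eLpNorm b 2 μ) ha' (Or.inr hb.2.ne)
    rw [zero_mul] at h1
    refine tendsto_of_tendsto_of_tendsto_of_le_of_le tendsto_const_nhds h1 (fun _ => zero_le)
      fun n => ?_
    have := b_holder (h := fun x => h n x - k x) (ha n).1 hb.1 (hle n)
    rwa [eLpNorm_one_eq_lintegral_enorm] at this

end tools

theorem b_F : ∃ F f : ℝ → ℝ, (∀ s, HasDerivAt F (f s) s) ∧ Continuous f ∧ (∀ s, 0 ≤ f s) ∧
    (∀ s, f s ≤ 1) ∧ (∀ s t, 0 ≤ t → f s ≤ |s - t|) ∧ (∀ s, 0 ≤ s → F s = 0) ∧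
    (∀ s, s < 0 → F s < 0) ∧ (∀ s t, |F s - F t| ≤ |s - t|) ∧ ContDiff ℝ 1 F := by
  set f : ℝ → ℝ := fun t => min 1 (max (-t) 0) with hf
  have hc : Continuous f := by fun_prop
  have h0 : ∀ s, 0 ≤ f s := fun s => le_min zero_le_one (le_max_right _ _)
  have h1 : ∀ s, f s ≤ 1 := fun s => min_le_left _ _
  have hd : ∀ s, HasDerivAt (fun s => ∫ t in (0 : ℝ)..s, f t) (f s) s := fun s =>
    (hc.integral_hasStrictDerivAt 0 s).hasDerivAt
  have hd' : deriv (fun s => ∫ t in (0 : ℝ)..s, f t) = f := funext fun s => (hd s).deriv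
  refine ⟨_, f, hd, hc, h0, h1, fun s t ht => (min_le_right _ _).trans
    (max_le (by linarith [neg_le_abs (s - t)]) (abs_nonneg _)), fun s hs => ?_, fun s hs => ?_,
    fun s t => ?_, contDiff_one_iff_deriv.2 ⟨fun s => (hd s).differentiableAt, hd'.symm ▸ hc⟩⟩
  · rw [intervalIntegral.integral_congr (g := fun _ => 0)]
    · simp
    · intro t ht
      rw [uIcc_of_le hs] at ht
      simp [hf, ht.1]
  · rw [intervalIntegral.integral_symm, neg_lt_zero]
    exact intervalIntegral.intervalIntegral_pos_of_pos_on (hc.intervalIntegrable _ _)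
      (fun t ht => lt_min one_pos (lt_max_of_lt_left (by linarith [ht.2]))) hs
  · have := (lipschitzWith_of_nnnorm_deriv_le (C := 1) (fun s => (hd s).differentiableAt)
      (fun s => by
        rw [hd', ← NNReal.coe_le_coe, coe_nnnorm, Real.norm_eq_abs, abs_of_nonneg (h0 s)]
        exact h1 s)).dist_le_mul s t
    simpa [Real.dist_eq] using this

theorem b_grad_cont {u : ℂ → ℝ} (hu : ContDiff ℝ 1 u) : Continuous (gradient u) := by
  have : gradient u = dbar fun w => (u w : ℂ) :=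
    funext fun z => (dbar_ofReal (hu.differentiable one_ne_zero z)).symm
  rw [this]
  exact continuous_dbar (Complex.ofRealCLM.contDiff.comp hu)

theorem b_grad_comp {u : ℂ → ℝ} {F : ℝ → ℝ} {z : ℂ} {y : ℝ} (hu : DifferentiableAt ℝ u z)
    (hF : HasDerivAt F y (u z)) : gradient (fun w => F (u w)) z = y * gradient u z := by
  have := (hF.comp_hasFDerivAt z hu.hasFDerivAt).fderiv
  rw [gradient, gradient, show (fun w => F (u w)) = F ∘ u from rfl, this, map_smul]
  simp

theorem b_grad_re {φ : ℂ → ℂ} (hφ : Differentiable ℂ φ) (z : ℂ) :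
    gradient (fun w => (φ w).re) z = conj (deriv φ z) := by
  have h1 := Complex.reCLM.hasFDerivAt.comp z
    ((hφ z).hasDerivAt.hasFDerivAt.restrictScalars ℝ)
  refine HasGradientAt.gradient (hasGradientAt_iff_hasFDerivAt.2 (h1.congr_fderiv ?_))
  ext w
  simp [Complex.inner]

theorem b_memΩ {Ω : Set ℂ} {μ : Measure ℂ} {ν : ℂ → ℂ} (h : GG Ω μ ν) {E : Type*}
    [NormedAddCommGroup E] [SecondCountableTopology E] {f : ℂ → E} (hf : Continuous f) :
    MemLp f 2 (volume.restrict Ω) :=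
  (memLp_two_iff_integrable_sq_norm hf.aestronglyMeasurable).2 (h.integrableOn (by fun_prop))

theorem b_memμ {Ω : Set ℂ} {μ : Measure ℂ} {ν : ℂ → ℂ} (h : GG Ω μ ν) {E : Type*}
    [NormedAddCommGroup E] [SecondCountableTopology E] {f : ℂ → E} (hf : Continuous f) :
    MemLp f 2 μ :=
  (memLp_two_iff_integrable_sq_norm hf.aestronglyMeasurable).2 (h.integrable (by fun_prop))

theorem weak_nonneg {Ω : Set ℂ} {ν : ℂ → ℂ} {β : ℝ} {u g : ℂ → ℝ} {G : ℂ → ℂ} (hβ : 0 < β)
    (h : GG Ω (bdry Ω) ν) (hT : HasTrace Ω u G g)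
    (hE : ∀ φ : ℂ → ℝ, ContDiff ℝ 1 φ →
      (∫ z in Ω, inner ℝ (G z) (gradient φ z)) + β * ∫ z, g z * φ z ∂(bdry Ω) = ∫ z in Ω, φ z) :
    ∀ᵐ z ∂(volume.restrict Ω), 0 ≤ u z := by
  obtain ⟨F, f, hd, hc, f0, f1, -, F0, F1, FL, FC⟩ := b_F
  obtain ⟨hu, hG, hg, U, hU, t1, t2, t3⟩ := hT
  have Fc := FC.continuous
  have Fa : ∀ s, |F s| ≤ |s| := fun s => by simpa [F0 0 le_rfl] using FL s 0
  have Fn : ∀ s, F s ≤ 0 := fun s => (le_or_gt 0 s).elim (fun a => (F0 s a).le) fun a => (F1 s a).le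
  have Uc : ∀ n, Continuous (U n) := fun n => (hU n).continuous
  have Gc : ∀ n, Continuous (gradient (U n)) := fun n => b_grad_cont (hU n)
  have one : MemLp (fun _ : ℂ => (1 : ℝ)) 2 (volume.restrict Ω) := b_memΩ h continuous_const
  have iu : Integrable (fun z => F (u z)) (volume.restrict Ω) :=
    b_int hu one (Fc.comp_aestronglyMeasurable hu.1) (.of_forall fun z => by simpa using Fa _)
  have ig : Integrable (fun z => g z * F (g z)) (bdry Ω) :=
    b_int hg hg (hg.1.mul (Fc.comp_aestronglyMeasurable hg.1)) (.of_forall fun z => by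
      rw [norm_mul]; exact mul_le_mul_of_nonneg_left (Fa _) (norm_nonneg _))
  have l1 := b_lim (h := fun n z => F (U n z)) (fun n => (b_memΩ h (Uc n)).sub hu) t1 one
    (fun n => (Fc.comp (Uc n)).aestronglyMeasurable) iu
    (fun n => .of_forall fun z => by simpa using FL _ _)
  have l2 := b_lim (h := fun n z => g z * F (U n z)) (fun n => (b_memμ h (Uc n)).sub hg) t3 hg
    (fun n => hg.1.mul (Fc.comp (Uc n)).aestronglyMeasurable) ig
    (fun n => .of_forall fun z => by
      rw [← mul_sub, norm_mul, mul_comm]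
      exact mul_le_mul_of_nonneg_right (FL _ _) (norm_nonneg _))
  have m3 : ∀ n, AEStronglyMeasurable (fun z => f (U n z) * inner ℝ (G z) (gradient (U n) z - G z))
      (volume.restrict Ω) := fun n =>
    (hc.comp (Uc n)).aestronglyMeasurable.mul (hG.1.inner ((Gc n).aestronglyMeasurable.sub hG.1))
  have b3 : ∀ n z, ‖f (U n z) * inner ℝ (G z) (gradient (U n) z - G z)‖ ≤
      ‖(gradient (U n) - G) z‖ * ‖G z‖ := fun n z => by
    rw [norm_mul, Real.norm_of_nonneg (f0 _), mul_comm ‖_‖]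
    exact (mul_le_of_le_one_left (norm_nonneg _) (f1 _)).trans (norm_inner_le_norm _ _)
  have l3 := b_lim (k := fun _ => (0 : ℝ)) (fun n => (b_memΩ h (Gc n)).sub hG) t2 hG m3
    (integrable_zero _ _ _) (fun n => .of_forall fun z => by simpa only [sub_zero] using b3 n z)
  have key : ∀ n, (∫ z in Ω, f (U n z) * inner ℝ (G z) (gradient (U n) z - G z)) +
      β * ∫ z, g z * F (U n z) ∂(bdry Ω) ≤ ∫ z in Ω, F (U n z) := by
    intro n
    have c1 : ContDiff ℝ 1 fun z => F (U n z) := FC.comp (hU n)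
    rw [← hE _ c1]
    refine add_le_add_left (integral_mono
      (b_int ((b_memΩ h (Gc n)).sub hG) hG (m3 n) (.of_forall (b3 n)))
      (b_int hG (b_memΩ h (b_grad_cont c1)) (hG.1.inner (b_grad_cont c1).aestronglyMeasurable)
        (.of_forall fun z => norm_inner_le_norm _ _)) fun z => ?_) _
    simp only [b_grad_comp ((hU n).differentiable one_ne_zero z) (hd _), inner_sub_right]
    rw [← Complex.real_smul, inner_smul_right]
    exact mul_le_mul_of_nonneg_left (by linarith [real_inner_self_nonneg (x := G z)]) (f0 _)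
  have h1 := le_of_tendsto_of_tendsto' (l3.add (l2.const_mul β)) l1 key
  have h2 : 0 ≤ ∫ z, g z * F (g z) ∂(bdry Ω) := integral_nonneg fun z =>
    (le_or_gt 0 (g z)).elim (fun a => by simp [F0 _ a])
      fun a => mul_nonneg_of_nonpos_of_nonpos a.le (Fn _)
  have h3 : ∫ z in Ω, -F (u z) = 0 := by
    refine le_antisymm ?_ (integral_nonneg fun z => neg_nonneg.2 (Fn _))
    rw [integral_neg, neg_nonpos]
    refine le_trans ?_ h1
    simp only [integral_zero, zero_add]
    positivity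
  rw [integral_eq_zero_iff_of_nonneg (fun z => neg_nonneg.2 (Fn _)) iu.neg] at h3
  filter_upwards [h3] with z hz
  by_contra hc
  exact (F1 _ (not_le.1 hc)).ne (neg_eq_zero.1 hz)

theorem trace_ge {Ω : Set ℂ} {ν X : ℂ → ℂ} {u g : ℂ → ℝ} {G : ℂ → ℂ}
    (h : GG Ω (bdry Ω) ν) (hX : ContDiff ℝ 1 X)
    (hX' : ∀ᵐ z ∂(bdry Ω), 0 < (conj (X z) * ν z).re) (hT : HasTrace Ω u G g) (c : ℝ)
    (hu : ∀ᵐ z ∂(volume.restrict Ω), c ≤ u z) : ∀ᵐ z ∂(bdry Ω), c ≤ g z := by
  obtain ⟨F, f, hd, hc, f0, f1, f2, F0, F1, FL, FC⟩ := b_F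
  obtain ⟨hu', hG, hg, U, hU, t1, t2, t3⟩ := hT
  have Fc := FC.continuous
  have Fa : ∀ s, |F s| ≤ |s| := fun s => by simpa [F0 0 le_rfl] using FL s 0
  have Fn : ∀ s, F s ≤ 0 := fun s => (le_or_gt 0 s).elim (fun a => (F0 s a).le) fun a => (F1 s a).le
  have Uc : ∀ n, Continuous (U n) := fun n => (hU n).continuous
  have Gc : ∀ n, Continuous (gradient (U n)) := fun n => b_grad_cont (hU n)
  have hY : ContDiff ℝ 1 fun z => conj (X z) := Complex.conjCLE.contDiff.comp hX
  have Xc := hX.continuous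
  have c1 : ∀ n, ContDiff ℝ 1 fun z => F (U n z - c) := fun n =>
    FC.comp ((hU n).sub contDiff_const)
  have c2 : ∀ n, ContDiff ℝ 1 fun z => (F (U n z - c) : ℂ) := fun n =>
    Complex.ofRealCLM.contDiff.comp (c1 n)
  have mg : AEStronglyMeasurable (fun z => (F (g z - c) : ℂ) * conj (X z) * ν z) (bdry Ω) :=
    (((Complex.continuous_ofReal.comp Fc).comp_aestronglyMeasurable
      (hg.1.sub aestronglyMeasurable_const)).mul hY.continuous.aestronglyMeasurable).mul
      h.meas.aestronglyMeasurable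
  have ig : Integrable (fun z => (F (g z - c) : ℂ) * conj (X z) * ν z) (bdry Ω) :=
    b_int (hg.sub (b_memμ h (continuous_const (y := c)))) (b_memμ h Xc) mg (.of_forall fun z => by
      simp only [norm_mul, h.unit, mul_one, Complex.norm_conj, Complex.norm_real]
      exact mul_le_mul_of_nonneg_right (Fa _) (norm_nonneg _))
  have l1 := b_lim (h := fun n z => (F (U n z - c) : ℂ) * conj (X z) * ν z)
    (fun n => (b_memμ h (Uc n)).sub hg) t3 (b_memμ h Xc)
    (fun n => ((c2 n).mul hY).continuous.aestronglyMeasurable.mul h.meas.aestronglyMeasurable) ig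
    (fun n => .of_forall fun z => by
      rw [← sub_mul, ← sub_mul, ← Complex.ofReal_sub]
      simp only [norm_mul, h.unit, mul_one, Complex.norm_conj, Complex.norm_real]
      exact mul_le_mul_of_nonneg_right (by simpa using FL (U n z - c) (g z - c)) (norm_nonneg _))
  obtain ⟨C, hC⟩ := h.bdd.isCompact_closure.exists_bound_of_continuousOn Xc.continuousOn
  have mb : MemLp (fun z => ‖X z‖ + ‖G z‖ * ‖X z‖ + ‖dbar (fun z => conj (X z)) z‖) 2
      (volume.restrict Ω) := by
    refine ((b_memΩ h Xc.norm).add (hG.of_le_mul (c := C)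
      (hG.1.norm.mul Xc.norm.aestronglyMeasurable) ?_)).add (b_memΩ h (continuous_dbar hY).norm)
    filter_upwards [ae_restrict_mem h.isOpen.measurableSet] with z hz
    rw [Pi.mul_apply, norm_mul, norm_norm, norm_norm, mul_comm]
    exact mul_le_mul_of_nonneg_right (hC z (subset_closure hz)) (norm_nonneg _)
  have ma : ∀ n, MemLp (fun z => ‖(gradient (U n) - G) z‖) 2 (volume.restrict Ω) := fun n =>
    ((b_memΩ h (Gc n)).sub hG).norm
  have ma' : ∀ n, MemLp (fun z => ‖(U n - u) z‖) 2 (volume.restrict Ω) := fun n =>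
    ((b_memΩ h (Uc n)).sub hu').norm
  have t4 : Tendsto (fun n => eLpNorm ((fun z => ‖(gradient (U n) - G) z‖) +
      fun z => ‖(U n - u) z‖) 2 (volume.restrict Ω)) atTop (𝓝 0) := by
    have := t2.add t1
    rw [add_zero] at this
    refine tendsto_of_tendsto_of_tendsto_of_le_of_le tendsto_const_nhds this (fun _ => zero_le)
      fun n => ?_
    have := eLpNorm_add_le (ma n).1 (ma' n).1 one_le_two
    rwa [eLpNorm_norm, eLpNorm_norm] at this
  have l2 := b_lim (h := fun n => dbar fun z => (F (U n z - c) : ℂ) * conj (X z))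
    (k := fun _ => (0 : ℂ)) (fun n => (ma n).add (ma' n)) t4 mb
    (fun n => (continuous_dbar ((c2 n).mul hY)).aestronglyMeasurable) (integrable_zero _ _ _)
    (fun n => by
      filter_upwards [hu] with z hz
      have d1 := (hU n).differentiable one_ne_zero z
      have e1 : gradient (fun w => F (U n w - c)) z = f (U n z - c) * gradient (U n) z :=
        b_grad_comp (F := fun s => F (s - c)) d1 ((hd _).comp_sub_const _ c)
      rw [sub_zero, dbar_mul ((c2 n).differentiable one_ne_zero z) (hY.differentiable one_ne_zero z),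
        dbar_ofReal ((c1 n).differentiable one_ne_zero z), e1]
      have a1 : f (U n z - c) ≤ |U n z - u z| := by simpa using f2 (U n z - c) (u z - c) (by linarith)
      have a2 : |F (U n z - c)| ≤ |U n z - u z| := by
        simpa [F0 (u z - c) (by linarith)] using FL (U n z - c) (u z - c)
      have a3 : ‖gradient (U n) z‖ ≤ ‖gradient (U n) z - G z‖ + ‖G z‖ := norm_le_norm_sub_add _ _
      refine (norm_add_le _ _).trans ?_
      simp only [norm_mul, Complex.norm_conj, Complex.norm_real, Real.norm_eq_abs, Pi.add_apply,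
        Pi.sub_apply, abs_of_nonneg (f0 _)]
      rw [abs_of_nonneg (a := ‖_‖ + |_|) (by positivity),
        abs_of_nonneg (a := _ + ‖_‖) (by positivity)]
      have a4 := f0 (U n z - c)
      have a5 := f1 (U n z - c)
      generalize f (U n z - c) = y at *
      generalize |F (U n z - c)| = Y at *
      have p1 := abs_nonneg (U n z - u z)
      generalize |U n z - u z| = r at *
      have p2 := norm_nonneg (gradient (U n) z - G z)
      generalize ‖gradient (U n) z - G z‖ = s at *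
      have p3 := norm_nonneg (G z)
      generalize ‖G z‖ = γ at *
      have p4 := norm_nonneg (X z)
      generalize ‖X z‖ = x at *
      have p5 := norm_nonneg (dbar (fun z => conj (X z)) z)
      generalize ‖dbar (fun z => conj (X z)) z‖ = D at *
      have q1 : y * ‖gradient (U n) z‖ ≤ s + r * γ := by nlinarith
      have q2 := mul_le_mul_of_nonneg_right q1 p4
      have q3 := mul_le_mul_of_nonneg_right a2 p5
      have q4 : 0 ≤ s * (γ * x) + s * D + r * x := by positivity
      nlinarith)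
  have h1 : ∫ z, (F (g z - c) : ℂ) * conj (X z) * ν z ∂(bdry Ω) = 0 := by
    rw [integral_zero] at l2
    exact tendsto_nhds_unique l1 (l2.congr fun n => h.gg _ ((c2 n).mul hY))
  have h2 : ∫ z, -((F (g z - c) : ℂ) * conj (X z) * ν z).re ∂(bdry Ω) = 0 := by
    have := integral_re ig
    simp only [RCLike.re_to_complex] at this
    rw [integral_neg, this, h1]; simp
  have e : ∀ z, ((F (g z - c) : ℂ) * conj (X z) * ν z).re = F (g z - c) * (conj (X z) * ν z).re :=
    fun z => by rw [mul_assoc, Complex.re_ofReal_mul]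
  have h3 := (integral_eq_zero_iff_of_nonneg_ae
    (f := fun z => -((F (g z - c) : ℂ) * conj (X z) * ν z).re) (by
    filter_upwards [hX'] with z hz
    rw [e]
    exact neg_nonneg.2 (mul_nonpos_of_nonpos_of_nonneg (Fn _) hz.le)) ig.re.neg).1 h2
  filter_upwards [h3, hX'] with z hz hz'
  by_contra hc
  rw [e] at hz
  exact (mul_neg_of_neg_of_pos (F1 _ (by linarith)) hz').ne (neg_eq_zero.1 hz)

theorem weak_holo {Ω : Set ℂ} {ν : ℂ → ℂ} {β : ℝ} {u g : ℂ → ℝ} {G : ℂ → ℂ}
    (h : GG Ω (bdry Ω) ν) (hT : HasTrace Ω u G g)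
    (hE : ∀ φ : ℂ → ℝ, ContDiff ℝ 1 φ →
      (∫ z in Ω, inner ℝ (G z) (gradient φ z)) + β * ∫ z, g z * φ z ∂(bdry Ω) = ∫ z in Ω, φ z)
    {φ : ℂ → ℂ} (hφ : Differentiable ℂ φ) :
    ∫ z in Ω, φ z = ∫ z, (g z : ℂ) * (deriv φ z * ν z + β * φ z) ∂(bdry Ω) := by
  obtain ⟨-, hG, hg, U, hU, -, t2, t3⟩ := hT
  have Uc : ∀ n, Continuous (U n) := fun n => (hU n).continuous
  have Gc : ∀ n, Continuous (gradient (U n)) := fun n => b_grad_cont (hU n)
  have mg : AEStronglyMeasurable (fun z => (g z : ℂ)) (bdry Ω) :=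
    Complex.continuous_ofReal.comp_aestronglyMeasurable hg.1
  have i1 : ∀ ψ : ℂ → ℂ, Continuous ψ → Integrable (fun z => G z * ψ z) (volume.restrict Ω) :=
    fun ψ hψ => b_int hG (b_memΩ h hψ) (hG.1.mul hψ.aestronglyMeasurable)
      (.of_forall fun z => (norm_mul _ _).le)
  have i2 : ∀ ψ : ℂ → ℂ, Continuous ψ → Integrable (fun z => (g z : ℂ) * ψ z) (bdry Ω) :=
    fun ψ hψ => b_int hg (b_memμ h hψ) (mg.mul hψ.aestronglyMeasurable)
      (.of_forall fun z => by simp)
  have key : ∀ ψ : ℂ → ℂ, Differentiable ℂ ψ → ((∫ z in Ω, G z * deriv ψ z) +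
      β * (∫ z, (g z : ℂ) * ψ z ∂(bdry Ω)) - ∫ z in Ω, ψ z).re = 0 := by
    intro ψ hψ
    have h1 := hE (fun z => (ψ z).re)
      (Complex.reCLM.contDiff.comp (hψ.contDiff.restrict_scalars ℝ))
    have a1 := integral_re (i1 _ hψ.deriv.continuous)
    have a2 := integral_re (i2 _ hψ.continuous)
    have a3 := integral_re (h.integrableOn hψ.continuous)
    simp only [RCLike.re_to_complex] at a1 a2 a3
    rw [Complex.sub_re, Complex.add_re, Complex.re_ofReal_mul, ← a1, ← a2, ← a3, ← h1, sub_eq_zero]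
    congr 1
    · refine integral_congr_ae (.of_forall fun z => ?_)
      simp only [b_grad_re hψ, Complex.inner]
      simp; ring
    · simp
  have k1 := key φ hφ
  have k2 := key (fun z => Complex.I * φ z) (hφ.const_mul _)
  have k3 : (∫ z in Ω, G z * deriv φ z) + β * (∫ z, (g z : ℂ) * φ z ∂(bdry Ω)) -
      ∫ z in Ω, φ z = 0 := by
    simp only [deriv_const_mul_field', mul_left_comm _ Complex.I, integral_const_mul] at k2
    rw [← mul_add, ← mul_sub, Complex.I_mul_re, neg_eq_zero] at k2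
    exact Complex.ext k1 k2
  have dc := hφ.deriv.continuous
  have i3 : Integrable (fun z => (g z : ℂ) * deriv φ z * ν z) (bdry Ω) :=
    b_int hg (b_memμ h dc) ((mg.mul dc.aestronglyMeasurable).mul h.meas.aestronglyMeasurable)
      (.of_forall fun z => by simp [h.unit])
  have c2 : ∀ n, ContDiff ℝ 1 fun z => (U n z : ℂ) := fun n =>
    Complex.ofRealCLM.contDiff.comp (hU n)
  have c3 : ContDiff ℝ 1 (deriv φ) := hφ.deriv.contDiff.restrict_scalars ℝ
  have l1 := b_lim (h := fun n z => (U n z : ℂ) * deriv φ z * ν z)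
    (fun n => (b_memμ h (Uc n)).sub hg) t3 (b_memμ h dc)
    (fun n => ((c2 n).mul c3).continuous.aestronglyMeasurable.mul h.meas.aestronglyMeasurable) i3
    (fun n => .of_forall fun z => by
      rw [← sub_mul, ← sub_mul, ← Complex.ofReal_sub]
      simp only [norm_mul, h.unit, mul_one, Complex.norm_real, Pi.sub_apply, le_refl])
  have l2 := b_lim (h := fun n => dbar fun z => (U n z : ℂ) * deriv φ z)
    (fun n => (b_memΩ h (Gc n)).sub hG) t2 (b_memΩ h dc)
    (fun n => (continuous_dbar ((c2 n).mul c3)).aestronglyMeasurable) (i1 _ dc)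
    (fun n => .of_forall fun z => by
      rw [dbar_mul ((c2 n).differentiable one_ne_zero z) (c3.differentiable one_ne_zero z),
        dbar_ofReal ((hU n).differentiable one_ne_zero z), dbar_holo (hφ.deriv z), mul_zero,
        add_zero, ← sub_mul, norm_mul, Pi.sub_apply])
  have k4 := tendsto_nhds_unique l1 (l2.congr fun n => h.gg _ ((c2 n).mul c3))
  have k5 : ∫ z, (g z : ℂ) * (deriv φ z * ν z + β * φ z) ∂(bdry Ω) =
      (∫ z, (g z : ℂ) * deriv φ z * ν z ∂(bdry Ω)) + β * ∫ z, (g z : ℂ) * φ z ∂(bdry Ω) := by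
    rw [← integral_const_mul, ← integral_add i3 ((i2 _ hφ.continuous).const_mul _)]
    exact integral_congr_ae (.of_forall fun z => by ring)
  rw [k5, k4]
  exact (sub_eq_zero.1 k3).symm

end Pool.Agent.P.MP_832dec_an
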