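import Pool.Agent.P.MP_832dec_an.Transport
import Pool.Agent.P.MP_832dec_an.Global
import Pool.Agent.P.MP_832dec_an.Local
import Pool.Agent.P.MP_832dec_an.Weak

set_option autoImplicit false

open MeasureTheory Set Metric Filter Topology ComplexConjugate Real

namespace Pool.Agent.P.MP_832dec_an

theorem vol_ball_radius {R : ℝ} (hR : 0 ≤ R) (x : ℂ) : (volume (ball x R)).toReal = π * R ^ 2 := by
  rw [Complex.volume_ball, ENNReal.toReal_mul, ENNReal.toReal_pow, ENNReal.toReal_ofReal hR]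
  simp [mul_comm]

theorem asym_nonneg (Ω : Set ℂ) : 0 ≤ asym Ω := Real.iInf_nonneg fun _ => by positivity

theorem asym_le (Ω : Set ℂ) (x : ℂ) : asym Ω ≤
    (volume (symmDiff Ω (ball x (radius Ω)))).toReal / (volume (ball x (radius Ω))).toReal :=
  ciInf_le ⟨0, by rintro _ ⟨y, rfl⟩; positivity⟩ x

theorem radius_sq (Ω : Set ℂ) : π * radius Ω ^ 2 = (volume Ω).toReal := by
  rw [radius, Real.sq_sqrt (by positivity)]
  field_simp

theorem radius_nonneg (Ω : Set ℂ) : 0 ≤ radius Ω := Real.sqrt_nonneg _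

theorem asym_le_two {Ω : Set ℂ} (hb : Bornology.IsBounded Ω) : asym Ω ≤ 2 := by
  refine (asym_le Ω 0).trans (div_le_of_le_mul₀ (by positivity) (by positivity) ?_)
  have h1 : (volume (symmDiff Ω (ball 0 (radius Ω)))).toReal ≤
      (volume Ω).toReal + (volume (ball (0 : ℂ) (radius Ω))).toReal := by
    rw [← ENNReal.toReal_add hb.measure_lt_top.ne measure_ball_lt_top.ne]
    exact ENNReal.toReal_mono (ENNReal.add_ne_top.mpr ⟨hb.measure_lt_top.ne, measure_ball_lt_top.ne⟩)
      ((measure_mono symmDiff_subset_union).trans (measure_union_le _ _))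
  rw [vol_ball_radius (radius_nonneg Ω)] at h1 ⊢
  have := radius_sq Ω
  linarith

/-- a lower bound on the solution close to the minimum on the disc forces small asymmetry -/
theorem key {Ω : Set ℂ} {β τ δ : ℝ} {u : ℂ → ℝ} (hβ : 0 < β) (hΩ : IsOpen Ω)
    (hb : Bornology.IsBounded Ω) (hL : LipschitzBoundary Ω) (hR : 0 < radius Ω)
    (hu : IsRobinSolution Ω β u) (hτ : 0 < τ) (hτ' : τ ≤ 1 / 2) (hδ0 : 0 ≤ δ)
    (hδ : (40 * β / radius Ω + 7 / radius Ω ^ 2) * δ = τ ^ 8 / 400)
    (hlow : ∀ᵐ z ∂(volume.restrict Ω), radius Ω / (2 * β) - δ < |u z|) :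
    π * asym Ω ≤ 10 ^ 9 * τ ^ 5 := by
  obtain ⟨G, g, hT, hE⟩ := hu
  obtain ⟨ν, X, hG, hX, hX'⟩ := exists_GG hΩ hb (local_gg hΩ hL)
  have := hG.fin
  have h0 := weak_nonneg hβ hG hT hE
  have h1 : ∀ᵐ z ∂(volume.restrict Ω), radius Ω / (2 * β) - δ ≤ u z := by
    filter_upwards [h0, hlow] with z a b
    rw [abs_of_nonneg a] at b
    exact b.le
  have hS : Sol Ω ν β (radius Ω / (2 * β) - δ) G g :=
    ⟨hG, hT.2.2.1.integrable one_le_two, trace_ge hG hX hX' hT _ h1, hE,
      fun φ hφ => weak_holo hG hT hE hφ⟩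
  have h8 : τ ^ 8 ≤ 1 := pow_le_one₀ hτ.le (by linarith)
  have hδ' : β * δ ≤ radius Ω / 10 := by
    have a1 : 0 ≤ 7 / radius Ω ^ 2 * δ := by positivity
    have a2 : 40 * β / radius Ω * δ ≤ 1 := by linarith
    rw [div_mul_eq_mul_div, div_le_one hR] at a2
    linarith
  obtain ⟨p, hp⟩ := hS.core hβ hR hδ0 hδ' (radius_sq Ω).symm
  rw [hδ] at hp
  have h2 := hp.main hτ hτ'
  have h3 : aff p hR ⁻¹' ball p (radius Ω) = ball 0 1 := by
    ext w
    rw [mem_preimage, aff_apply, mem_ball, dist_self_add_left, mem_ball_zero_iff, norm_mul,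
      Complex.norm_real, Real.norm_of_nonneg hR.le]
    exact mul_lt_iff_lt_one_right hR
  rw [← h3, ← preimage_symmDiff, vol_aff] at h2
  have h4 := asym_le Ω p
  rw [vol_ball_radius hR.le, le_div_iff₀ (by positivity)] at h4
  refine le_trans ?_ h2
  rw [le_inv_mul_iff₀ (by positivity)]
  linarith

/-- from the sup norm of `v - w` to a lower bound on `|u|` -/
theorem low_of_eLpNorm {Ω : Set ℂ} {β δ : ℝ} {u w : ℂ → ℝ} (hΩ : IsOpen Ω)
    (hb : Bornology.IsBounded Ω) (hu : AEStronglyMeasurable u (volume.restrict Ω))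
    (hw : Equimeasurable Ω u w) (hδ : δ ≤ radius Ω / (2 * β))
    (h : eLpNorm (discSolution β (radius Ω) - w) ⊤ (volume.restrict (ball 0 (radius Ω))) <
      ENNReal.ofReal δ) :
    ∀ᵐ z ∂(volume.restrict Ω), radius Ω / (2 * β) - δ < |u z| := by
  have h1 := hw (radius Ω / (2 * β) - δ) (by linarith)
  rw [eLpNorm_exponent_top] at h
  have h2 : ∀ᵐ z ∂(volume.restrict (ball (0 : ℂ) (radius Ω))), radius Ω / (2 * β) - δ < w z := by
    filter_upwards [ae_le_eLpNormEssSup (f := discSolution β (radius Ω) - w),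
      ae_restrict_mem measurableSet_ball] with z a b
    have c := a.trans_lt h
    rw [← ofReal_norm, ENNReal.ofReal_lt_ofReal_iff_of_nonneg (norm_nonneg _),
      Real.norm_eq_abs, Pi.sub_apply, discSolution] at c
    have d := (abs_lt.mp c).2
    rw [mem_ball_zero_iff] at b
    have e : ‖z‖ ^ 2 ≤ radius Ω ^ 2 := by gcongr
    linarith
  have h3 : volume {z ∈ ball (0 : ℂ) (radius Ω) | radius Ω / (2 * β) - δ < w z} =
      volume (ball (0 : ℂ) (radius Ω)) := by
    refine measure_congr ?_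
    filter_upwards [(ae_restrict_iff' measurableSet_ball).mp h2] with z hz
    exact propext ⟨fun a => a.1, fun a => ⟨a, hz a⟩⟩
  have h4 : volume (ball (0 : ℂ) (radius Ω)) = volume Ω := by
    rw [← ENNReal.toReal_eq_toReal_iff' measure_ball_lt_top.ne hb.measure_lt_top.ne,
      vol_ball_radius (radius_nonneg Ω), radius_sq]
  have hn : NullMeasurableSet {z | radius Ω / (2 * β) - δ < |u z|} (volume.restrict Ω) :=
    nullMeasurableSet_lt aemeasurable_const (continuous_abs.measurable.comp_aemeasurable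
      hu.aemeasurable)
  have : IsFiniteMeasure (volume.restrict Ω) := isFiniteMeasure_restrict.mpr hb.measure_lt_top.ne
  rw [ae_iff_measure_eq hn, Measure.restrict_apply' hΩ.measurableSet,
    Measure.restrict_apply_univ, ← h4, ← h3, h1]
  congr 1
  ext z
  exact and_comm

end Pool.Agent.P.MP_832dec_an
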