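import Pool.Agent.P.MP_832dec_an.Core1

set_option autoImplicit false

open MeasureTheory Set Metric Filter Topology ComplexConjugate Real

namespace Pool.Agent.P.MP_832dec_an

/-- the facts about a solution bounded below by `c` that the proof uses -/
structure Sol (Ω : Set ℂ) (ν : ℂ → ℂ) (β c : ℝ) (G : ℂ → ℂ) (g : ℂ → ℝ) : Prop where
  gg : GG Ω (bdry Ω) ν
  gint : Integrable g (bdry Ω)
  gge : ∀ᵐ z ∂(bdry Ω), c ≤ g z
  weak : ∀ φ : ℂ → ℝ, ContDiff ℝ 1 φ →
    (∫ z in Ω, inner ℝ (G z) (gradient φ z)) + β * ∫ z, g z * φ z ∂(bdry Ω) = ∫ z in Ω, φ z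
  holo : ∀ φ : ℂ → ℂ, Differentiable ℂ φ →
    ∫ z in Ω, φ z = ∫ z, (g z : ℂ) * (deriv φ z * ν z + β * φ z) ∂(bdry Ω)

variable {Ω : Set ℂ} {μ : Measure ℂ} {ν G : ℂ → ℂ} {β c : ℝ} {g : ℂ → ℝ}

/-- A `C¹` function that equals the indicator of an open set `V` on the closure of `Ω` cuts out a
piece of `Ω` with its own Gauss-Green formula. -/
theorem GG.piece (h : GG Ω μ ν) {V : Set ℂ} (hV : IsOpen V) {χ : ℂ → ℝ} (hχ : ContDiff ℝ 1 χ)
    (hχV : ∀ z ∈ closure Ω, χ z = V.indicator 1 z) (hd : ∀ z ∈ Ω, fderiv ℝ χ z = 0) :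
    GG (Ω ∩ V) (μ.restrict V) ν where
  isOpen := h.isOpen.inter hV
  bdd := h.bdd.subset inter_subset_left
  fin := by have := h.fin; infer_instance
  meas := h.meas
  unit := h.unit
  supp := by
    filter_upwards [ae_restrict_of_ae h.supp, ae_restrict_mem hV.measurableSet] with z h1 h2
    exact hV.closure_inter ⟨h1, h2⟩
  gg := by
    intro f hf
    have hc : ContDiff ℝ 1 fun z => (χ z : ℂ) := Complex.ofRealCLM.contDiff.comp hχ
    have h1 := h.gg (fun z => (χ z : ℂ) * f z) (hc.mul hf)
    have h2 : ∫ z in Ω, dbar (fun z => (χ z : ℂ) * f z) z = ∫ z in Ω, V.indicator (dbar f) z := by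
      refine setIntegral_congr_fun h.isOpen.measurableSet fun z hz => ?_
      rw [dbar_mul (hc.differentiable one_ne_zero z) (hf.differentiable one_ne_zero z),
        dbar_ofReal (hχ.differentiable one_ne_zero z), gradient, hd z hz, map_zero, zero_mul,
        zero_add, hχV z (subset_closure hz)]
      by_cases hz' : z ∈ V <;> simp [hz']
    have h3 : ∫ z, (χ z : ℂ) * f z * ν z ∂μ = ∫ z, V.indicator (fun z => f z * ν z) z ∂μ := by
      refine integral_congr_ae ?_
      filter_upwards [h.supp] with z hz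
      rw [hχV z hz]
      by_cases hz' : z ∈ V <;> simp [hz']
    rw [h2, h3, setIntegral_indicator hV.measurableSet, integral_indicator hV.measurableSet] at h1
    exact h1

theorem Sol.piece (h : Sol Ω ν β c G g) (hβ : 0 < β) {V : Set ℂ} (hV : IsOpen V) {χ : ℂ → ℝ}
    (hχ : ContDiff ℝ 1 χ) (hχV : ∀ z ∈ closure Ω, χ z = V.indicator 1 z)
    (hd : ∀ z ∈ Ω, fderiv ℝ χ z = 0) (hne : (Ω ∩ V).Nonempty) :
    4 * π * (β * c) ≤ (bdry Ω).real V := by
  have := h.gg.fin
  have hp := h.gg.piece hV hχ hχV hd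
  have h1 := iso hp
  rw [measureReal_restrict_apply MeasurableSet.univ, univ_inter] at h1
  have hm : 0 < (volume (Ω ∩ V)).toReal :=
    ENNReal.toReal_pos (hp.isOpen.measure_pos volume hne).ne' hp.vol_lt_top.ne
  have h2 := h.weak χ hχ
  have h3 : ∫ z in Ω, inner ℝ (G z) (gradient χ z) = 0 := by
    refine setIntegral_eq_zero_of_forall_eq_zero fun z hz => ?_
    rw [gradient, hd z hz, map_zero, inner_zero_right]
  have h4 : ∫ z in Ω, χ z = (volume (Ω ∩ V)).toReal := by
    rw [setIntegral_congr_fun h.gg.isOpen.measurableSet fun z hz => hχV z (subset_closure hz),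
      setIntegral_indicator hV.measurableSet]
    simp [Measure.real]
  have h5 : ∫ z, g z * χ z ∂(bdry Ω) = ∫ z in V, g z ∂(bdry Ω) := by
    rw [← integral_indicator hV.measurableSet]
    refine integral_congr_ae ?_
    filter_upwards [h.gg.supp] with z hz
    rw [hχV z hz]
    by_cases hz' : z ∈ V <;> simp [hz']
  have h6 : ∫ _ in V, c ∂(bdry Ω) ≤ ∫ z in V, g z ∂(bdry Ω) :=
    integral_mono_ae (integrable_const _) h.gint.integrableOn (ae_restrict_of_ae h.gge)
  rw [setIntegral_const, smul_eq_mul] at h6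
  rw [h3, h4, h5, zero_add] at h2
  set P := (bdry Ω).real V
  have hP0 : 0 ≤ P := measureReal_nonneg
  have hP : 0 < P := by
    rcases hP0.lt_or_eq with h7 | h7
    · exact h7
    · rw [← h7] at h1
      nlinarith [pi_pos]
  have h7 : β * (P * c) ≤ (volume (Ω ∩ V)).toReal := by
    rw [← h2]
    gcongr
  have h8 : P * (4 * π * (β * c)) ≤ P * P := by nlinarith [pi_pos]
  exact le_of_mul_le_mul_left h8 hP

theorem Sol.per_le (h : Sol Ω ν β c G g) (hβ : 0 < β) :
    β * ∫ z, g z ∂(bdry Ω) = (volume Ω).toReal ∧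
      β * c * (bdry Ω).real univ ≤ (volume Ω).toReal := by
  have := h.gg.fin
  have h2 := h.weak (fun _ => 1) contDiff_const
  simp only [gradient_fun_const, inner_zero_right, integral_zero, mul_one, zero_add,
    integral_const, MeasurableSet.univ, measureReal_restrict_apply, univ_inter, smul_eq_mul] at h2
  have h6 : ∫ _, c ∂(bdry Ω) ≤ ∫ z, g z ∂(bdry Ω) :=
    integral_mono_ae (integrable_const _) h.gint h.gge
  rw [integral_const, smul_eq_mul] at h6
  refine ⟨h2, le_trans ?_ h2.le⟩
  nlinarith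

theorem Sol.half (h : Sol Ω ν β c G g) (hβ : 0 < β) (e : ℂ) {a η : ℝ} (hη : 0 < η)
    (hgap : ∀ z ∈ closure Ω, η ≤ |(conj e * z).re - a|) {z : ℂ} (hz : z ∈ Ω)
    (hz' : (conj e * z).re ≤ a) : 4 * π * (β * c) ≤ (bdry Ω).real {x | (conj e * x).re < a} := by
  have hl : ContDiff ℝ 1 fun x : ℂ => (conj e * x).re :=
    Complex.reCLM.contDiff.comp (contDiff_const.mul contDiff_id)
  have hV : IsOpen {x : ℂ | (conj e * x).re < a} := isOpen_lt hl.continuous continuous_const
  have hV' : IsOpen {x : ℂ | a < (conj e * x).re} := isOpen_lt continuous_const hl.continuous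
  have hχV : ∀ x ∈ closure Ω, Real.smoothTransition ((a + η - (conj e * x).re) / (2 * η)) =
      {x : ℂ | (conj e * x).re < a}.indicator 1 x := by
    intro x hx
    have h1 := hgap x hx
    by_cases h2 : (conj e * x).re < a
    · rw [abs_of_neg (by linarith)] at h1
      rw [indicator_of_mem (by exact h2), Pi.one_apply]
      refine Real.smoothTransition.one_of_one_le ?_
      rw [le_div_iff₀ (by positivity)]
      linarith
    · rw [abs_of_nonneg (by linarith)] at h1
      rw [indicator_of_notMem (by exact h2)]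
      exact Real.smoothTransition.zero_of_nonpos
        (div_nonpos_of_nonpos_of_nonneg (by linarith) (by positivity))
  refine h.piece hβ hV
    (χ := fun x => Real.smoothTransition ((a + η - (conj e * x).re) / (2 * η)))
    (Real.smoothTransition.contDiff.comp ((contDiff_const.sub hl).div_const _)) hχV ?_ ⟨z, hz, ?_⟩
  · intro x hx
    have h1 := hgap x (subset_closure hx)
    by_cases h2 : (conj e * x).re < a
    · refine (EventuallyEq.fderiv_eq (f := fun _ => (1 : ℝ)) ?_).trans (by simp)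
      filter_upwards [h.gg.isOpen.mem_nhds hx, hV.mem_nhds h2] with y hy hy'
      rw [hχV y (subset_closure hy), indicator_of_mem (by exact hy'), Pi.one_apply]
    · have h3 : a < (conj e * x).re := by
        rw [abs_of_nonneg (by linarith)] at h1
        linarith
      refine (EventuallyEq.fderiv_eq (f := fun _ => (0 : ℝ)) ?_).trans (by simp)
      filter_upwards [h.gg.isOpen.mem_nhds hx, hV'.mem_nhds h3] with y hy hy'
      rw [hχV y (subset_closure hy), indicator_of_notMem (by simpa using hy'.le)]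
  · have h1 := hgap z (subset_closure hz)
    rw [abs_of_nonpos (by linarith)] at h1
    show (conj e * z).re < a
    linarith

/-- a line that misses the boundary of a bounded open set misses the set -/
theorem line_miss (hΩ : IsOpen Ω) (hb : Bornology.IsBounded Ω) {e : ℂ} (he : ‖e‖ = 1) {a : ℝ}
    (ha : ∀ x ∈ frontier Ω, (conj e * x).re ≠ a) : ∀ x ∈ closure Ω, (conj e * x).re ≠ a := by
  intro x hx hxa
  have hxΩ : x ∈ Ω := by
    by_contra hn
    exact ha x ⟨hx, by rwa [hΩ.interior_eq]⟩ hxa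
  have hee : conj e * e = 1 := by rw [Complex.conj_mul', he]; simp
  have hpc : IsPreconnected (range fun y : ℝ => x + e * Complex.I * y) :=
    isPreconnected_range (by fun_prop)
  have hsub : (range fun y : ℝ => x + e * Complex.I * y) ⊆ Ω := by
    refine hpc.subset_left_of_subset_union hΩ isClosed_closure.isOpen_compl
      (disjoint_compl_right.mono_left (subset_closure (s := Ω))) ?_ ⟨x, ⟨0, by simp⟩, hxΩ⟩
    rintro _ ⟨y, rfl⟩
    by_contra hn
    simp only [mem_union, mem_compl_iff, not_or, not_not] at hn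
    refine ha _ ⟨hn.2, by rw [hΩ.interior_eq]; exact hn.1⟩ ?_
    rw [mul_add, ← mul_assoc, ← mul_assoc, hee, Complex.add_re, hxa]
    simp
  obtain ⟨M, hM⟩ := hb.exists_norm_le
  have h1 := hM _ (hsub ⟨M + ‖x‖ + 1, rfl⟩)
  have h0 := (norm_nonneg x).trans (hM x hxΩ)
  have h2 := norm_sub_le (x + e * Complex.I * (M + ‖x‖ + 1 : ℝ)) x
  rw [add_sub_cancel_left, norm_mul, norm_mul, he, Complex.norm_I, Complex.norm_real,
    Real.norm_of_nonneg (by positivity)] at h2
  linarith

theorem Sol.hit (h : Sol Ω ν β c G g) (hβ : 0 < β) (hc : 0 < c)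
    (hbig : (volume Ω).toReal < 8 * π * (β * c) ^ 2) {e : ℂ} (he : ‖e‖ = 1) {a : ℝ} {z w : ℂ}
    (hz : z ∈ Ω) (hw : w ∈ Ω) (hza : (conj e * z).re ≤ a) (hwa : a ≤ (conj e * w).re) :
    ∃ x ∈ frontier Ω, (conj e * x).re = a := by
  have := h.gg.fin
  by_contra hn
  push Not at hn
  have h1 := line_miss h.gg.isOpen h.gg.bdd he hn
  obtain ⟨x, hx, hmin⟩ := h.gg.bdd.isCompact_closure.exists_isMinOn ⟨z, subset_closure hz⟩
    (f := fun x => |(conj e * x).re - a|) (by fun_prop)
  have hη : 0 < |(conj e * x).re - a| := abs_pos.mpr (sub_ne_zero.mpr (h1 x hx))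
  have h2 := h.half hβ e hη (fun y hy => hmin hy) hz hza
  have hneg : ∀ y : ℂ, (conj (-e) * y).re = -(conj e * y).re := by
    intro y; rw [map_neg, neg_mul, Complex.neg_re]
  have h3 := h.half hβ (-e) (a := -a) hη (fun y hy => by
    rw [hneg, show -(conj e * y).re - -a = -((conj e * y).re - a) by ring, abs_neg]
    exact hmin hy) hw (by rw [hneg]; linarith)
  have h4 : (bdry Ω).real {x | (conj e * x).re < a} +
      (bdry Ω).real {x | (conj (-e) * x).re < -a} ≤ (bdry Ω).real univ := by
    rw [← measureReal_union]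
    · exact measureReal_mono (subset_univ _)
    · rw [disjoint_left]
      intro y h5 h6
      simp only [mem_ofPred_eq, hneg] at h5 h6
      linarith
    · exact (isOpen_lt (by fun_prop) continuous_const).measurableSet
  have h5 := (h.per_le hβ).2
  have h6 : 0 < β * c := by positivity
  have h7 : β * c * (8 * π * (β * c)) ≤ β * c * (bdry Ω).real univ := by
    gcongr
    linarith
  nlinarith

/-- every strip between two points of `Ω` carries boundary length at least its width -/
theorem Sol.ng (h : Sol Ω ν β c G g) (hβ : 0 < β) (hc : 0 < c)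
    (hbig : (volume Ω).toReal < 8 * π * (β * c) ^ 2) {e : ℂ} (he : ‖e‖ = 1) {s t : ℝ} {z w : ℂ}
    (hz : z ∈ Ω) (hw : w ∈ Ω) (hzs : (conj e * z).re ≤ s) (hwt : t ≤ (conj e * w).re) :
    t - s ≤ (bdry Ω).real {x | s ≤ (conj e * x).re ∧ (conj e * x).re ≤ t} := by
  have := h.gg.fin
  have hm : MeasurableSet {x : ℂ | s ≤ (conj e * x).re ∧ (conj e * x).re ≤ t} :=
    (isClosed_Icc.preimage (f := fun x : ℂ => (conj e * x).re) (by fun_prop)).measurableSet
  have hlip : LipschitzWith 1 fun x : ℂ => (conj e * x).re := by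
    refine LipschitzWith.of_dist_le_mul fun x y => ?_
    rw [Real.dist_eq, ← Complex.sub_re, ← mul_sub, NNReal.coe_one, one_mul, dist_eq_norm]
    refine (Complex.abs_re_le_norm _).trans (le_of_eq ?_)
    rw [norm_mul, Complex.norm_conj, he, one_mul]
  have h1 := hlip.hausdorffMeasure_image_le (d := 1) zero_le_one
    ({x : ℂ | s ≤ (conj e * x).re ∧ (conj e * x).re ≤ t} ∩ frontier Ω)
  rw [hausdorffMeasure_real, ENNReal.coe_one, ENNReal.one_rpow, one_mul,
    ← Measure.restrict_apply hm] at h1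
  have h2 : Icc s t ⊆ (fun x : ℂ => (conj e * x).re) ''
      ({x : ℂ | s ≤ (conj e * x).re ∧ (conj e * x).re ≤ t} ∩ frontier Ω) := by
    intro a ha
    obtain ⟨x, hx, hxa⟩ := h.hit hβ hc hbig he hz hw (hzs.trans ha.1) (ha.2.trans hwt)
    exact ⟨x, ⟨by rw [mem_ofPred_eq, hxa]; exact ha, hx⟩, hxa⟩
  have h3 := (measure_mono h2).trans h1
  rw [Real.volume_Icc] at h3
  exact (ENNReal.ofReal_le_iff_le_toReal (measure_ne_top (bdry Ω) _)).mp h3

end Pool.Agent.P.MP_832dec_an
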