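import Pool.Agent.P.MP_832dec_an.Core3
import Pool.Agent.P.MP_832dec_an.NoGap

set_option autoImplicit false

open MeasureTheory Set Metric Filter Topology ComplexConjugate Real

namespace Pool.Agent.P.MP_832dec_an

/-- the similarity `w ↦ p + R w` -/
noncomputable def aff (p : ℂ) {R : ℝ} (hR : 0 < R) : ℂ ≃ₜ ℂ where
  toFun w := p + R * w
  invFun z := -p / R + (R : ℂ)⁻¹ * z
  left_inv w := by
    have : (R : ℂ) ≠ 0 := by exact_mod_cast hR.ne'
    field_simp
    ring
  right_inv z := by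
    have : (R : ℂ) ≠ 0 := by exact_mod_cast hR.ne'
    field_simp
    ring
  continuous_toFun := by fun_prop
  continuous_invFun := by fun_prop

variable {Ω : Set ℂ} {μ : Measure ℂ} {ν G : ℂ → ℂ} {β c R : ℝ} {g : ℂ → ℝ}

theorem aff_apply (p : ℂ) (hR : 0 < R) (w : ℂ) : aff p hR w = p + R * w := rfl

theorem aff_symm_apply (p : ℂ) (hR : 0 < R) (z : ℂ) :
    (aff p hR).symm z = -p / R + (R : ℂ)⁻¹ * z := rfl

theorem map_aff (p : ℂ) (hR : 0 < R) :
    Measure.map (aff p hR) volume = ENNReal.ofReal (R ^ 2)⁻¹ • (volume : Measure ℂ) := by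
  have h1 : (aff p hR : ℂ → ℂ) = (fun z => p + z) ∘ fun w => R • w := by
    ext w; simp [aff_apply]
  rw [h1, ← Measure.map_map (by fun_prop) (by fun_prop), Measure.map_addHaar_smul _ hR.ne',
    Measure.map_smul, map_add_left_eq_self, Complex.finrank_real_complex,
    abs_of_nonneg (by positivity)]

theorem vol_aff (p : ℂ) (hR : 0 < R) (A : Set ℂ) :
    (volume (aff p hR ⁻¹' A)).toReal = (R ^ 2)⁻¹ * (volume A).toReal := by
  rw [← (aff p hR).measurableEmbedding.map_apply, map_aff, Measure.smul_apply, smul_eq_mul,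
    ENNReal.toReal_mul, ENNReal.toReal_ofReal (by positivity)]

theorem int_aff (p : ℂ) (hR : 0 < R) (A : Set ℂ) (F : ℂ → ℂ) :
    ∫ w in aff p hR ⁻¹' A, F w = ((R : ℂ) ^ 2)⁻¹ * ∫ z in A, F ((aff p hR).symm z) := by
  have h := (aff p hR).measurableEmbedding.setIntegral_map (μ := volume)
    (fun z => F ((aff p hR).symm z)) A
  simp only [Homeomorph.symm_apply_apply] at h
  rw [← h, map_aff, Measure.restrict_smul, integral_smul_measure,
    ENNReal.toReal_ofReal (by positivity)]
  simp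

/-- the boundary measure after the similarity -/
noncomputable def affMeasure (p : ℂ) (hR : 0 < R) (μ : Measure ℂ) : Measure ℂ :=
  ENNReal.ofReal R⁻¹ • Measure.map (aff p hR).symm μ

theorem int_affMeasure (p : ℂ) (hR : 0 < R) (μ : Measure ℂ) (F : ℂ → ℂ) :
    ∫ w, F w ∂(affMeasure p hR μ) = (R : ℂ)⁻¹ * ∫ z, F ((aff p hR).symm z) ∂μ := by
  rw [affMeasure, integral_smul_measure, (aff p hR).symm.measurableEmbedding.integral_map,
    ENNReal.toReal_ofReal (by positivity)]
  simp

theorem real_affMeasure (p : ℂ) (hR : 0 < R) (μ : Measure ℂ) (A : Set ℂ) :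
    (affMeasure p hR μ).real A = R⁻¹ * μ.real ((aff p hR).symm ⁻¹' A) := by
  rw [affMeasure, Measure.real, Measure.smul_apply, smul_eq_mul, ENNReal.toReal_mul,
    (aff p hR).symm.measurableEmbedding.map_apply, ENNReal.toReal_ofReal (by positivity)]
  rfl

theorem GG.transport (h : GG Ω μ ν) (p : ℂ) (hR : 0 < R) :
    GG (aff p hR ⁻¹' Ω) (affMeasure p hR μ) (fun w => ν (aff p hR w)) where
  isOpen := h.isOpen.preimage (aff p hR).continuous
  bdd := ((aff p hR).isCompact_preimage.mpr h.bdd.isCompact_closure).isBounded.subset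
    (preimage_mono subset_closure)
  fin := by
    have := h.fin
    exact Measure.smul_finite _ ENNReal.ofReal_ne_top
  meas := h.meas.comp (aff p hR).continuous.measurable
  unit := fun w => h.unit _
  supp := by
    refine Measure.ae_smul_measure ?_ _
    rw [(aff p hR).symm.measurableEmbedding.ae_map_iff]
    filter_upwards [h.supp] with z hz
    rw [← (aff p hR).preimage_closure]
    simpa using hz
  gg := by
    intro f hf
    have hR' : (R : ℂ) ≠ 0 := by exact_mod_cast hR.ne'
    have h1 := h.gg (fun z => f (-p / R + (R : ℂ)⁻¹ * z))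
      (hf.comp (contDiff_const.add (contDiff_const.mul contDiff_id)))
    simp only [dbar_comp_affine _ _ _ (hf.differentiable one_ne_zero _), integral_const_mul,
      map_inv₀, Complex.conj_ofReal] at h1
    rw [int_aff, int_affMeasure]
    simp only [Homeomorph.apply_symm_apply]
    simp only [aff_symm_apply]
    rw [← h1]
    field_simp

theorem re_conj_aff (p : ℂ) (hR : 0 < R) (e w : ℂ) :
    (conj e * aff p hR w).re = (conj e * p).re + R * (conj e * w).re := by
  rw [aff_apply, mul_add, Complex.add_re, mul_left_comm, Complex.re_ofReal_mul]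

/-- the normalised data attached to a solution that is bounded below by almost the minimum of the
solution on the disc -/
theorem Sol.core {δ : ℝ} (hβ : 0 < β) (hR : 0 < R) (hδ : 0 ≤ δ) (hδ' : β * δ ≤ R / 10)
    (h : Sol Ω ν β (R / (2 * β) - δ) G g) (hv : (volume Ω).toReal = π * R ^ 2) :
    ∃ p : ℂ, Core (aff p hR ⁻¹' Ω) (affMeasure p hR (bdry Ω)) (fun w => ν (aff p hR w))
      ((40 * β / R + 7 / R ^ 2) * δ) := by
  have := h.gg.fin
  have hR' : (R : ℂ) ≠ 0 := by exact_mod_cast hR.ne'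
  have hpi := pi_gt_three
  have hpi' := pi_lt_d2
  set P := (bdry Ω).real univ with hP
  set c := R / (2 * β) - δ with hc
  have hβc : β * c = R / 2 - β * δ := by rw [hc]; field_simp
  have hβδ : 0 ≤ β * δ := by positivity
  have hc0 : 0 < c := by
    have : 0 < β * c := by linarith
    exact (pos_iff_pos_of_mul_pos this).mp hβ
  have hP1 : 2 * π * R ≤ P := by
    have h1 := iso h.gg
    rw [hv] at h1
    exact le_of_sq_le_sq (by nlinarith) measureReal_nonneg
  have hP0 : 0 < P := lt_of_lt_of_le (by positivity) hP1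
  obtain ⟨hg, hP2⟩ := h.per_le hβ
  rw [hv] at hg hP2
  rw [hβc, ← hP] at hP2
  have hP3 : P ≤ 2 * π * R + 26 * (β * δ) := by
    have h1 : π * R ^ 2 ≤ (R / 2 - β * δ) * (2 * π * R + 26 * (β * δ)) := by
      have a1 : 0 ≤ β * δ * (R / 10 - β * δ) := by
        have : 0 ≤ R / 10 - β * δ := by linarith
        positivity
      have a2 : 0 ≤ β * δ * R * (3.15 - π) := by
        have : 0 ≤ 3.15 - π := by linarith
        positivity
      have a3 : 0 ≤ β * δ * R := by positivity
      nlinarith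
    exact le_of_mul_le_mul_left (hP2.trans h1) (by linarith)
  have hK : 26 * (β * δ) / R ≤ (40 * β / R + 7 / R ^ 2) * δ := by
    have a1 : 26 * (β * δ) / R = 26 * (β / R * δ) := by ring
    have a2 : (40 * β / R + 7 / R ^ 2) * δ = 40 * (β / R * δ) + 7 / R ^ 2 * δ := by ring
    have a3 : 0 ≤ β / R * δ := by positivity
    have a4 : 0 ≤ 7 / R ^ 2 * δ := by positivity
    linarith
  refine ⟨(P : ℂ)⁻¹ * ∫ z, z ∂(bdry Ω), h.gg.transport _ hR, ?_, ?_, ?_, ?_, ?_⟩
  · rw [← ENNReal.ofReal_toReal (h.gg.transport _ hR).vol_lt_top.ne, vol_aff, hv]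
    congr 1
    field_simp
  · rw [int_affMeasure]
    simp only [aff_symm_apply]
    rw [integral_add (integrable_const _) (h.gg.integrable (by fun_prop)), integral_const,
      integral_const_mul, ← hP]
    have : (P : ℂ) ≠ 0 := by exact_mod_cast hP0.ne'
    simp only [Complex.real_smul]
    field_simp
    ring
  · rw [real_affMeasure, preimage_univ, ← hP]
    refine le_trans ?_ (add_le_add_right hK _)
    rw [inv_mul_le_iff₀ hR]
    refine hP3.trans (le_of_eq ?_)
    field_simp
  · intro e he s t z hz w hw hzs hwt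
    set p := (P : ℂ)⁻¹ * ∫ z, z ∂(bdry Ω)
    have h1 := h.ng hβ hc0 (by
        rw [hv, hβc]
        have : R ^ 2 < 8 * (R / 2 - β * δ) ^ 2 := by nlinarith
        nlinarith) he (s := (conj e * p).re + R * s)
      (t := (conj e * p).re + R * t) hz hw (by rw [re_conj_aff]; gcongr)
      (by rw [re_conj_aff]; gcongr)
    rw [real_affMeasure, le_inv_mul_iff₀ hR]
    refine le_trans (le_of_eq (by ring)) (h1.trans (measureReal_mono fun x hx => ?_))
    have h2 := re_conj_aff p hR e ((aff p hR).symm x)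
    rw [Homeomorph.apply_symm_apply] at h2
    rw [mem_ofPred_eq, h2] at hx
    exact ⟨le_of_mul_le_mul_left (by linarith [hx.1]) hR,
      le_of_mul_le_mul_left (by linarith [hx.2]) hR⟩
  · intro k hk L hL hs
    set p := (P : ℂ)⁻¹ * ∫ z, z ∂(bdry Ω)
    set T : ℂ → ℂ := fun z => -p / R + (R : ℂ)⁻¹ * z with hT
    have hTc : Continuous T := by fun_prop
    have hTL : ∀ᵐ z ∂(bdry Ω), ‖T z‖ ≤ L := by
      have hcl : closure Ω ⊆ {z | ‖T z‖ ≤ L} := by
        refine closure_minimal (fun z hz => ?_) (isClosed_le hTc.norm continuous_const)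
        have : (aff p hR).symm z ∈ aff p hR ⁻¹' Ω := by simpa using hz
        exact (mem_ball_zero_iff.mp (hs this)).le
      filter_upwards [h.gg.supp] with z hz using hcl hz
    have hder : ∀ z, HasDerivAt (fun z => T z ^ k) (k * T z ^ (k - 1) * (R : ℂ)⁻¹) z := by
      intro z
      have h1 : HasDerivAt T (R : ℂ)⁻¹ z := by
        have := ((hasDerivAt_id z).const_mul (R : ℂ)⁻¹).const_add (-p / R)
        rwa [mul_one] at this
      exact h1.pow k
    have h1 := h.holo (fun z => T z ^ k) fun z => (hder z).differentiableAt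
    simp only [(hder _).deriv] at h1
    have h2 : ∫ z, k * T z ^ (k - 1) * (R : ℂ)⁻¹ * ν z ∂(bdry Ω) = 0 := by
      rw [← h.gg.gg (fun z => k * T z ^ (k - 1) * (R : ℂ)⁻¹) (by rw [hT]; fun_prop)]
      have : ∀ z, dbar (fun z => k * T z ^ (k - 1) * (R : ℂ)⁻¹) z = 0 :=
        fun z => dbar_holo (by rw [hT]; fun_prop)
      simp [this]
    have i1 : Integrable (fun z => k * T z ^ (k - 1) * (R : ℂ)⁻¹ * ν z) (bdry Ω) :=
      h.gg.integrable₂ (F := fun q => k * T q.1 ^ (k - 1) * (R : ℂ)⁻¹ * q.2) (by fun_prop)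
    have i2 : Integrable (fun z => T z ^ k) (bdry Ω) := h.gg.integrable (by fun_prop)
    have hLk : 1 ≤ L ^ k := one_le_pow₀ hL
    have hk' : (1 : ℝ) ≤ k := by exact_mod_cast hk
    have hb1 : ∀ᵐ z ∂(bdry Ω), ‖T z ^ k‖ ≤ L ^ k := by
      filter_upwards [hTL] with z hz
      rw [norm_pow]
      gcongr
    have hb2 : ∀ᵐ z ∂(bdry Ω),
        ‖k * T z ^ (k - 1) * (R : ℂ)⁻¹ * ν z + β * T z ^ k‖ ≤ k * L ^ k * (R⁻¹ + β) := by
      filter_upwards [hTL, hb1] with z hz hz'
      refine (norm_add_le _ _).trans ?_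
      rw [norm_mul, norm_mul, norm_mul, norm_mul, h.gg.unit, mul_one, norm_inv, Complex.norm_real,
        Complex.norm_real, Real.norm_of_nonneg hR.le, Real.norm_of_nonneg hβ.le,
        Complex.norm_natCast, norm_pow, mul_add]
      have a1 : ‖T z‖ ^ (k - 1) ≤ L ^ k :=
        (pow_le_pow_left₀ (norm_nonneg _) hz _).trans (pow_le_pow_right₀ hL (by omega))
      have a2 : β * ‖T z ^ k‖ ≤ k * L ^ k * β := by
        have : β * ‖T z ^ k‖ ≤ β * L ^ k := by gcongr
        have : 0 ≤ β * L ^ k * (k - 1) := by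
          have : (0 : ℝ) ≤ k - 1 := by linarith
          positivity
        nlinarith
      gcongr
    have i3 : Integrable (fun z => k * T z ^ (k - 1) * (R : ℂ)⁻¹ * ν z + β * T z ^ k) (bdry Ω) :=
      i1.add (i2.const_mul _)
    have ie : Integrable (fun z => g z - c) (bdry Ω) := h.gint.sub (integrable_const c)
    have i4 : Integrable (fun z => ((g z - c : ℝ) : ℂ) *
        (k * T z ^ (k - 1) * (R : ℂ)⁻¹ * ν z + β * T z ^ k)) (bdry Ω) :=
      ie.ofReal.mul_bdd i3.aestronglyMeasurable hb2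
    have h3 : ∫ z, (g z : ℂ) * (k * T z ^ (k - 1) * (R : ℂ)⁻¹ * ν z + β * T z ^ k) ∂(bdry Ω) =
        (∫ z, ((g z - c : ℝ) : ℂ) * (k * T z ^ (k - 1) * (R : ℂ)⁻¹ * ν z + β * T z ^ k)
          ∂(bdry Ω)) + ((β * c : ℝ) : ℂ) * ∫ z, T z ^ k ∂(bdry Ω) := by
      have e : ∀ z, (g z : ℂ) * (k * T z ^ (k - 1) * (R : ℂ)⁻¹ * ν z + β * T z ^ k) =
          ((g z - c : ℝ) : ℂ) * (k * T z ^ (k - 1) * (R : ℂ)⁻¹ * ν z + β * T z ^ k) +
            c * (k * T z ^ (k - 1) * (R : ℂ)⁻¹ * ν z + β * T z ^ k) := by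
        intro z; push_cast; ring
      simp only [e]
      rw [integral_add i4 (i3.const_mul _), integral_const_mul, integral_add i1 (i2.const_mul _),
        h2, integral_const_mul]
      push_cast
      ring
    have h4 : ∫ z, (g z - c) ∂(bdry Ω) ≤ 7 * R * δ := by
      rw [integral_sub h.gint (integrable_const c), integral_const, smul_eq_mul, ← hP]
      have a1 : 2 * π * R * (R / 2 - β * δ) ≤ P * (R / 2 - β * δ) := by
        have : 0 ≤ R / 2 - β * δ := by linarith
        gcongr
      have a2 : 0 ≤ R * (β * δ) * (3.5 - π) := by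
        have : 0 ≤ 3.5 - π := by linarith
        positivity
      refine le_of_mul_le_mul_left ?_ hβ
      rw [mul_sub, hg, mul_left_comm β P, hβc]
      nlinarith
    have h5 : ‖∫ z, ((g z - c : ℝ) : ℂ) * (k * T z ^ (k - 1) * (R : ℂ)⁻¹ * ν z + β * T z ^ k)
        ∂(bdry Ω)‖ ≤ 7 * R * δ * (k * L ^ k * (R⁻¹ + β)) := by
      refine (norm_integral_le_of_norm_le (ie.mul_const (k * L ^ k * (R⁻¹ + β))) ?_).trans ?_
      · filter_upwards [hb2, h.gge] with z hz hz'
        rw [norm_mul, Complex.norm_real, Real.norm_of_nonneg (by linarith)]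
        have : 0 ≤ g z - c := by linarith
        gcongr
      · rw [integral_mul_const]
        gcongr
    have h6 : ‖∫ z, T z ^ k ∂(bdry Ω)‖ ≤ L ^ k * (9 * R) := by
      refine (norm_integral_le_of_norm_le_const hb1).trans ?_
      rw [← hP]
      gcongr
      nlinarith
    rw [int_aff, int_affMeasure]
    simp only [aff_symm_apply]
    rw [h1, h3, hβc]
    set A := ∫ z, ((g z - c : ℝ) : ℂ) * (k * T z ^ (k - 1) * (R : ℂ)⁻¹ * ν z + β * T z ^ k)
      ∂(bdry Ω)
    set N := ∫ z, T z ^ k ∂(bdry Ω)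
    have e : ((R : ℂ) ^ 2)⁻¹ * (A + ((R / 2 - β * δ : ℝ) : ℂ) * N) - 1 / 2 * ((R : ℂ)⁻¹ * N) =
        (((R ^ 2)⁻¹ : ℝ) : ℂ) * (A - ((β * δ : ℝ) : ℂ) * N) := by
      push_cast
      field_simp
      ring
    rw [e, norm_mul, Complex.norm_real, Real.norm_of_nonneg (by positivity),
      inv_mul_le_iff₀ (by positivity)]
    refine (norm_sub_le _ _).trans ?_
    rw [norm_mul, Complex.norm_real, Real.norm_of_nonneg hβδ]
    have a1 : β * δ * ‖N‖ ≤ β * δ * (L ^ k * (9 * R)) := by gcongr
    have a2 : R ^ 2 * ((40 * β / R + 7 / R ^ 2) * δ * k * L ^ k) =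
        7 * R * δ * (k * L ^ k * (R⁻¹ + β)) + 33 * (β * δ * L ^ k * R) * k := by
      field_simp
      ring
    have a3 : 0 ≤ β * δ * L ^ k * R := by positivity
    rw [a2]
    nlinarith

end Pool.Agent.P.MP_832dec_an
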